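import Pool.Agent.R399.TW.InstE
import Pool.Agent.Y767.CA.As

/-!
# Cuspidal automorphic representations
-/

set_option autoImplicit false

namespace Pool.Agent.R399.TW

open Finset Filter Topology Complex MeasureTheory
open ArithmeticFunction (vonMangoldt)
open Pool.Agent.Y767.CA (cf GGc FEc Gd GGc_ne CD eps_of summable_lin)
open scoped ComplexConjugate

variable {m : ℕ} (D : CD m)

theorem cd_fec {q : ℕ} (χ : DirichletCharacter ℂ q) (hq : 2 ≤ q) (hN : Nat.Coprime q D.N)
    (hχ : χ.IsPrimitive) : FEc (D.R q) (D.μ (χ (-1))) (D.F q χ) := by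
  have hR := D.R_pos hq
  have key : ∀ z : ℂ, Gd (D.μ (χ (-1))) z →
      GGc (D.R q) (D.μ (χ (-1))) z * D.F q χ z = D.Λ q χ z := by
    intro z hz
    rw [D.F_eq, mul_div_cancel₀ _ (GGc_ne hR hz)]
  refine ⟨D.diff χ hq hN hχ, ?_, ?_⟩
  · obtain ⟨w, hw, hfe⟩ := D.fe q χ hq hN hχ
    refine ⟨w, hw, fun s hs => ?_⟩
    have hs2 : Gd (D.μ (χ (-1))) (1 - conj s) := by
      intro i
      have : (1 - conj s).im = s.im := by simp
      rw [this]
      exact hs i
    rw [key s hs, key _ hs2]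
    have h1 := hfe (1 - s)
    have e1 : (1 - (1 - s)) = s := by ring
    have e2 : conj (1 - s) = 1 - conj s := by simp
    rw [e1, e2] at h1
    exact h1
  · intro a b
    obtain ⟨C, hC⟩ := D.bdd q χ hq hN hχ a b
    refine ⟨C, fun s h1 h2 h3 => ?_⟩
    have hs : Gd (D.μ (χ (-1))) s := by
      intro i h
      have := h3 i
      rw [h, abs_zero] at this
      linarith
    rw [key s hs]
    exact hC _ h1 h2

/-- the family of twists of a cuspidal representation -/
theorem fam_cd : Fm m D.N D.Λ := by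
  have hL : Lin (cf D.α) := fun σ hσ => summable_lin D.rs_sum hσ
  obtain ⟨C, hC⟩ := sqb_of_lim D.rs_sum D.rs_lim
  have hW := D.W_ge
  refine ⟨cf D.α, D.N, 3 * (1 + (D.W + 2)), C, Nat.cast_nonneg _, by linarith, hL, hC, ?_⟩
  intro q χ hq hN hχ
  have hR := D.R_pos hq
  have hmem : Mem (cf D.α) (D.R q) (3 * (1 + (D.W + 2))) (Fintype.card (Fin m)) (chs χ)
      (D.F q χ) := by
    refine mem_of_fec hR (μ := D.μ (χ (-1))) (D.μ_re _ (eps_of χ))
      (fun i => by linarith [D.norm_μ (eps_of χ) i]) (by linarith) (cd_fec D χ hq hN hχ) hL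
      (chs_mul χ) (chs_one χ) (chs_le χ) ?_
    refine ser_of_euler D.α_le D.rs_sum (chs_one χ) (chs_mul χ) (chs_le χ) (D.diff χ hq hN hχ)
      fun s hs => ?_
    have h1 := D.euler q χ hq hN hχ s hs
    rw [D.F_eq]
    exact h1
  rw [Fintype.card_fin] at hmem
  refine ⟨D.F q χ, hmem, fun s _ hs => ?_, fun s _ _ hs => ?_⟩
  · rw [D.F_eq, hs, zero_div]
  · obtain ⟨w, hw, hfe⟩ := D.fe q χ hq hN hχ
    have h1 := hfe (conj s)
    rw [Complex.conj_conj, hs, map_zero, mul_zero] at h1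
    rw [D.F_eq, h1, zero_div]

end Pool.Agent.R399.TW
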