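import Pool.Agent.R399.TW.InstE
import Pool.Agent.Y772.HI.Tw
import Pool.Agent.Y772.HI.Ray
import Pool.Agent.Y767.HC.Good
import Pool.Agent.Y773.HK.Asm

/-!
# Hecke characters of totally real fields
-/

set_option autoImplicit false

namespace Pool.Agent.R399.TW

open Finset Filter Topology Complex MeasureTheory NumberField
open ArithmeticFunction (vonMangoldt)
open Pool.Agent.Y767.CA (GGc FEc)
open Pool.Agent.Y767 (IsHecke FEn GGn eq_of_LI card_places)
open Pool.Agent.Y773 (LI cc absNorm_span_nat mul_span_ne_top)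
open scoped ComplexConjugate

lemma fec_of_fen {ι : Type} [Fintype ι] {R : ℝ} {e : ι → ℕ} {ν : ι → ℝ} {F : ℂ → ℂ}
    (h : FEn R e ν F) : FEc R (fun i => (e i : ℂ) + I * ν i) F := by
  have hG : ∀ s : ℂ, GGc R (fun i => (e i : ℂ) + I * ν i) s = GGn R e ν s := by
    intro s
    unfold GGc GGn
    congr 1
    refine Finset.prod_congr rfl fun i _ => ?_
    congr 1
    ring
  have him : ∀ i, ((e i : ℂ) + I * ν i).im = ν i := fun i => by simp
  refine ⟨h.diff, ?_, ?_⟩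
  · obtain ⟨w, hw, hfe⟩ := h.fe
    refine ⟨w, hw, fun s hs => ?_⟩
    rw [hG, hG]
    refine hfe s fun i => ?_
    have := hs i
    simp only [him] at this
    exact this
  · intro a b
    obtain ⟨C, hC⟩ := h.vert a b
    refine ⟨C, fun s h1 h2 h3 => ?_⟩
    rw [hG]
    refine hC s h1 h2 fun i => ?_
    have := h3 i
    simp only [him] at this
    exact this

variable {K : Type} [Field K] [NumberField K] [IsTotallyReal K]

/-- the family of twists of a Hecke character -/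
theorem fam_hecke {𝔣 : Ideal (𝓞 K)} {ν : InfinitePlace K → ℝ} {ψ : Ideal (𝓞 K) →*₀ ℂ}
    (hψ : IsHecke K 𝔣 ν ψ) (hν : ∑ w, ν w = 0)
    {L : (q : ℕ) → DirichletCharacter ℂ q → ℂ → ℂ}
    (hL : ∀ (q : ℕ) (χ : DirichletCharacter ℂ q), 2 ≤ q →
      Nat.Coprime q (Ideal.absNorm 𝔣 * (discr K).natAbs) → χ.IsPrimitive →
      Differentiable ℂ (L q χ) ∧ ∀ s : ℂ, 1 < s.re → L q χ s = LI (Pool.Agent.Y773.tw ψ χ) s) :
    Fm (Module.finrank ℚ K) (Ideal.absNorm 𝔣 * (discr K).natAbs) L := by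
  obtain ⟨A₀, hA₀, hD⟩ := Pool.Agent.Y772.DK.t_dirK K
  obtain ⟨-, -, -, -, -, -, b1, -, -, -, -⟩ := hD ψ (Pool.Agent.Y772.HI.hm_norm_le hψ.toIsHM)
  have hLin : Lin (cc ψ) := by
    intro σ hσ
    refine Summable.of_nonneg_of_le (fun n => ?_) (fun n => ?_)
      ((Pool.Agent.Y767.CA.summable_vm hσ).mul_left (Module.finrank ℚ K : ℝ))
    · have := vm_nn n
      positivity
    · have h1 := vm_nn n
      have h2 := b1 n
      calc vonMangoldt n * ‖cc ψ n‖ * (n : ℝ) ^ (-σ)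
          ≤ vonMangoldt n * (Module.finrank ℚ K : ℝ) * (n : ℝ) ^ (-σ) := by gcongr
        _ = _ := by ring
  have hS0 : (0 : ℝ) ≤ ∑ w, |ν w| := Finset.sum_nonneg fun _ _ => abs_nonneg _
  have hνS : ∀ w, |ν w| ≤ ∑ w, |ν w| := fun w =>
    Finset.single_le_sum (f := fun w => |ν w|) (fun _ _ => abs_nonneg _) (Finset.mem_univ w)
  set V : ℝ := 4 + ∑ w, |ν w| with hV
  refine ⟨cc ψ, ((Ideal.absNorm 𝔣 * Ideal.absNorm (differentIdeal ℤ (𝓞 K)) : ℕ) : ℝ),
    3 * (1 + V), _, Nat.cast_nonneg _, by linarith, hLin, sqb_of_bdd b1, ?_⟩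
  intro q χ hq hqN hχ
  have htw : IsHecke K (𝔣 * Ideal.span {(q : 𝓞 K)}) ν (Pool.Agent.Y773.tw ψ χ) := by
    refine Pool.Agent.Y772.HI.tw_hecke hψ χ (by omega) hχ ?_ ?_
    · exact Nat.Coprime.coprime_dvd_right (dvd_mul_right _ _) hqN
    · have h1 : Nat.Coprime q (discr K).natAbs :=
        Nat.Coprime.coprime_dvd_right (dvd_mul_left _ _) hqN
      rw [Int.isCoprime_iff_gcd_eq_one]
      simpa [Int.gcd] using h1
  obtain ⟨hd, hs⟩ := hL q χ hq hqN hχ
  have hψ1 := Pool.Agent.Y772.HI.hm_norm_le htw.toIsHM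
  obtain ⟨-, d2, d3, d4, -, -, -, -, -, -, -⟩ := hD (Pool.Agent.Y773.tw ψ χ) hψ1
  obtain ⟨-, -, -, -, -, -, -, -, -, -, d11⟩ := hD ψ (Pool.Agent.Y772.HI.hm_norm_le hψ.toIsHM)
  obtain ⟨e, G, hG, hGL⟩ := htw.fe hν (mul_span_ne_top hq)
  have hFG : L q χ = G := eq_of_LI hd hG.diff (fun s h => by rw [hs s h, hGL s h])
  rw [← hFG] at hG
  have hFE := fec_of_fen hG
  -- the conductor
  have hRe : ((Ideal.absNorm (𝔣 * Ideal.span {(q : 𝓞 K)}) *
      Ideal.absNorm (differentIdeal ℤ (𝓞 K)) : ℕ) : ℝ) =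
      ((Ideal.absNorm 𝔣 * Ideal.absNorm (differentIdeal ℤ (𝓞 K)) : ℕ) : ℝ) *
        (q : ℝ) ^ (Module.finrank ℚ K) := by
    rw [map_mul, absNorm_span_nat]
    push_cast
    ring
  have hR : (0 : ℝ) < ((Ideal.absNorm 𝔣 * Ideal.absNorm (differentIdeal ℤ (𝓞 K)) : ℕ) : ℝ) *
        (q : ℝ) ^ (Module.finrank ℚ K) := by
    have h1 : 0 < Ideal.absNorm 𝔣 := Nat.pos_of_ne_zero fun h =>
      hψ.ne_bot (Ideal.absNorm_eq_zero_iff.1 h)
    have h2 : 0 < Ideal.absNorm (differentIdeal ℤ (𝓞 K)) := Nat.pos_of_ne_zero fun h =>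
      differentIdeal_ne_bot (Ideal.absNorm_eq_zero_iff.1 h)
    have h3 : (0 : ℝ) < ((Ideal.absNorm 𝔣 * Ideal.absNorm (differentIdeal ℤ (𝓞 K)) : ℕ) : ℝ) := by
      exact_mod_cast Nat.mul_pos h1 h2
    have h4 : (0 : ℝ) < q := by exact_mod_cast (show 0 < q by omega)
    positivity
  rw [hRe] at hFE
  have hμre : ∀ i, (((e i : ℕ) : ℂ) + I * ((-ν i : ℝ) : ℂ)).re = e i := fun i => by simp
  have hmem : Mem (cc ψ) (((Ideal.absNorm 𝔣 * Ideal.absNorm (differentIdeal ℤ (𝓞 K)) : ℕ) : ℝ) *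
      (q : ℝ) ^ (Module.finrank ℚ K)) (3 * (1 + V)) (Fintype.card (InfinitePlace K)) (chs χ)
      (L q χ) := by
    refine mem_of_fec hR (μ := fun i => ((e i : ℕ) : ℂ) + I * ((-ν i : ℝ) : ℂ)) (fun i => ?_)
      (fun i => ?_) (by linarith) hFE hLin (chs_mul χ) (chs_one χ) (chs_le χ) ?_
    · rw [hμre]
      have : (0 : ℝ) ≤ e i := Nat.cast_nonneg _
      linarith
    · have h1 : ‖((e i : ℕ) : ℂ) + I * ((-ν i : ℝ) : ℂ)‖ ≤ 1 + |ν i| := by
        refine (norm_add_le _ _).trans ?_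
        rw [Complex.norm_natCast, norm_mul, Complex.norm_I, one_mul, Complex.norm_real,
          Real.norm_eq_abs, abs_neg]
        have : (e i : ℝ) ≤ 1 := by exact_mod_cast hG.he i
        linarith
      have := hνS i
      rw [hV]
      linarith
    · refine ser_of_ld hLin (chs_one χ) (chs_mul χ) (chs_le χ) (fun s _ => hd s)
        (fun s h => by rw [hs s h]; exact d3 s h) (fun s h => ?_) ?_
      · have h5 : deriv (L q χ) s = deriv (LI (Pool.Agent.Y773.tw ψ χ)) s := by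
          refine Filter.EventuallyEq.deriv_eq ?_
          have h6 : {z : ℂ | 1 < z.re} ∈ 𝓝 s :=
            (isOpen_lt continuous_const Complex.continuous_re).mem_nhds h
          filter_upwards [h6] with z hz
          exact hs z hz
        rw [h5, hs s h, d4 s h]
        congr 1
        refine tsum_congr fun n => ?_
        rw [d11 q χ n]
        rfl
      · have h7 := Pool.Agent.Y772.DK.LA_tendsto (K := K)
          (a := fun 𝔞 => (Pool.Agent.Y773.tw ψ χ) 𝔞) (map_zero _) hψ1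
        simp only [map_one] at h7
        refine h7.congr' ?_
        filter_upwards [eventually_gt_atTop 1] with x hx
        rw [hs _ (by simpa using hx)]
        rfl
  rw [card_places] at hmem
  refine ⟨L q χ, hmem, fun s _ h => h, fun s h0 h1 h2 => ?_⟩
  exact refl_zero hR (fun i => by rw [hμre]; exact Nat.cast_nonneg _) hFE h0 h1 h2

end Pool.Agent.R399.TW
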