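import Pool.Agent.R399.TW.Cor

/-!
# The best exponents
-/

set_option autoImplicit false

namespace Pool.Agent.R399.TW

open Finset Filter Topology Complex MeasureTheory

/-- the exponent for the family of all moduli -/
noncomputable def ex2 (m : ℕ) (δ : ℝ) : ℝ :=
  if m ≤ 3 then 2 * (1 - 2 * δ) * (3 + (m + 1) * δ) / (3 - δ)
  else 2 * (1 - 2 * δ) * (5 + 2 * m * δ) / (5 - 2 * δ)

/-- the exponent for one modulus -/
noncomputable def ex1 (m : ℕ) (δ : ℝ) : ℝ := (1 - 2 * δ) * (5 + 4 * m * δ) / (5 - 2 * δ)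

lemma adm_three {m : ℕ} (hm : m ≤ 3) {δ : ℝ} (h0 : 0 ≤ δ) (h1 : δ ≤ 1 / 2) :
    ∃ x y n : ℝ, Adm m 2 (m + 3) δ x y n (2 * (1 - 2 * δ) * (3 + (m + 1) * δ) / (3 - δ)) := by
  have hm' : (m : ℝ) ≤ 3 := by exact_mod_cast hm
  have hm0 : (0 : ℝ) ≤ m := Nat.cast_nonneg m
  have hd : 0 < 3 - δ := by linarith
  set u : ℝ := 1 / (3 - δ) with hu
  have hu1 : u * (3 - δ) = 1 := by rw [hu]; field_simp
  have hu0 : 0 < u := by positivity
  have hu2 : u ≤ 2 / 5 := by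
    rw [hu, div_le_div_iff₀ hd (by norm_num)]
    linarith
  have hE : 2 * (1 - 2 * δ) * (3 + (m + 1) * δ) / (3 - δ) =
      u * (2 * (1 - 2 * δ) * (3 + (m + 1) * δ)) := by rw [hu]; ring
  rw [hE]
  have hmδ : 0 ≤ (m : ℝ) * δ := by positivity
  have hmδ2 : (m : ℝ) * δ ≤ 3 / 2 := by nlinarith
  have hmδ3 : (m : ℝ) * δ ≤ m / 2 := by nlinarith
  refine ⟨u * (4 - m + 2 * (1 + m) * δ), 2 * u * (3 + (1 + m) * δ), u * (2 + m), ?_⟩
  constructor
  · have : 0 ≤ 4 - m + 2 * (1 + m) * δ := by nlinarith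
    positivity
  · have : 4 - m + 2 * (1 + m) * δ ≤ 5 := by nlinarith
    nlinarith
  · positivity
  · have : 3 + (1 + (m : ℝ)) * δ ≤ 3 + (1 + m) / 2 := by nlinarith
    nlinarith
  · positivity
  · nlinarith
  · push_cast
    apply le_of_eq
    linear_combination (-2) * hu1
  · apply le_of_eq
    ring
  · have h2 : 0 ≤ δ * (u * (2 + m)) := by positivity
    push_cast
    have h3 : u * (2 * (1 - 2 * δ) * (3 + (m + 1) * δ)) -
        (2 - 2 * (2 * u * (3 + (1 + m) * δ)) * δ) = 2 * (δ * (u * (2 + m))) := by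
      linear_combination 2 * hu1
    linarith
  · apply le_of_eq
    ring
  · have h2 : u * (2 + m) ≤ 2 := by nlinarith
    have h3 : 2 * (m : ℝ) - 2 * (2 * u * (3 + (1 + m) * δ)) - 2 * (2 * u * (3 + (1 + m) * δ)) * δ +
        4 * (u * (4 - m + 2 * (1 + m) * δ)) - u * (2 + m) + (2 - u * (2 + m)) =
        u * (2 * (1 - 2 * δ) * (3 + (m + 1) * δ)) := by
      linear_combination (-2 * (m : ℝ) - 2) * hu1
    linarith
  · push_cast
    apply le_of_eq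
    linear_combination (-2 * (m : ℝ) - 2) * hu1

lemma adm_four {m : ℕ} (hm : 4 ≤ m) {δ : ℝ} (h0 : 0 ≤ δ) (h1 : δ ≤ 1 / 2)
    (hx : 0 ≤ 4 - (m : ℝ) + 2 * m * δ) :
    ∃ x y n : ℝ, Adm m 2 (m + 3) δ x y n (2 * (1 - 2 * δ) * (5 + 2 * m * δ) / (5 - 2 * δ)) := by
  have hm' : (4 : ℝ) ≤ m := by exact_mod_cast hm
  have hm0 : (0 : ℝ) ≤ m := Nat.cast_nonneg m
  have hd : 0 < 5 - 2 * δ := by linarith
  set u : ℝ := 1 / (5 - 2 * δ) with hu
  have hu1 : u * (5 - 2 * δ) = 1 := by rw [hu]; field_simp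
  have hu0 : 0 < u := by positivity
  have hu2 : u ≤ 1 / 4 := by
    rw [hu, div_le_div_iff₀ hd (by norm_num)]
    linarith
  have hE : 2 * (1 - 2 * δ) * (5 + 2 * m * δ) / (5 - 2 * δ) =
      u * (2 * (1 - 2 * δ) * (5 + 2 * m * δ)) := by rw [hu]; ring
  rw [hE]
  have hmδ : 0 ≤ (m : ℝ) * δ := by positivity
  have hmδ3 : (m : ℝ) * δ ≤ m / 2 := by nlinarith
  refine ⟨2 * u * (4 - m + 2 * m * δ), 2 * u * (5 + 2 * m * δ), u * (2 + 2 * m), ?_⟩
  constructor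
  · positivity
  · have : 4 - m + 2 * m * δ ≤ 4 := by nlinarith
    nlinarith
  · positivity
  · have : 5 + 2 * m * δ ≤ 5 + m := by nlinarith
    nlinarith
  · positivity
  · nlinarith
  · push_cast
    apply le_of_eq
    linear_combination (-2) * hu1
  · apply le_of_eq
    ring
  · have h2 : 0 ≤ δ * (u * (2 + 2 * m)) := by positivity
    push_cast
    have h3 : u * (2 * (1 - 2 * δ) * (5 + 2 * m * δ)) -
        (2 - 2 * (2 * u * (5 + 2 * m * δ)) * δ) = 2 * (δ * (u * (2 + 2 * m))) := by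
      linear_combination 2 * hu1
    linarith
  · apply le_of_eq
    ring
  · apply le_of_eq
    linear_combination (-2 * (m : ℝ)) * hu1
  · have h2 : 2 ≤ u * (2 + 2 * m) := by nlinarith
    push_cast
    have h3 : 2 * (m : ℝ) - 2 * (2 * u * (5 + 2 * m * δ)) - 2 * (2 * u * (5 + 2 * m * δ)) * δ +
        4 * (2 * u * (4 - m + 2 * m * δ)) - u * (2 + 2 * m) =
        u * (2 * (1 - 2 * δ) * (5 + 2 * m * δ)) := by
      linear_combination (-2 * (m : ℝ)) * hu1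
    linarith

lemma adm_one {m : ℕ} (hm : 2 ≤ m) {δ : ℝ} (h0 : 0 ≤ δ) (h1 : δ ≤ 1 / 2)
    (hx : 0 ≤ 2 - (m : ℝ) + 2 * m * δ) :
    ∃ x y n : ℝ, Adm m 1 (m + 3) δ x y n ((1 - 2 * δ) * (5 + 4 * m * δ) / (5 - 2 * δ)) := by
  have hm' : (2 : ℝ) ≤ m := by exact_mod_cast hm
  have hm0 : (0 : ℝ) ≤ m := Nat.cast_nonneg m
  have hd : 0 < 5 - 2 * δ := by linarith
  set u : ℝ := 1 / (5 - 2 * δ) with hu
  have hu1 : u * (5 - 2 * δ) = 1 := by rw [hu]; field_simp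
  have hu0 : 0 < u := by positivity
  have hu2 : u ≤ 1 / 4 := by
    rw [hu, div_le_div_iff₀ hd (by norm_num)]
    linarith
  have hE : (1 - 2 * δ) * (5 + 4 * m * δ) / (5 - 2 * δ) =
      u * ((1 - 2 * δ) * (5 + 4 * m * δ)) := by rw [hu]; ring
  rw [hE]
  have hmδ : 0 ≤ (m : ℝ) * δ := by positivity
  have hmδ3 : (m : ℝ) * δ ≤ m / 2 := by nlinarith
  refine ⟨2 * u * (2 - m + 2 * m * δ), u * (5 + 4 * m * δ), u * (1 + 2 * m), ?_⟩
  constructor
  · positivity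
  · have : 2 - m + 2 * m * δ ≤ 2 := by nlinarith
    nlinarith
  · positivity
  · have : 5 + 4 * m * δ ≤ 5 + 2 * m := by nlinarith
    nlinarith
  · positivity
  · nlinarith
  · push_cast
    apply le_of_eq
    linear_combination (-1) * hu1
  · apply le_of_eq
    ring
  · have h2 : 0 ≤ δ * (u * (1 + 2 * m)) := by positivity
    push_cast
    have h3 : u * ((1 - 2 * δ) * (5 + 4 * m * δ)) -
        (1 - 2 * (u * (5 + 4 * m * δ)) * δ) = 2 * (δ * (u * (1 + 2 * m))) := by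
      linear_combination hu1
    linarith
  · apply le_of_eq
    ring
  · apply le_of_eq
    linear_combination (-2 * (m : ℝ)) * hu1
  · have h2 : 1 ≤ u * (1 + 2 * m) := by nlinarith
    push_cast
    have h3 : 2 * (m : ℝ) - 2 * (u * (5 + 4 * m * δ)) - 2 * (u * (5 + 4 * m * δ)) * δ +
        4 * (2 * u * (2 - m + 2 * m * δ)) - u * (1 + 2 * m) =
        u * ((1 - 2 * δ) * (5 + 4 * m * δ)) := by
      linear_combination (-2 * (m : ℝ)) * hu1
    linarith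

/-- all moduli -/
theorem dens2 {m N : ℕ} {L : (q : ℕ) → DirichletCharacter ℂ q → ℂ → ℂ} (h : Fm m N L) :
    ∃ C B : ℝ, 0 ≤ C ∧ 0 ≤ B ∧ ∀ (Q : ℕ) (δ T : ℝ), 1 ≤ Q → 0 ≤ δ → δ ≤ 1 / 2 → 0 ≤ T →
      (count N Q (fun q χ => Far (L q χ) δ T) : ℝ) ≤
        C * (1 + T) ^ (2 * m + 1) * (1 + Real.log Q) ^ B * (Q : ℝ) ^ (ex2 m δ) := by
  have hm0 : (0 : ℝ) ≤ m := Nat.cast_nonneg m
  obtain ⟨C, B, hC, hB, hd⟩ := dens_all h (D := m + 3) (by positivity)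
  refine ⟨C + 1, B, by positivity, hB, fun Q δ T hQ hδ hδ1 hT => ?_⟩
  have hq1 : (1 : ℝ) ≤ Q := by exact_mod_cast hQ
  have hl := Real.log_nonneg hq1
  have hq0 : (0 : ℝ) < Q := by linarith
  have hpos : 0 ≤ (1 + T) ^ (2 * m + 1) * (1 + Real.log Q) ^ B * (Q : ℝ) ^ (ex2 m δ) := by
    positivity
  have hup : C * (1 + T) ^ (2 * m + 1) * (1 + Real.log Q) ^ B * (Q : ℝ) ^ (ex2 m δ) ≤
      (C + 1) * (1 + T) ^ (2 * m + 1) * (1 + Real.log Q) ^ B * (Q : ℝ) ^ (ex2 m δ) := by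
    nlinarith
  by_cases hm : m ≤ 3
  · obtain ⟨x, y, n, hA⟩ := adm_three hm hδ hδ1
    refine le_trans (hd Q δ T x y n _ hQ hδ hT hA) ?_
    have : ex2 m δ = 2 * (1 - 2 * δ) * (3 + (m + 1) * δ) / (3 - δ) := by
      unfold ex2
      rw [if_pos hm]
    rw [← this]
    exact hup
  · have he : ex2 m δ = 2 * (1 - 2 * δ) * (5 + 2 * m * δ) / (5 - 2 * δ) := by
      unfold ex2
      rw [if_neg hm]
    rcases le_or_gt 0 (4 - (m : ℝ) + 2 * m * δ) with h4 | h4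
    · obtain ⟨x, y, n, hA⟩ := adm_four (by omega) hδ hδ1 h4
      refine le_trans (hd Q δ T x y n _ hQ hδ hT hA) ?_
      rw [← he]
      exact hup
    · have h5 := count_le N Q (fun q χ => Far (L q χ) δ T)
      have h6 : 2 ≤ ex2 m δ := by
        rw [he, le_div_iff₀ (by linarith)]
        nlinarith
      have h7 : (Q : ℝ) ^ 2 ≤ (Q : ℝ) ^ (ex2 m δ) := by
        rw [← Real.rpow_natCast (Q : ℝ) 2]
        exact Real.rpow_le_rpow_of_exponent_le hq1 (by push_cast; exact h6)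
      have h8 : (1 : ℝ) ≤ (1 + T) ^ (2 * m + 1) := one_le_pow₀ (by linarith)
      have h9 : (1 : ℝ) ≤ (1 + Real.log Q) ^ B := Real.one_le_rpow (by linarith) hB
      have h10 : (1 : ℝ) ≤ (C + 1) * (1 + T) ^ (2 * m + 1) * (1 + Real.log Q) ^ B := by
        have : (1 : ℝ) ≤ (C + 1) * (1 + T) ^ (2 * m + 1) := one_le_mul_of_one_le_of_one_le
          (by linarith) h8
        exact one_le_mul_of_one_le_of_one_le this h9
      have h11 : (0 : ℝ) ≤ (Q : ℝ) ^ (ex2 m δ) := by positivity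
      nlinarith

/-- one modulus -/
theorem dens1 {m N : ℕ} (hm : 2 ≤ m) {L : (q : ℕ) → DirichletCharacter ℂ q → ℂ → ℂ}
    (h : Fm m N L) : ∃ C B : ℝ, 0 ≤ C ∧ 0 ≤ B ∧ ∀ (q : ℕ) (δ T : ℝ), 2 ≤ q → Nat.Coprime q N →
      0 ≤ δ → δ ≤ 1 / 2 → 0 ≤ T →
      (countq q (fun χ => Far (L q χ) δ T) : ℝ) ≤
        C * (1 + T) ^ (2 * m + 1) * (1 + Real.log q) ^ B * (q : ℝ) ^ (ex1 m δ) := by
  have hm0 : (0 : ℝ) ≤ m := Nat.cast_nonneg m
  obtain ⟨C, B, hC, hB, hd⟩ := dens_one h (D := m + 3) (by positivity)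
  refine ⟨C + 1, B, by positivity, hB, fun q δ T hq hqN hδ hδ1 hT => ?_⟩
  have hq1 : (1 : ℝ) ≤ q := by exact_mod_cast (by omega : 1 ≤ q)
  have hl := Real.log_nonneg hq1
  have hq0 : (0 : ℝ) < q := by linarith
  have hpos : 0 ≤ (1 + T) ^ (2 * m + 1) * (1 + Real.log q) ^ B * (q : ℝ) ^ (ex1 m δ) := by
    positivity
  have hup : C * (1 + T) ^ (2 * m + 1) * (1 + Real.log q) ^ B * (q : ℝ) ^ (ex1 m δ) ≤
      (C + 1) * (1 + T) ^ (2 * m + 1) * (1 + Real.log q) ^ B * (q : ℝ) ^ (ex1 m δ) := by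
    nlinarith
  have he : ex1 m δ = (1 - 2 * δ) * (5 + 4 * m * δ) / (5 - 2 * δ) := rfl
  rcases le_or_gt 0 (2 - (m : ℝ) + 2 * m * δ) with h4 | h4
  · obtain ⟨x, y, n, hA⟩ := adm_one hm hδ hδ1 h4
    refine le_trans (hd q δ T x y n _ hq hqN hδ hT hA) ?_
    rw [← he]
    exact hup
  · have h5 := countq_le (by omega : 1 ≤ q) (fun χ => Far (L q χ) δ T)
    have h6 : 1 ≤ ex1 m δ := by
      rw [he, le_div_iff₀ (by linarith)]
      nlinarith
    have h7 : (q : ℝ) ^ 1 ≤ (q : ℝ) ^ (ex1 m δ) := by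
      rw [← Real.rpow_natCast (q : ℝ) 1]
      exact Real.rpow_le_rpow_of_exponent_le hq1 (by push_cast; exact h6)
    have h8 : (1 : ℝ) ≤ (1 + T) ^ (2 * m + 1) := one_le_pow₀ (by linarith)
    have h9 : (1 : ℝ) ≤ (1 + Real.log q) ^ B := Real.one_le_rpow (by linarith) hB
    have h10 : (1 : ℝ) ≤ (C + 1) * (1 + T) ^ (2 * m + 1) * (1 + Real.log q) ^ B := by
      have : (1 : ℝ) ≤ (C + 1) * (1 + T) ^ (2 * m + 1) := one_le_mul_of_one_le_of_one_le
        (by linarith) h8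
      exact one_le_mul_of_one_le_of_one_le this h9
    have h11 : (0 : ℝ) ≤ (q : ℝ) ^ (ex1 m δ) := by positivity
    nlinarith

end Pool.Agent.R399.TW
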