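import Pool.Agent.R399.TW.Gm

/-!
# Density estimates with parameters
-/

set_option autoImplicit false

namespace Pool.Agent.R399.TW

open Finset Filter Topology Complex MeasureTheory
open scoped ComplexConjugate

lemma ceil_bounds {q x : ℝ} (hq : 1 ≤ q) (hx : 0 ≤ x) : 1 ≤ ⌈q ^ x⌉₊ ∧
    q ^ x ≤ (⌈q ^ x⌉₊ : ℝ) ∧ (⌈q ^ x⌉₊ : ℝ) ≤ 2 * q ^ x := by
  have h1 : 1 ≤ q ^ x := Real.one_le_rpow hq hx
  have h2 := Nat.le_ceil (q ^ x)
  have h3 := Nat.ceil_lt_add_one (show 0 ≤ q ^ x by linarith)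
  refine ⟨?_, h2, by linarith⟩
  have : (1 : ℝ) ≤ (⌈q ^ x⌉₊ : ℝ) := h1.trans h2
  exact_mod_cast this

/-- the parameters -/
structure Adm (m p : ℕ) (D δ x y n E : ℝ) : Prop where
  x0 : 0 ≤ x
  xD : x ≤ D
  y0 : 0 ≤ y
  yD : y ≤ D
  n0 : 0 ≤ n
  nD : n ≤ D
  h1 : p - 2 * x * δ ≤ E
  h2 : y * (1 - 2 * δ) ≤ E
  h3 : p - 2 * y * δ ≤ E
  h4 : n + x - 2 * y * δ ≤ E
  h5 : 2 * m - 2 * y - 2 * y * δ + 4 * x - n ≤ E
  h6 : 2 * m - 2 * y - 2 * y * δ + 4 * x - n + (p - n) ≤ E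

lemma bd_le {m p : ℕ} {D : ℝ} {Q : ℕ} {δ x y n E l : ℝ} (hQ : 1 ≤ Q) (hl : l = 1 + Real.log Q)
    (hδl : 4 ≤ δ * l) (hδ : δ ≤ 1 / 2) (h : Adm m p D δ x y n E) :
    bd m ((Q : ℝ) ^ p) Q δ ((Q : ℝ) ^ y) (1 / l) (1 / (2 * l)) ⌈(Q : ℝ) ^ x⌉₊ ⌈(Q : ℝ) ^ n⌉₊ ≤
      200 * Real.exp (6 * D) * (2 + D) ^ 2 * l ^ 2 * (Q : ℝ) ^ E := by
  have hq1 : (1 : ℝ) ≤ Q := by exact_mod_cast hQ
  have hq0 : (0 : ℝ) < Q := by linarith
  set q : ℝ := (Q : ℝ) with hq
  have hlq : 0 ≤ Real.log q := Real.log_nonneg hq1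
  have hl1 : 1 ≤ l := by rw [hl]; linarith
  have hl0 : 0 < l := by linarith
  have hδ0 : 0 < δ := by
    by_contra hcon
    have : δ * l ≤ 0 := mul_nonpos_of_nonpos_of_nonneg (not_lt.1 hcon) hl0.le
    linarith
  have hD : 0 ≤ D := h.x0.trans h.xD
  obtain ⟨X1, X2, X3⟩ := ceil_bounds hq1 h.x0
  obtain ⟨M1, M2, M3⟩ := ceil_bounds hq1 h.n0
  set X := ⌈q ^ x⌉₊ with hX
  set M := ⌈q ^ n⌉₊ with hM
  have X0 : (0 : ℝ) < X := by exact_mod_cast X1
  have M0 : (0 : ℝ) < M := by exact_mod_cast M1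
  -- small exponents
  have hsm : ∀ a : ℝ, 0 ≤ a → q ^ (a / l) ≤ Real.exp a := by
    intro a ha
    rw [Real.rpow_def_of_pos hq0]
    apply Real.exp_le_exp.2
    rw [mul_div_assoc', div_le_iff₀ hl0]
    have : Real.log q ≤ l := by rw [hl]; linarith
    nlinarith
  have hE0 : 0 < q ^ E := by positivity
  have hr : 1 / l ≤ δ / 4 := by
    rw [div_le_iff₀ hl0]
    linarith
  have hexpD : ∀ a : ℝ, a ≤ 6 * D → Real.exp a ≤ Real.exp (6 * D) := fun a ha =>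
    Real.exp_le_exp.2 ha
  -- the first term
  have t1a : q ^ p * (X : ℝ) ^ (4 * (1 / l) - 2 * δ) ≤ Real.exp (4 * D) * q ^ E := by
    have e1 : (X : ℝ) ^ (4 * (1 / l) - 2 * δ) ≤ (q ^ x) ^ (4 * (1 / l) - 2 * δ) :=
      Real.rpow_le_rpow_of_nonpos (by positivity) X2 (by linarith)
    have e2 : (q ^ x) ^ (4 * (1 / l) - 2 * δ) = q ^ ((4 * x) / l) * q ^ (-(2 * x * δ)) := by
      rw [← Real.rpow_mul hq0.le, ← Real.rpow_add hq0]
      congr 1
      ring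
    have e3 : q ^ p * q ^ (-(2 * x * δ)) ≤ q ^ E := by
      rw [← Real.rpow_natCast q p, ← Real.rpow_add hq0]
      exact Real.rpow_le_rpow_of_exponent_le hq1 (by push_cast; linarith [h.h1])
    have e4 := hsm (4 * x) (by linarith [h.x0])
    have e5 : Real.exp (4 * x) ≤ Real.exp (4 * D) := Real.exp_le_exp.2 (by linarith [h.xD])
    calc q ^ p * (X : ℝ) ^ (4 * (1 / l) - 2 * δ)
        ≤ q ^ p * (q ^ ((4 * x) / l) * q ^ (-(2 * x * δ))) := by
          rw [← e2]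
          gcongr
      _ = q ^ ((4 * x) / l) * (q ^ p * q ^ (-(2 * x * δ))) := by ring
      _ ≤ Real.exp (4 * D) * q ^ E := by
          gcongr
          exact e4.trans e5
  have t1b : (q ^ y) ^ (1 + 4 * (1 / l) - 2 * δ) ≤ Real.exp (4 * D) * q ^ E := by
    have e2 : (q ^ y) ^ (1 + 4 * (1 / l) - 2 * δ) = q ^ ((4 * y) / l) * q ^ (y * (1 - 2 * δ)) := by
      rw [← Real.rpow_mul hq0.le, ← Real.rpow_add hq0]
      congr 1
      ring
    have e3 : q ^ (y * (1 - 2 * δ)) ≤ q ^ E := Real.rpow_le_rpow_of_exponent_le hq1 h.h2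
    have e4 := hsm (4 * y) (by linarith [h.y0])
    have e5 : Real.exp (4 * y) ≤ Real.exp (4 * D) := Real.exp_le_exp.2 (by linarith [h.yD])
    rw [e2]
    have := e4.trans e5
    gcongr
  have t1c : (1 + Real.log (q ^ y)) ^ 2 * (q ^ y) ^ (1 / (2 * l)) ≤
      ((2 + D) * l) ^ 2 * Real.exp (D / 2) := by
    have e1 : Real.log (q ^ y) = y * Real.log q := Real.log_rpow hq0 y
    have e2 : 1 + y * Real.log q ≤ (2 + D) * l := by
      rw [hl]
      nlinarith [h.yD, h.y0, mul_nonneg hD hlq]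
    have e3 : 0 ≤ y * Real.log q := mul_nonneg h.y0 hlq
    have e4 : (q ^ y) ^ (1 / (2 * l)) = q ^ ((y / 2) / l) := by
      rw [← Real.rpow_mul hq0.le]
      congr 1
      field_simp
    have e5 := hsm (y / 2) (by linarith [h.y0])
    have e6 : Real.exp (y / 2) ≤ Real.exp (D / 2) := Real.exp_le_exp.2 (by linarith [h.yD])
    have e7 := e5.trans e6
    rw [e1, e4]
    gcongr
  have t1 : (q ^ p * (X : ℝ) ^ (4 * (1 / l) - 2 * δ) + (q ^ y) ^ (1 + 4 * (1 / l) - 2 * δ)) *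
      ((1 + Real.log (q ^ y)) ^ 2 * (q ^ y) ^ (1 / (2 * l))) ≤
      2 * Real.exp (6 * D) * (2 + D) ^ 2 * l ^ 2 * q ^ E := by
    have e1 : 0 ≤ (1 + Real.log (q ^ y)) ^ 2 * (q ^ y) ^ (1 / (2 * l)) := by positivity
    calc _ ≤ (Real.exp (4 * D) * q ^ E + Real.exp (4 * D) * q ^ E) *
          (((2 + D) * l) ^ 2 * Real.exp (D / 2)) := by gcongr
      _ = 2 * (Real.exp (4 * D) * Real.exp (D / 2)) * (2 + D) ^ 2 * l ^ 2 * q ^ E := by ring
      _ ≤ _ := by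
        rw [← Real.exp_add]
        have := hexpD (4 * D + D / 2) (by linarith)
        gcongr
  -- the second term
  have hMX : ((M * X : ℕ) : ℝ) ≤ 4 * q ^ (n + x) := by
    push_cast
    rw [Real.rpow_add hq0]
    calc (M : ℝ) * X ≤ (2 * q ^ n) * (2 * q ^ x) := by gcongr
      _ = _ := by ring
  have hMX0 : (0 : ℝ) ≤ ((M * X : ℕ) : ℝ) := by positivity
  have t2a : ((M * X : ℕ) : ℝ) ^ (1 / (2 * l)) ≤ 4 * Real.exp D := by
    have e1 : ((M * X : ℕ) : ℝ) ^ (1 / (2 * l)) ≤ (4 * q ^ (n + x)) ^ (1 / (2 * l)) :=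
      Real.rpow_le_rpow hMX0 hMX (by positivity)
    have e2 : (4 * q ^ (n + x)) ^ (1 / (2 * l)) = 4 ^ (1 / (2 * l)) * q ^ (((n + x) / 2) / l) := by
      rw [Real.mul_rpow (by norm_num) (by positivity), ← Real.rpow_mul hq0.le]
      congr 2
      field_simp
    have e3 : (4 : ℝ) ^ (1 / (2 * l)) ≤ 4 := by
      have : (4 : ℝ) ^ (1 / (2 * l)) ≤ 4 ^ (1 : ℝ) := by
        refine Real.rpow_le_rpow_of_exponent_le (by norm_num) ?_
        rw [div_le_one (by positivity)]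
        linarith
      simpa using this
    have e5 := hsm ((n + x) / 2) (by linarith [h.n0, h.x0])
    have e6 : Real.exp ((n + x) / 2) ≤ Real.exp D := Real.exp_le_exp.2 (by linarith [h.nD, h.xD])
    have e7 := e5.trans e6
    rw [e2] at e1
    refine e1.trans ?_
    gcongr
  have t2b : (q ^ y) ^ (-2 * δ) * (q ^ p + ((M * X : ℕ) : ℝ)) ≤ 5 * q ^ E := by
    have e1 : (q ^ y) ^ (-2 * δ) = q ^ (-(2 * y * δ)) := by
      rw [← Real.rpow_mul hq0.le]
      congr 1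
      ring
    have e2 : q ^ (-(2 * y * δ)) * q ^ p ≤ q ^ E := by
      rw [← Real.rpow_natCast q p, ← Real.rpow_add hq0]
      exact Real.rpow_le_rpow_of_exponent_le hq1 (by push_cast; linarith [h.h3])
    have e3 : q ^ (-(2 * y * δ)) * q ^ (n + x) ≤ q ^ E := by
      rw [← Real.rpow_add hq0]
      exact Real.rpow_le_rpow_of_exponent_le hq1 (by linarith [h.h4])
    rw [e1]
    have e4 : 0 ≤ q ^ (-(2 * y * δ)) := by positivity
    calc q ^ (-(2 * y * δ)) * (q ^ p + ((M * X : ℕ) : ℝ))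
        ≤ q ^ (-(2 * y * δ)) * (q ^ p + 4 * q ^ (n + x)) := by gcongr
      _ = q ^ (-(2 * y * δ)) * q ^ p + 4 * (q ^ (-(2 * y * δ)) * q ^ (n + x)) := by ring
      _ ≤ _ := by linarith
  have t2 : (q ^ y) ^ (-2 * δ) / δ ^ 2 * ((q ^ p + ((M * X : ℕ) : ℝ)) *
      ((M * X : ℕ) : ℝ) ^ (1 / (2 * l))) ≤
      20 * Real.exp (6 * D) * (2 + D) ^ 2 * l ^ 2 * q ^ E := by
    have e1 : 1 / δ ^ 2 ≤ l ^ 2 := by
      rw [div_le_iff₀ (by positivity), ← mul_pow]
      have : 1 ≤ l * δ := by linarith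
      exact one_le_pow₀ this
    have e2 : 0 ≤ ((M * X : ℕ) : ℝ) ^ (1 / (2 * l)) := by positivity
    have e3 : 1 ≤ (2 + D) ^ 2 := one_le_pow₀ (by linarith)
    calc (q ^ y) ^ (-2 * δ) / δ ^ 2 * ((q ^ p + ((M * X : ℕ) : ℝ)) *
          ((M * X : ℕ) : ℝ) ^ (1 / (2 * l)))
        = (1 / δ ^ 2) * ((q ^ y) ^ (-2 * δ) * (q ^ p + ((M * X : ℕ) : ℝ))) *
          ((M * X : ℕ) : ℝ) ^ (1 / (2 * l)) := by ring
      _ ≤ l ^ 2 * (5 * q ^ E) * (4 * Real.exp D) := by gcongr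
      _ = 20 * Real.exp D * 1 * l ^ 2 * q ^ E := by ring
      _ ≤ 20 * Real.exp (6 * D) * (2 + D) ^ 2 * l ^ 2 * q ^ E := by
        have := hexpD D (by linarith)
        gcongr
  -- the third term
  have t3 : q ^ (2 * m) * (q ^ y) ^ (-2 - 2 * δ) * ((X : ℝ) ^ 4 * (1 + q ^ p / M) *
      ((1 + Real.log M) ^ 2 * (M : ℝ) ^ (1 / (2 * l) - 1))) ≤
      128 * Real.exp (6 * D) * (2 + D) ^ 2 * l ^ 2 * q ^ E := by
    have e1 : (q ^ y) ^ (-2 - 2 * δ) = q ^ (-2 * y - 2 * y * δ) := by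
      rw [← Real.rpow_mul hq0.le]
      congr 1
      ring
    have e2 : (X : ℝ) ^ 4 ≤ 16 * q ^ (4 * x) := by
      calc (X : ℝ) ^ 4 ≤ (2 * q ^ x) ^ 4 := by gcongr
        _ = 16 * q ^ (4 * x) := by
          rw [mul_pow, ← Real.rpow_natCast (q ^ x), ← Real.rpow_mul hq0.le]
          norm_num
          congr 1
          ring
    have e3 : q ^ p / M ≤ q ^ (p - n) := by
      rw [div_le_iff₀ M0]
      calc q ^ p = q ^ (p - n) * q ^ n := by
            rw [← Real.rpow_add hq0, ← Real.rpow_natCast]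
            congr 1
            push_cast
            ring
        _ ≤ q ^ (p - n) * M := by gcongr
    have e4 : 1 + Real.log M ≤ (2 + D) * l := by
      have h5 : Real.log M ≤ Real.log (2 * q ^ n) := Real.log_le_log M0 M3
      rw [Real.log_mul (by norm_num) (by positivity), Real.log_rpow hq0] at h5
      have h6 := Real.log_two_lt_d9
      rw [hl]
      nlinarith [h.nD, h.n0, mul_nonneg hD hlq, mul_nonneg h.n0 hlq]
    have e4' : 0 ≤ 1 + Real.log M := by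
      have := Real.log_nonneg (show (1 : ℝ) ≤ M by exact_mod_cast M1)
      linarith
    have e5 : (M : ℝ) ^ (1 / (2 * l) - 1) ≤ Real.exp (D / 2) * q ^ (-n) := by
      have h7 : 1 / (2 * l) - 1 ≤ 0 := by
        have : 1 / (2 * l) ≤ 1 := by
          rw [div_le_one (by positivity)]
          linarith
        linarith
      calc (M : ℝ) ^ (1 / (2 * l) - 1) ≤ (q ^ n) ^ (1 / (2 * l) - 1) :=
            Real.rpow_le_rpow_of_nonpos (by positivity) M2 h7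
        _ = q ^ ((n / 2) / l) * q ^ (-n) := by
            rw [← Real.rpow_mul hq0.le, ← Real.rpow_add hq0]
            congr 1
            field_simp
            ring
        _ ≤ Real.exp (D / 2) * q ^ (-n) := by
            have h8 := hsm (n / 2) (by linarith [h.n0])
            have h9 : Real.exp (n / 2) ≤ Real.exp (D / 2) :=
              Real.exp_le_exp.2 (by linarith [h.nD])
            have := h8.trans h9
            gcongr
    have e6 : q ^ (2 * m) * q ^ (-2 * y - 2 * y * δ) * (q ^ (4 * x) * (1 + q ^ (p - n)) *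
        q ^ (-n)) ≤ 2 * q ^ E := by
      have e7 : q ^ (2 * m) * q ^ (-2 * y - 2 * y * δ) * (q ^ (4 * x) * (1 + q ^ (p - n)) *
        q ^ (-n)) = q ^ (2 * (m : ℝ) - 2 * y - 2 * y * δ + 4 * x - n) +
          q ^ (2 * (m : ℝ) - 2 * y - 2 * y * δ + 4 * x - n + (p - n)) := by
        have e8 : q ^ (2 * m) = q ^ (2 * (m : ℝ)) := by
          rw [← Real.rpow_natCast]
          push_cast
          rfl
        have e9 : q ^ (2 * (m : ℝ) - 2 * y - 2 * y * δ + 4 * x - n) =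
            q ^ (2 * (m : ℝ)) * q ^ (-2 * y - 2 * y * δ) * q ^ (4 * x) * q ^ (-n) := by
          rw [← Real.rpow_add hq0, ← Real.rpow_add hq0, ← Real.rpow_add hq0]
          congr 1
          ring
        rw [Real.rpow_add hq0 _ (p - n), e9, e8]
        ring
      rw [e7]
      have h7 := Real.rpow_le_rpow_of_exponent_le hq1 h.h5
      have h8 := Real.rpow_le_rpow_of_exponent_le hq1 h.h6
      linarith
    rw [e1]
    have hn0 : 0 ≤ 1 + q ^ p / M := by positivity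
    have a1 : 1 + q ^ p / M ≤ 1 + q ^ (p - n) := by linarith
    have a2 : (1 + Real.log M) ^ 2 ≤ ((2 + D) * l) ^ 2 := by gcongr
    calc q ^ (2 * m) * q ^ (-2 * y - 2 * y * δ) * ((X : ℝ) ^ 4 * (1 + q ^ p / M) *
          ((1 + Real.log M) ^ 2 * (M : ℝ) ^ (1 / (2 * l) - 1)))
        ≤ q ^ (2 * m) * q ^ (-2 * y - 2 * y * δ) * ((16 * q ^ (4 * x)) * (1 + q ^ (p - n)) *
          (((2 + D) * l) ^ 2 * (Real.exp (D / 2) * q ^ (-n)))) := by gcongr
      _ = 16 * Real.exp (D / 2) * (2 + D) ^ 2 * l ^ 2 * (q ^ (2 * m) *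
          q ^ (-2 * y - 2 * y * δ) * (q ^ (4 * x) * (1 + q ^ (p - n)) * q ^ (-n))) := by ring
      _ ≤ 16 * Real.exp (6 * D) * (2 + D) ^ 2 * l ^ 2 * (2 * q ^ E) := by
          have := hexpD (D / 2) (by linarith)
          gcongr
      _ = 32 * (Real.exp (6 * D) * (2 + D) ^ 2 * l ^ 2 * q ^ E) := by ring
      _ ≤ 128 * (Real.exp (6 * D) * (2 + D) ^ 2 * l ^ 2 * q ^ E) := by
          gcongr
          norm_num
      _ = _ := by ring
  unfold bd
  refine (add_le_add (add_le_add t1 t2) t3).trans ?_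
  have h0 : 0 ≤ Real.exp (6 * D) * (2 + D) ^ 2 * l ^ 2 * q ^ E := by positivity
  nlinarith

/-- **density estimates** -/
theorem dens {m N : ℕ} {L : (q : ℕ) → DirichletCharacter ℂ q → ℂ → ℂ} (h : Fm m N L) {D : ℝ}
    (hD : 0 ≤ D) : ∃ C B : ℝ, 0 ≤ C ∧ 0 ≤ B ∧ ∀ (p Q : ℕ) (δ T x y n E : ℝ)
      (J : Finset (Σ q : ℕ, DirichletCharacter ℂ q)), 1 ≤ Q → 0 ≤ δ → 0 ≤ T →
      Adm m p D δ x y n E → LSv J (fun i => chs i.2) 6 ((Q : ℝ) ^ p) 0 →
      (J.card : ℝ) ≤ (Q : ℝ) ^ p →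
      (∀ i ∈ J, (2 ≤ i.1 ∧ i.1 ≤ Q ∧ Nat.Coprime i.1 N ∧ i.2.IsPrimitive) ∧
        Far (L i.1 i.2) δ T) →
      (J.card : ℝ) ≤ C * (1 + T) ^ (2 * m + 1) * (1 + Real.log Q) ^ B * (Q : ℝ) ^ E := by
  obtain ⟨K, A, hK, hA, hgen⟩ := general h
  set C₁ : ℝ := 200 * Real.exp (6 * D) * (2 + D) ^ 2 with hC₁
  have hC₁0 : 0 ≤ C₁ := by positivity
  refine ⟨Real.exp (8 * D) + K * 2 ^ A * C₁, A + 4, by positivity, by linarith, ?_⟩
  intro p Q δ T x y n E J hQ hδ0 hT hAdm hls hcard hJ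
  have hq1 : (1 : ℝ) ≤ Q := by exact_mod_cast hQ
  have hq0 : (0 : ℝ) < Q := by linarith
  have hlq : 0 ≤ Real.log Q := Real.log_nonneg hq1
  set l : ℝ := 1 + Real.log Q with hl
  have hl1 : 1 ≤ l := by rw [hl]; linarith
  have hl0 : 0 < l := by linarith
  have hlB : 1 ≤ l ^ (A + 4) := Real.one_le_rpow hl1 (by linarith)
  have hTm : 1 ≤ (1 + T) ^ (2 * m + 1) := one_le_pow₀ (by linarith)
  have hqE : 0 < (Q : ℝ) ^ E := by positivity
  have hK2 : 0 ≤ K * 2 ^ A * C₁ := by positivity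
  rcases lt_or_ge (δ * l) 4 with h1 | h1
  · -- trivial bound
    refine hcard.trans ?_
    have h2 : (Q : ℝ) ^ p ≤ Real.exp (8 * D) * (Q : ℝ) ^ E := by
      have h3 : (Q : ℝ) ^ p = (Q : ℝ) ^ ((p : ℝ) - E) * (Q : ℝ) ^ E := by
        rw [← Real.rpow_add hq0, ← Real.rpow_natCast]
        congr 1
        ring
      rw [h3]
      refine mul_le_mul_of_nonneg_right ?_ hqE.le
      rw [Real.rpow_def_of_pos hq0]
      apply Real.exp_le_exp.2
      have h4 : (p : ℝ) - E ≤ 2 * D * δ := by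
        have := hAdm.h1
        have h5 : 2 * x * δ ≤ 2 * D * δ := by
          have := hAdm.xD
          gcongr
        linarith
      have h5 : Real.log Q ≤ l := by rw [hl]; linarith
      calc Real.log Q * ((p : ℝ) - E) ≤ Real.log Q * (2 * D * δ) := by gcongr
        _ ≤ l * (2 * D * δ) := by gcongr
        _ = 2 * D * (δ * l) := by ring
        _ ≤ 2 * D * 4 := by gcongr
        _ = _ := by ring
    calc (Q : ℝ) ^ p ≤ Real.exp (8 * D) * (Q : ℝ) ^ E := h2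
      _ = Real.exp (8 * D) * 1 * 1 * (Q : ℝ) ^ E := by ring
      _ ≤ (Real.exp (8 * D) + K * 2 ^ A * C₁) * (1 + T) ^ (2 * m + 1) * l ^ (A + 4) *
          (Q : ℝ) ^ E := by
        gcongr
        linarith
  · have hδp : 0 < δ := by
      by_contra hcon
      have : δ * l ≤ 0 := mul_nonpos_of_nonpos_of_nonneg (not_lt.1 hcon) hl0.le
      linarith
    rcases lt_or_ge (1 / 2) δ with h2 | h2
    · -- no zeros
      have h3 : J = ∅ := by
        obtain ⟨c, R₀, V, C, hR₀, hV, hL, hC, hmem⟩ := h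
        rw [Finset.eq_empty_iff_forall_notMem]
        intro i hi
        obtain ⟨⟨i1, i2, i3, i4⟩, s, s0, -, s2, s3⟩ := hJ i hi
        obtain ⟨F, hF, z1, -⟩ := hmem i.1 i.2 i1 i3 i4
        rcases le_abs.1 s2 with h5 | h5
        · exact hF.ne hL (by linarith) (z1 s (by linarith) s3)
        · linarith
      rw [h3, Finset.card_empty, Nat.cast_zero]
      positivity
    · -- main case
      obtain ⟨X1, -, -⟩ := ceil_bounds hq1 hAdm.x0
      obtain ⟨M1, -, -⟩ := ceil_bounds hq1 hAdm.n0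
      have hr : 1 / l ≤ δ / 4 := by
        rw [div_le_iff₀ hl0]
        linarith
      have key := hgen Q ((Q : ℝ) ^ p) δ ((Q : ℝ) ^ y) (1 / l) (1 / (2 * l)) T ⌈(Q : ℝ) ^ x⌉₊
        ⌈(Q : ℝ) ^ n⌉₊ J hQ
        (by positivity) (by linarith) h2 (by positivity)
        (by
          rw [div_le_div_iff₀ (by positivity) (by norm_num)]
          linarith) X1 M1
        (Real.one_le_rpow hq1 hAdm.y0) hT hls hJ
      have hb := bd_le (l := l) hQ hl h1 h2 hAdm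
      refine key.trans ?_
      have e1 : (1 / (2 * l)) ^ (-A) = 2 ^ A * l ^ A := by
        rw [one_div, Real.inv_rpow (by positivity), ← Real.rpow_neg (by positivity), neg_neg,
          Real.mul_rpow (by norm_num) hl0.le]
      have e2 : l ^ (A + 4) = l ^ A * (l ^ 2 * l ^ 2) := by
        rw [Real.rpow_add hl0]
        congr 1
        rw [show (4 : ℝ) = ((4 : ℕ) : ℝ) by norm_num, Real.rpow_natCast]
        ring
      have e3 : K * (1 + T) ^ (2 * m + 1) / (1 / l) ^ 2 * (1 / (2 * l)) ^ (-A) =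
          K * 2 ^ A * ((1 + T) ^ (2 * m + 1) * (l ^ A * l ^ 2)) := by
        rw [e1]
        field_simp
      rw [e3]
      calc K * 2 ^ A * ((1 + T) ^ (2 * m + 1) * (l ^ A * l ^ 2)) *
            bd m ((Q : ℝ) ^ p) Q δ ((Q : ℝ) ^ y) (1 / l) (1 / (2 * l)) ⌈(Q : ℝ) ^ x⌉₊ ⌈(Q : ℝ) ^ n⌉₊
          ≤ K * 2 ^ A * ((1 + T) ^ (2 * m + 1) * (l ^ A * l ^ 2)) *
            (C₁ * l ^ 2 * (Q : ℝ) ^ E) := by
            gcongr
        _ = K * 2 ^ A * C₁ * (1 + T) ^ (2 * m + 1) * l ^ (A + 4) * (Q : ℝ) ^ E := by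
            rw [e2]; ring
        _ ≤ _ := by
            gcongr
            have := Real.exp_pos (8 * D)
            linarith

/-- density estimates for all primitive characters -/
theorem dens_all {m N : ℕ} {L : (q : ℕ) → DirichletCharacter ℂ q → ℂ → ℂ} (h : Fm m N L) {D : ℝ}
    (hD : 0 ≤ D) : ∃ C B : ℝ, 0 ≤ C ∧ 0 ≤ B ∧ ∀ (Q : ℕ) (δ T x y n E : ℝ), 1 ≤ Q → 0 ≤ δ → 0 ≤ T →
      Adm m 2 D δ x y n E →
      (count N Q (fun q χ => Far (L q χ) δ T) : ℝ) ≤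
        C * (1 + T) ^ (2 * m + 1) * (1 + Real.log Q) ^ B * (Q : ℝ) ^ E := by
  classical
  obtain ⟨C, B, hC, hB, hd⟩ := dens h hD
  refine ⟨C, B, hC, hB, fun Q δ T x y n E hQ hδ hT hAdm => ?_⟩
  have hc := count_eq N Q (fun q χ => Far (L q χ) δ T)
  have hle := count_le N Q (fun q χ => Far (L q χ) δ T)
  rw [hc] at hle ⊢
  refine hd 2 Q δ T x y n E _ hQ hδ hT hAdm ((ls_idx N hQ).mono (Finset.filter_subset _ _)) hle
    fun i hi => ?_
  rw [Finset.mem_filter, mem_idx] at hi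
  exact ⟨⟨hi.1.1.1, hi.1.1.2, hi.1.2.1, hi.1.2.2⟩, hi.2⟩

end Pool.Agent.R399.TW
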