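import Pool.Agent.R399.TW.Bnd

/-!
# Bounds for the sums of squares of the coefficients
-/

set_option autoImplicit false

namespace Pool.Agent.R399.TW

open Finset Filter Topology Complex MeasureTheory
open ArithmeticFunction (vonMangoldt)

lemma half_rpow_le {δ : ℝ} (h0 : 0 ≤ δ) (h1 : δ ≤ 1) : (2 : ℝ) ^ (-δ) ≤ 1 - δ / 2 := by
  have h := rpow_one_add_le_one_add_mul_self (s := (-1 / 2 : ℝ)) (by norm_num) h0 h1
  have e : (1 + -1 / 2 : ℝ) = 2⁻¹ := by norm_num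
  rw [e, Real.inv_rpow (by norm_num), ← Real.rpow_neg (by norm_num)] at h
  linarith

/-- Chebyshev's bound for the Dirichlet series of `Λ` -/
lemma vm_sum {σ : ℝ} (h1 : 1 < σ) (h2 : σ ≤ 2) (N : ℕ) :
    ∑ n ∈ Icc 1 N, vonMangoldt n * (n : ℝ) ^ (-σ) ≤ 24 / (σ - 1) := by
  set J := Nat.log 2 N + 1 with hJ
  have hmap : ∀ n ∈ Icc 1 N, Nat.log 2 n ∈ range J := by
    intro n hn
    rw [mem_Icc] at hn
    rw [Finset.mem_range, hJ]
    have := Nat.log_mono_right (b := 2) hn.2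
    omega
  rw [← Finset.sum_fiberwise_of_maps_to hmap]
  set r : ℝ := (2 : ℝ) ^ (-(σ - 1)) with hr
  have hr0 : 0 ≤ r := by positivity
  have hr1 : r ≤ 1 - (σ - 1) / 2 := half_rpow_le (by linarith) (by linarith)
  have hblock : ∀ j ∈ range J, ∑ n ∈ (Icc 1 N).filter (fun n => Nat.log 2 n = j),
      vonMangoldt n * (n : ℝ) ^ (-σ) ≤ 12 * r ^ j := by
    intro j _
    have hle : ∀ n ∈ (Icc 1 N).filter (fun n => Nat.log 2 n = j),
        vonMangoldt n * (n : ℝ) ^ (-σ) ≤ vonMangoldt n * ((2 : ℝ) ^ j) ^ (-σ) := by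
      intro n hn
      rw [Finset.mem_filter, mem_Icc] at hn
      have h3 : 2 ^ j ≤ n := by
        rw [← hn.2]
        exact Nat.pow_log_le_self 2 (by omega)
      have h4 : ((2 : ℝ) ^ j) ≤ n := by exact_mod_cast h3
      exact mul_le_mul_of_nonneg_left
        (Real.rpow_le_rpow_of_nonpos (by positivity) h4 (by linarith)) (vm_nn n)
    refine (Finset.sum_le_sum hle).trans ?_
    rw [← Finset.sum_mul]
    have h5 : ∑ n ∈ (Icc 1 N).filter (fun n => Nat.log 2 n = j), vonMangoldt n ≤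
        Chebyshev.psi ((2 : ℝ) ^ (j + 1)) := by
      unfold Chebyshev.psi
      refine Finset.sum_le_sum_of_subset_of_nonneg ?_ fun n _ _ => vm_nn n
      intro n hn
      rw [Finset.mem_filter, mem_Icc] at hn
      rw [Finset.mem_Ioc]
      refine ⟨by omega, ?_⟩
      have h6 := Nat.lt_pow_succ_log_self (b := 2) (by norm_num) n
      rw [hn.2] at h6
      refine Nat.le_floor ?_
      exact_mod_cast h6.le
    have h6 := Chebyshev.psi_le_const_mul_self (x := (2 : ℝ) ^ (j + 1)) (by positivity)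
    have h7 : Real.log 4 ≤ 2 := by
      have : Real.log 4 = 2 * Real.log 2 := by
        rw [show (4 : ℝ) = 2 ^ 2 by norm_num, Real.log_pow]
        norm_num
      rw [this]
      have := Real.log_two_lt_d9
      linarith
    have h8 : Chebyshev.psi ((2 : ℝ) ^ (j + 1)) ≤ 12 * 2 ^ j := by
      refine h6.trans ?_
      rw [pow_succ]
      have : (0 : ℝ) < 2 ^ j := by positivity
      nlinarith
    have h9 : (2 : ℝ) ^ j * ((2 : ℝ) ^ j) ^ (-σ) = r ^ j := by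
      rw [hr, ← Real.rpow_natCast, ← Real.rpow_mul (by norm_num), ← Real.rpow_add (by norm_num),
        ← Real.rpow_natCast, ← Real.rpow_mul (by norm_num)]
      congr 1
      ring
    calc (∑ n ∈ (Icc 1 N).filter (fun n => Nat.log 2 n = j), vonMangoldt n) *
          ((2 : ℝ) ^ j) ^ (-σ)
        ≤ (12 * 2 ^ j) * ((2 : ℝ) ^ j) ^ (-σ) := by
          gcongr
          exact h5.trans h8
      _ = 12 * r ^ j := by rw [← h9]; ring
  refine (Finset.sum_le_sum hblock).trans ?_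
  rw [← Finset.mul_sum]
  have h10 : ∑ j ∈ range J, r ^ j ≤ (1 - r)⁻¹ :=
    sum_le_hasSum _ (fun j _ => by positivity) (hasSum_geometric_of_lt_one hr0 (by linarith))
  have h11 : (1 - r)⁻¹ ≤ 2 / (σ - 1) := by
    rw [← inv_div]
    exact inv_anti₀ (by linarith) (by linarith)
  calc 12 * ∑ j ∈ range J, r ^ j ≤ 12 * (2 / (σ - 1)) := by
        gcongr
        exact h10.trans h11
    _ = _ := by ring

/-- the bound for the sums of squares -/
def Sqb (c : ℕ → ℂ) (C : ℝ) : Prop := ∀ σ : ℝ, 1 < σ → σ ≤ 2 → ∀ N : ℕ,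
  ∑ n ∈ Icc 2 N, vonMangoldt n * (4 * ‖c n‖ ^ 2) * (n : ℝ) ^ (-σ) ≤ C / (σ - 1)

lemma SB_of {c : ℕ → ℂ} {C : ℝ} (h : Sqb c C) {θ : ℝ} (hθ : 0 < θ) (hθ1 : θ ≤ 1) :
    SB c θ (Real.exp (2 * C) * θ ^ (-C)) := by
  obtain ⟨h1, h2⟩ := sum_bound (κ := fun n => 4 * ‖c n‖ ^ 2) (fun n => by positivity) h hθ hθ1
  intro N
  refine le_trans ?_ h2
  exact h1.sum_le_tsum _ fun n _ => mul_nonneg (ab4_nn c n) (by positivity)

lemma sqb_of_bdd {c : ℕ → ℂ} {d : ℝ} (hd : ∀ n, ‖c n‖ ≤ d) : Sqb c (96 * d ^ 2) := by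
  intro σ h1 h2 N
  have hd0 : 0 ≤ d := (norm_nonneg _).trans (hd 0)
  have h3 := vm_sum h1 h2 N
  calc ∑ n ∈ Icc 2 N, vonMangoldt n * (4 * ‖c n‖ ^ 2) * (n : ℝ) ^ (-σ)
      ≤ ∑ n ∈ Icc 2 N, 4 * d ^ 2 * (vonMangoldt n * (n : ℝ) ^ (-σ)) := by
        refine Finset.sum_le_sum fun n _ => ?_
        have h4 := vm_nn n
        have h5 : ‖c n‖ ^ 2 ≤ d ^ 2 := pow_le_pow_left₀ (norm_nonneg _) (hd n) 2
        calc vonMangoldt n * (4 * ‖c n‖ ^ 2) * (n : ℝ) ^ (-σ)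
            ≤ vonMangoldt n * (4 * d ^ 2) * (n : ℝ) ^ (-σ) := by gcongr
          _ = _ := by ring
    _ = 4 * d ^ 2 * ∑ n ∈ Icc 2 N, vonMangoldt n * (n : ℝ) ^ (-σ) := by rw [← Finset.mul_sum]
    _ ≤ 4 * d ^ 2 * ∑ n ∈ Icc 1 N, vonMangoldt n * (n : ℝ) ^ (-σ) := by
        refine mul_le_mul_of_nonneg_left ?_ (by positivity)
        refine Finset.sum_le_sum_of_subset_of_nonneg ?_ fun n _ _ =>
          mul_nonneg (vm_nn n) (by positivity)
        exact Finset.Icc_subset_Icc_left (by norm_num)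
    _ ≤ 4 * d ^ 2 * (24 / (σ - 1)) := by gcongr
    _ = _ := by ring

lemma sqb_of_lim {c : ℕ → ℂ}
    (hS : ∀ σ : ℝ, 1 < σ → Summable fun n : ℕ => vonMangoldt n * ‖c n‖ ^ 2 * (n : ℝ) ^ (-σ))
    (hL : Tendsto (fun σ : ℝ => (σ - 1) * ∑' n : ℕ, vonMangoldt n * ‖c n‖ ^ 2 * (n : ℝ) ^ (-σ))
      (𝓝[>] 1) (𝓝 1)) : ∃ C : ℝ, Sqb c C := by
  have h1 : ∀ᶠ σ in 𝓝[>] (1 : ℝ), (σ - 1) * ∑' n : ℕ, vonMangoldt n * ‖c n‖ ^ 2 *
      (n : ℝ) ^ (-σ) < 2 := hL.eventually (gt_mem_nhds (by norm_num))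
  obtain ⟨u, hu, hu2⟩ := (mem_nhdsGT_iff_exists_Ioo_subset).1 h1
  have hu1 : (1 : ℝ) < u := hu
  set v : ℝ := (1 + u) / 2 with hv
  have hv1 : 1 < v := by rw [hv]; linarith
  have hvu : v < u := by rw [hv]; linarith
  set B : ℝ := ∑' n : ℕ, vonMangoldt n * ‖c n‖ ^ 2 * (n : ℝ) ^ (-v) with hB
  have hB0 : 0 ≤ B := tsum_nonneg fun n => by
    have := vm_nn n
    positivity
  refine ⟨4 * (2 + B), fun σ h2 h3 N => ?_⟩
  have hσ1 : 0 < σ - 1 := by linarith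
  have hfin : ∀ σ' : ℝ, 1 < σ' → ∑ n ∈ Icc 2 N, vonMangoldt n * (4 * ‖c n‖ ^ 2) *
      (n : ℝ) ^ (-σ') ≤ 4 * ∑' n : ℕ, vonMangoldt n * ‖c n‖ ^ 2 * (n : ℝ) ^ (-σ') := by
    intro σ' h4
    have h5 := (hS σ' h4).sum_le_tsum (Icc 2 N) (fun n _ => by
      have := vm_nn n
      positivity)
    calc ∑ n ∈ Icc 2 N, vonMangoldt n * (4 * ‖c n‖ ^ 2) * (n : ℝ) ^ (-σ')
        = 4 * ∑ n ∈ Icc 2 N, vonMangoldt n * ‖c n‖ ^ 2 * (n : ℝ) ^ (-σ') := by
          rw [Finset.mul_sum]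
          exact Finset.sum_congr rfl fun n _ => by ring
      _ ≤ _ := by gcongr
  rw [le_div_iff₀ hσ1]
  rcases lt_or_ge σ u with h | h
  · have h4 := hu2 ⟨h2, h⟩
    simp only [Set.mem_ofPred_eq] at h4
    have h5 := hfin σ h2
    nlinarith
  · have h5 : ∑ n ∈ Icc 2 N, vonMangoldt n * (4 * ‖c n‖ ^ 2) * (n : ℝ) ^ (-σ) ≤
        ∑ n ∈ Icc 2 N, vonMangoldt n * (4 * ‖c n‖ ^ 2) * (n : ℝ) ^ (-v) := by
      refine Finset.sum_le_sum fun n hn => ?_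
      rw [mem_Icc] at hn
      have h6 : (1 : ℝ) ≤ n := by exact_mod_cast (show 1 ≤ n by omega)
      have := vm_nn n
      exact mul_le_mul_of_nonneg_left (Real.rpow_le_rpow_of_exponent_le h6 (by linarith))
        (by positivity)
    have h6 := hfin v hv1
    have h7 : 0 ≤ ∑ n ∈ Icc 2 N, vonMangoldt n * (4 * ‖c n‖ ^ 2) * (n : ℝ) ^ (-σ) :=
      Finset.sum_nonneg fun n _ => by
        have := vm_nn n
        positivity
    nlinarith

end Pool.Agent.R399.TW
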