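import Pool.Agent.R399.TW.InstC
import Pool.Agent.R399.TW.Vm
import Pool.Agent.Y767.CA.Eu

/-!
# The Dirichlet series of an Euler product; the families
-/

set_option autoImplicit false

namespace Pool.Agent.R399.TW

open Finset Filter Topology Complex MeasureTheory
open ArithmeticFunction (vonMangoldt)
open Pool.Agent.Y767.CA (cf gf euler_exp dir_main summable_lin abscissa_le GGc FEc cj Gd LX
  fe_asym eventually_Gd)
open scoped ComplexConjugate

lemma tw_E {ψ κ : ℕ → ℂ} (h1 : ψ 1 = 1) (hm : ∀ a b, ψ (a * b) = ψ a * ψ b) :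
    tw ψ (E κ) = E (fun k => ψ k * κ k) := funext fun n => E_twist κ ψ h1 hm n

lemma pow_of_mul {ψ : ℕ → ℂ} (h1 : ψ 1 = 1) (hm : ∀ a b, ψ (a * b) = ψ a * ψ b) (n k : ℕ) :
    ψ (n ^ k) = ψ n ^ k := by
  induction k with
  | zero => simp [h1]
  | succ k ih => rw [pow_succ, hm, ih, pow_succ]

/-- the series from a logarithmic derivative -/
lemma ser_of_ld {ψ c : ℕ → ℂ} (hL : Lin c) (h1 : ψ 1 = 1) (hm : ∀ a b, ψ (a * b) = ψ a * ψ b)
    (hle : ∀ n, ‖ψ n‖ ≤ 1) {F : ℂ → ℂ} (hd : ∀ s : ℂ, 1 < s.re → DifferentiableAt ℂ F s)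
    (hne : ∀ s : ℂ, 1 < s.re → F s ≠ 0)
    (hld : ∀ s : ℂ, 1 < s.re → deriv F s / F s =
      - ∑' n : ℕ, ψ n * c n * (vonMangoldt n : ℂ) * (n : ℂ) ^ (-s))
    (hlim : Tendsto (fun x : ℝ => F x) atTop (𝓝 1)) :
    ∀ s : ℂ, 1 < s.re → F s = LSeries (tw ψ (E c)) s := by
  intro s hs
  rw [tw_E h1 hm]
  have hLt : Lin (fun k => ψ k * c k) := hL.twist hle
  refine hLt.eq hd (fun s hs => ?_) hlim hs
  have h2 := hld s hs
  rw [div_eq_iff (hne s hs)] at h2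
  rw [h2]
  have h3 : ∑' n : ℕ, ψ n * c n * (vonMangoldt n : ℂ) * (n : ℂ) ^ (-s) =
      LSeries (fun n => ((vonMangoldt n : ℝ) : ℂ) * (ψ n * c n)) s := by
    unfold LSeries
    refine tsum_congr fun n => ?_
    rcases eq_or_ne n 0 with rfl | hn
    · simp
    · rw [LSeries.term_of_ne_zero hn, Complex.cpow_neg, div_eq_mul_inv]
      ring
  rw [h3]
  ring

theorem ser_of_euler {m : ℕ} {α : ℕ → Fin m → ℂ}
    (hα : ∀ p : ℕ, p.Prime → ∀ j, ‖α p j‖ ≤ Real.sqrt p)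
    (hS : ∀ σ : ℝ, 1 < σ → Summable fun n : ℕ =>
      vonMangoldt n * ‖cf α n‖ ^ 2 * (n : ℝ) ^ (-σ))
    {ψ : ℕ → ℂ} (h1 : ψ 1 = 1) (hm : ∀ a b, ψ (a * b) = ψ a * ψ b) (hle : ∀ n, ‖ψ n‖ ≤ 1)
    {F : ℂ → ℂ} (hF : Differentiable ℂ F)
    (hprod : ∀ s : ℂ, 1 < s.re →
      HasProd (fun p : Nat.Primes => ∏ j, (1 - ψ (p : ℕ) * α p j * ((p : ℕ) : ℂ) ^ (-s))⁻¹) (F s)) :
    ∀ s : ℂ, 1 < s.re → F s = LSeries (tw ψ (E (cf α))) s := by
  have hL : Lin (cf α) := fun σ hσ => summable_lin hS hσ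
  obtain ⟨A, -, -, -, hmain⟩ := dir_main hα hS
  obtain ⟨g1, g2, -, -⟩ := hmain ψ hle (pow_of_mul h1 hm) F hF (fun s hs => hprod s (by linarith))
  refine ser_of_ld hL h1 hm hle (fun s _ => hF s) g1 g2 ?_
  have hab := abscissa_le (c := cf α) hle hS
  have h2 := LSeries.tendsto_atTop (f := gf (cf α) ψ)
    (lt_of_le_of_lt hab (EReal.coe_lt_top 1))
  have h3 : gf (cf α) ψ 1 = 0 := by
    unfold gf
    simp
  rw [h3] at h2
  have h4 := h2.cexp
  rw [Complex.exp_zero] at h4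
  refine h4.congr' ?_
  filter_upwards [eventually_ge_atTop 2] with x hx
  exact (euler_exp hα hle (pow_of_mul h1 hm) hS (s := (x : ℂ)) (by simp; linarith)
    (hprod _ (by simp; linarith))).symm

/-- monotonicity in the conductor -/
lemma Mem.mono {c : ℕ → ℂ} {R R' V : ℝ} {m : ℕ} {ψ : ℕ → ℂ} {F : ℂ → ℂ} (h : Mem c R V m ψ F)
    (hV : 0 ≤ V) (hR : R ≤ R') : Mem c R' V m ψ F where
  mul := h.mul
  one := h.one
  le := h.le
  diff := h.diff
  ser := h.ser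
  gr := h.gr
  fe := by
    obtain ⟨ε, hε⟩ := h.fe
    exact ⟨ε, hε.cont, hε.diff, hε.gr, hε.mid, fun t => (hε.left t).trans
      (mul_le_mul_of_nonneg_right hR (by positivity)), hε.fe⟩

/-- no zeros to the right of one -/
lemma Mem.ne {c : ℕ → ℂ} {R V : ℝ} {m : ℕ} {ψ : ℕ → ℂ} {F : ℂ → ℂ} (h : Mem c R V m ψ F)
    (hL : Lin c) {s : ℂ} (hs : 1 < s.re) : F s ≠ 0 := by
  rw [h.ser s hs, tw_E h.one h.mul]
  intro h0
  have h2 := (hL.twist h.le).inv hs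
  rw [h0, zero_mul] at h2
  exact zero_ne_one h2

/-- a Dirichlet character as a sequence -/
noncomputable def chs {q : ℕ} (χ : DirichletCharacter ℂ q) (n : ℕ) : ℂ := χ (n : ZMod q)

lemma chs_one {q : ℕ} (χ : DirichletCharacter ℂ q) : chs χ 1 = 1 := by unfold chs; simp

lemma chs_mul {q : ℕ} (χ : DirichletCharacter ℂ q) (a b : ℕ) :
    chs χ (a * b) = chs χ a * chs χ b := by unfold chs; simp

lemma chs_le {q : ℕ} (χ : DirichletCharacter ℂ q) (n : ℕ) : ‖chs χ n‖ ≤ 1 :=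
  DirichletCharacter.norm_le_one χ _

/-- a family of twists -/
def Fm (m N : ℕ) (L : (q : ℕ) → DirichletCharacter ℂ q → ℂ → ℂ) : Prop :=
  ∃ (c : ℕ → ℂ) (R₀ V C : ℝ), 0 ≤ R₀ ∧ 0 ≤ V ∧ Lin c ∧ Sqb c C ∧
    ∀ (q : ℕ) (χ : DirichletCharacter ℂ q), 2 ≤ q → Nat.Coprime q N → χ.IsPrimitive →
      ∃ F : ℂ → ℂ, Mem c (R₀ * (q : ℝ) ^ m) V m (chs χ) F ∧
        (∀ s : ℂ, 1 / 2 < s.re → L q χ s = 0 → F s = 0) ∧
        (∀ s : ℂ, 0 < s.re → s.re < 1 / 2 → L q χ s = 0 → F (1 - conj s) = 0)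

/-- reflection of zeros for a function with gamma factors without poles in `Re s > 0` -/
theorem refl_zero {κ : Type} [Fintype κ] {R : ℝ} (hR : 0 < R) {μ : κ → ℂ} (hμ : ∀ i, 0 ≤ (μ i).re)
    {F : ℂ → ℂ} (hF : FEc R μ F) {s : ℂ} (h0 : 0 < s.re) (h1 : s.re < 1 / 2) (hs : F s = 0) :
    F (1 - conj s) = 0 := by
  obtain ⟨w, hw, hfe⟩ := fe_asym hR hF
  have hw0 : w ≠ 0 := fun h => by rw [h, norm_zero] at hw; exact zero_ne_one hw
  have hRc : (R : ℂ) ≠ 0 := ofReal_ne_zero.mpr hR.ne'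
  have hμ' : ∀ i, -1 / 2 < (μ i).re := fun i => by linarith [hμ i]
  have hLX : ∀ z : ℂ, LX w R μ z = w * GGc R (cj μ) (1 - z) * (GGc R μ z)⁻¹ := fun z => by
    unfold LX
    rw [div_eq_mul_inv]
  have hLXd : DifferentiableAt ℂ (LX w R μ) s := by
    have : LX w R μ = fun z => w * GGc R (cj μ) (1 - z) * (GGc R μ z)⁻¹ := funext hLX
    rw [this]
    exact ((GG1_diff hR hμ' h1.le).const_mul w).mul (GGi_diff hR μ s)
  -- the equation at `s`
  have key : F s = LX w R μ s * rfl1 F s := by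
    have hcl : Continuous fun t : ℝ => s + (t : ℂ) * I := by fun_prop
    have t0 : Tendsto (fun t : ℝ => s + (t : ℂ) * I) (𝓝[≠] 0) (𝓝 s) := by
      have := hcl.tendsto 0
      simp only [ofReal_zero, zero_mul, add_zero] at this
      exact this.mono_left nhdsWithin_le_nhds
    have t1 : Tendsto (fun t : ℝ => F (s + (t : ℂ) * I)) (𝓝[≠] 0) (𝓝 (F s)) :=
      (hF.diff.continuous.tendsto s).comp t0
    have t2 : Tendsto (fun t : ℝ => LX w R μ (s + (t : ℂ) * I) * rfl1 F (s + (t : ℂ) * I))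
        (𝓝[≠] 0) (𝓝 (LX w R μ s * rfl1 F s)) :=
      (hLXd.continuousAt.tendsto.comp t0).mul
        (((rfl1_diff hF.diff).continuous.tendsto s).comp t0)
    refine tendsto_nhds_unique t1 (t2.congr' ?_)
    have hfin : ∀ᶠ t in 𝓝[≠] (0 : ℝ), ∀ i, t ≠ -(s.im + (μ i).im) := by
      rw [Filter.eventually_all]
      intro i
      rcases eq_or_ne (-(s.im + (μ i).im)) 0 with h | h
      · rw [h]
        exact self_mem_nhdsWithin
      · exact nhdsWithin_le_nhds (isOpen_ne.mem_nhds (Ne.symm h))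
    filter_upwards [hfin] with t ht
    refine (hfe _ fun i h => ht i ?_).symm
    simp at h
    linarith
  have hne : LX w R μ s ≠ 0 := by
    rw [hLX]
    have hg : ∀ z : ℂ, 0 < z.re → Gammaℝ z ≠ 0 := fun z hz => Gammaℝ_ne_zero_of_re_pos hz
    refine mul_ne_zero (mul_ne_zero hw0 ?_) (inv_ne_zero ?_)
    · unfold GGc
      refine mul_ne_zero (Complex.cpow_ne_zero_iff.2 (Or.inl hRc))
        (Finset.prod_ne_zero_iff.2 fun i _ => hg _ ?_)
      simp only [cj, add_re, sub_re, one_re, conj_re]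
      linarith [hμ i]
    · unfold GGc
      refine mul_ne_zero (Complex.cpow_ne_zero_iff.2 (Or.inl hRc))
        (Finset.prod_ne_zero_iff.2 fun i _ => hg _ ?_)
      rw [add_re]
      linarith [hμ i]
  rw [hs] at key
  have h2 : rfl1 F s = 0 := by
    rcases mul_eq_zero.1 key.symm with h | h
    · exact absurd h hne
    · exact h
  unfold rfl1 at h2
  exact (map_eq_zero _).1 h2

end Pool.Agent.R399.TW
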