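import Pool.Agent.R399.TW.LS1

/-!
# Corollaries
-/

set_option autoImplicit false

namespace Pool.Agent.R399.TW

open Finset Filter Topology Complex MeasureTheory
open scoped ComplexConjugate

lemma count_zero {m N : ℕ} {L : (q : ℕ) → DirichletCharacter ℂ q → ℂ → ℂ} (h : Fm m N L)
    {δ : ℝ} (hδ : 1 / 2 < δ) (Q : ℕ) (T : ℝ) :
    count N Q (fun q χ => Far (L q χ) δ T) = 0 := by
  obtain ⟨c, R₀, V, C, hR₀, hV, hL, hC, hmem⟩ := h
  unfold count
  refine Finset.sum_eq_zero fun q hq => ?_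
  rw [Finset.mem_filter, mem_Icc] at hq
  have h4 : {χ : DirichletCharacter ℂ q | χ.IsPrimitive ∧ Far (L q χ) δ T} = ∅ := by
    ext χ
    simp only [Set.mem_ofPred_eq, Set.mem_empty_iff_false, iff_false, not_and]
    rintro hχ ⟨s, s0, -, s2, s3⟩
    obtain ⟨F, hF, z1, -⟩ := hmem q χ hq.1.1 hq.2 hχ
    rcases le_abs.1 s2 with h5 | h5
    · exact hF.ne hL (by linarith) (z1 s (by linarith) s3)
    · linarith
  rw [h4, Set.ncard_empty]

/-- degree at most three -/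
theorem near_three {m N : ℕ} (hm : m ≤ 3) {L : (q : ℕ) → DirichletCharacter ℂ q → ℂ → ℂ}
    (h : Fm m N L) : ∃ C B : ℝ, 0 ≤ C ∧ 0 ≤ B ∧ ∀ (Q : ℕ) (δ T : ℝ), 1 ≤ Q → 0 ≤ δ → 0 ≤ T →
      (count N Q (fun q χ => Far (L q χ) δ T) : ℝ) ≤
        C * (1 + T) ^ (2 * m + 1) * (1 + Real.log Q) ^ B *
          (Q : ℝ) ^ (2 - (2 / 3 * (4 - (m : ℝ))) * δ ^ 1) := by
  obtain ⟨C, B, hC, hB, hd⟩ := dens_all h (D := 2) (by norm_num)
  refine ⟨C, B, hC, hB, fun Q δ T hQ hδ hT => ?_⟩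
  have hm' : (m : ℝ) ≤ 3 := by exact_mod_cast hm
  have hm0 : (0 : ℝ) ≤ m := Nat.cast_nonneg m
  refine hd Q δ T ((4 - m) / 3) 2 ((2 + m) / 3) _ hQ hδ hT ?_
  constructor
  · linarith
  · linarith
  · norm_num
  · norm_num
  · linarith
  · linarith
  · nlinarith
  · nlinarith
  · nlinarith
  · nlinarith
  · nlinarith
  · nlinarith

/-- degree four -/
theorem near_four {N : ℕ} {L : (q : ℕ) → DirichletCharacter ℂ q → ℂ → ℂ}
    (h : Fm 4 N L) : ∃ C B : ℝ, 0 ≤ C ∧ 0 ≤ B ∧ ∀ (Q : ℕ) (δ T : ℝ), 1 ≤ Q → 0 ≤ δ → 0 ≤ T →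
      (count N Q (fun q χ => Far (L q χ) δ T) : ℝ) ≤
        C * (1 + T) ^ 9 * (1 + Real.log Q) ^ B * (Q : ℝ) ^ (2 - 4 * δ ^ 2) := by
  obtain ⟨C, B, hC, hB, hd⟩ := dens_all h (D := 3) (by norm_num)
  refine ⟨C, B, hC, hB, fun Q δ T hQ hδ hT => ?_⟩
  rcases lt_or_ge (1 / 2) δ with h2 | h2
  · rw [count_zero h h2, Nat.cast_zero]
    have hq1 : (1 : ℝ) ≤ Q := by exact_mod_cast hQ
    have := Real.log_nonneg hq1
    positivity
  · refine hd Q δ T (2 * δ) (2 + 2 * δ) 2 _ hQ hδ hT ?_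
    constructor
    · linarith
    · linarith
    · linarith
    · linarith
    · norm_num
    · norm_num
    · push_cast; nlinarith
    · nlinarith
    · push_cast; nlinarith
    · nlinarith
    · push_cast; nlinarith
    · push_cast; nlinarith

lemma log_pow_le {B ε : ℝ} (hB : 0 ≤ B) (hε : 0 < ε) : ∃ C : ℝ, 0 ≤ C ∧ ∀ q : ℝ, 1 ≤ q →
    (1 + Real.log q) ^ B ≤ C * q ^ ε := by
  set a : ℝ := ε / (B + 1) with ha
  have ha0 : 0 < a := by positivity
  refine ⟨(1 + 1 / a) ^ B, by positivity, fun q hq => ?_⟩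
  have hq0 : 0 < q := by linarith
  have h1 : Real.log q ≤ q ^ a / a := Real.log_le_rpow_div hq0.le ha0
  have h2 : 1 ≤ q ^ a := Real.one_le_rpow hq ha0.le
  have h3 : 1 + Real.log q ≤ (1 + 1 / a) * q ^ a := by
    have : q ^ a / a = 1 / a * q ^ a := by ring
    rw [this] at h1
    nlinarith
  have hl := Real.log_nonneg hq
  calc (1 + Real.log q) ^ B ≤ ((1 + 1 / a) * q ^ a) ^ B :=
        Real.rpow_le_rpow (by linarith) h3 hB
    _ = (1 + 1 / a) ^ B * q ^ (a * B) := by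
        rw [Real.mul_rpow (by positivity) (by positivity), ← Real.rpow_mul hq0.le]
    _ ≤ (1 + 1 / a) ^ B * q ^ ε := by
        refine mul_le_mul_of_nonneg_left (Real.rpow_le_rpow_of_exponent_le hq ?_) (by positivity)
        rw [ha, div_mul_eq_mul_div, div_le_iff₀ (by positivity)]
        nlinarith

/-- any degree -/
theorem any_degree {m N : ℕ} {L : (q : ℕ) → DirichletCharacter ℂ q → ℂ → ℂ}
    (h : Fm m N L) {δ : ℝ} (hδ : 0 < δ) (hδm : 1 / 2 - 2 / (m : ℝ) < δ) :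
    ∃ C κ : ℝ, 0 ≤ C ∧ 0 < κ ∧ ∀ (Q : ℕ) (T : ℝ), 1 ≤ Q → 0 ≤ T →
      (count N Q (fun q χ => Far (L q χ) δ T) : ℝ) ≤
        C * (1 + T) ^ (2 * m + 1) * (Q : ℝ) ^ (2 - κ) := by
  rcases lt_or_ge (1 / 2) δ with h2 | h2
  · refine ⟨0, 1, le_rfl, one_pos, fun Q T hQ hT => ?_⟩
    rw [count_zero h h2]
    simp
  set μ : ℝ := max (m : ℝ) 4 with hμ
  have hμ4 : 4 ≤ μ := le_max_right _ _
  have hμm : (m : ℝ) ≤ μ := le_max_left _ _
  have hm0 : (0 : ℝ) ≤ m := Nat.cast_nonneg m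
  set g : ℝ := 2 - μ * (1 / 2 - δ) with hg
  have hg0 : 0 < g := by
    rw [hg]
    rcases le_total (m : ℝ) 4 with h4 | h4
    · have : μ = 4 := max_eq_right h4
      rw [this]
      linarith
    · have : μ = m := max_eq_left h4
      rw [this]
      have hmp : (0 : ℝ) < m := by linarith
      have h5 : (m : ℝ) * (1 / 2 - δ) < m * (2 / m) := by
        apply mul_lt_mul_of_pos_left _ hmp
        linarith
      rw [mul_div_cancel₀ _ hmp.ne'] at h5
      linarith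
  have hg2 : g ≤ 2 := by
    rw [hg]
    nlinarith
  set κ : ℝ := min (min (g / 4 * δ) (g / 2)) (μ * δ) with hκ
  have hκ0 : 0 < κ := by
    rw [hκ]
    refine lt_min (lt_min (by positivity) (by positivity)) (by positivity)
  have k1 : κ ≤ g / 4 * δ := (min_le_left _ _).trans (min_le_left _ _)
  have k2 : κ ≤ g / 2 := (min_le_left _ _).trans (min_le_right _ _)
  have k3 : κ ≤ μ * δ := min_le_right _ _
  obtain ⟨C, B, hC, hB, hd⟩ := dens_all h (D := μ) (by linarith)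
  obtain ⟨C', hC', hlog⟩ := log_pow_le hB (ε := κ / 2) (by positivity)
  refine ⟨C * C', κ / 2, by positivity, by positivity, fun Q T hQ hT => ?_⟩
  have hq1 : (1 : ℝ) ≤ Q := by exact_mod_cast hQ
  have hq0 : (0 : ℝ) < Q := by linarith
  have hl := Real.log_nonneg hq1
  have key := hd Q δ T (g / 8) (μ / 2) (μ / 2) (2 - κ) hQ hδ.le hT (by
    constructor
    · linarith
    · linarith
    · linarith
    · linarith
    · linarith
    · linarith
    · nlinarith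
    · nlinarith
    · nlinarith
    · nlinarith
    · nlinarith
    · nlinarith)
  refine key.trans ?_
  have h3 := hlog Q hq1
  have e1 : (Q : ℝ) ^ (2 - κ / 2) = (Q : ℝ) ^ (κ / 2) * (Q : ℝ) ^ (2 - κ) := by
    rw [← Real.rpow_add hq0]
    congr 1
    ring
  calc C * (1 + T) ^ (2 * m + 1) * (1 + Real.log Q) ^ B * (Q : ℝ) ^ (2 - κ)
      ≤ C * (1 + T) ^ (2 * m + 1) * (C' * (Q : ℝ) ^ (κ / 2)) * (Q : ℝ) ^ (2 - κ) := by gcongr
    _ = _ := by rw [e1]; ring

lemma countq_zero {m N : ℕ} {L : (q : ℕ) → DirichletCharacter ℂ q → ℂ → ℂ} (h : Fm m N L)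
    {δ : ℝ} (hδ : 1 / 2 < δ) {q : ℕ} (hq : 2 ≤ q) (hqN : Nat.Coprime q N) (T : ℝ) :
    countq q (fun χ => Far (L q χ) δ T) = 0 := by
  obtain ⟨c, R₀, V, C, hR₀, hV, hL, hC, hmem⟩ := h
  unfold countq
  have h4 : {χ : DirichletCharacter ℂ q | χ.IsPrimitive ∧ Far (L q χ) δ T} = ∅ := by
    ext χ
    simp only [Set.mem_ofPred_eq, Set.mem_empty_iff_false, iff_false, not_and]
    rintro hχ ⟨s, s0, -, s2, s3⟩
    obtain ⟨F, hF, z1, -⟩ := hmem q χ hq hqN hχ
    rcases le_abs.1 s2 with h5 | h5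
    · exact hF.ne hL (by linarith) (z1 s (by linarith) s3)
    · linarith
  rw [h4, Set.ncard_empty]

/-- any degree, one modulus -/
theorem any_degree_one {m N : ℕ} {L : (q : ℕ) → DirichletCharacter ℂ q → ℂ → ℂ}
    (h : Fm m N L) {δ : ℝ} (hδ : 0 < δ) (hδm : 1 / 2 - 1 / (m : ℝ) < δ) :
    ∃ C κ : ℝ, 0 ≤ C ∧ 0 < κ ∧ ∀ (q : ℕ) (T : ℝ), 2 ≤ q → Nat.Coprime q N → 0 ≤ T →
      (countq q (fun χ => Far (L q χ) δ T) : ℝ) ≤
        C * (1 + T) ^ (2 * m + 1) * (q : ℝ) ^ (1 - κ) := by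
  rcases lt_or_ge (1 / 2) δ with h2 | h2
  · refine ⟨0, 1, le_rfl, one_pos, fun q T hq hqN hT => ?_⟩
    rw [countq_zero h h2 hq hqN]
    simp
  set μ : ℝ := max (m : ℝ) 2 with hμ
  have hμ4 : 2 ≤ μ := le_max_right _ _
  have hμm : (m : ℝ) ≤ μ := le_max_left _ _
  have hm0 : (0 : ℝ) ≤ m := Nat.cast_nonneg m
  set g : ℝ := 1 - μ * (1 / 2 - δ) with hg
  have hg0 : 0 < g := by
    rw [hg]
    rcases le_total (m : ℝ) 2 with h4 | h4
    · have : μ = 2 := max_eq_right h4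
      rw [this]
      linarith
    · have : μ = m := max_eq_left h4
      rw [this]
      have hmp : (0 : ℝ) < m := by linarith
      have h5 : (m : ℝ) * (1 / 2 - δ) < m * (1 / m) := by
        apply mul_lt_mul_of_pos_left _ hmp
        linarith
      rw [mul_div_cancel₀ _ hmp.ne'] at h5
      linarith
  have hg2 : g ≤ 1 := by
    rw [hg]
    nlinarith
  set κ : ℝ := min (min (g / 4 * δ) (g / 2)) (μ * δ) with hκ
  have hκ0 : 0 < κ := by
    rw [hκ]
    refine lt_min (lt_min (by positivity) (by positivity)) (by positivity)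
  have k1 : κ ≤ g / 4 * δ := (min_le_left _ _).trans (min_le_left _ _)
  have k2 : κ ≤ g / 2 := (min_le_left _ _).trans (min_le_right _ _)
  have k3 : κ ≤ μ * δ := min_le_right _ _
  obtain ⟨C, B, hC, hB, hd⟩ := dens_one h (D := μ) (by linarith)
  obtain ⟨C', hC', hlog⟩ := log_pow_le hB (ε := κ / 2) (by positivity)
  refine ⟨C * C', κ / 2, by positivity, by positivity, fun q T hq hqN hT => ?_⟩
  have hq1 : (1 : ℝ) ≤ q := by exact_mod_cast (by omega : 1 ≤ q)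
  have hq0 : (0 : ℝ) < q := by linarith
  have hl := Real.log_nonneg hq1
  have key := hd q δ T (g / 8) (μ / 2) (μ / 2) (1 - κ) hq hqN hδ.le hT (by
    constructor
    · linarith
    · linarith
    · linarith
    · linarith
    · linarith
    · linarith
    · push_cast; nlinarith
    · nlinarith
    · push_cast; nlinarith
    · nlinarith
    · nlinarith
    · push_cast; nlinarith)
  refine key.trans ?_
  have h3 := hlog q hq1
  have e1 : (q : ℝ) ^ (1 - κ / 2) = (q : ℝ) ^ (κ / 2) * (q : ℝ) ^ (1 - κ) := by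
    rw [← Real.rpow_add hq0]
    congr 1
    ring
  calc C * (1 + T) ^ (2 * m + 1) * (1 + Real.log q) ^ B * (q : ℝ) ^ (1 - κ)
      ≤ C * (1 + T) ^ (2 * m + 1) * (C' * (q : ℝ) ^ (κ / 2)) * (q : ℝ) ^ (1 - κ) := by gcongr
    _ = _ := by rw [e1]; ring

/-- degree two, one modulus -/
theorem near_two_one {N : ℕ} {L : (q : ℕ) → DirichletCharacter ℂ q → ℂ → ℂ}
    (h : Fm 2 N L) : ∃ C B : ℝ, 0 ≤ C ∧ 0 ≤ B ∧ ∀ (q : ℕ) (δ T : ℝ), 2 ≤ q →
      Nat.Coprime q N → 0 ≤ δ → 0 ≤ T →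
      (countq q (fun χ => Far (L q χ) δ T) : ℝ) ≤
        C * (1 + T) ^ 5 * (1 + Real.log q) ^ B * (q : ℝ) ^ (1 - 2 * δ ^ 2) := by
  obtain ⟨C, B, hC, hB, hd⟩ := dens_one h (D := 2) (by norm_num)
  refine ⟨C, B, hC, hB, fun q δ T hq hqN hδ hT => ?_⟩
  rcases lt_or_ge (1 / 2) δ with h2 | h2
  · rw [countq_zero h h2 hq hqN, Nat.cast_zero]
    have hq1 : (1 : ℝ) ≤ q := by exact_mod_cast (by omega : 1 ≤ q)
    have := Real.log_nonneg hq1
    positivity
  · refine hd q δ T δ (1 + δ) 1 _ hq hqN hδ hT ?_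
    constructor
    · linarith
    · linarith
    · linarith
    · linarith
    · norm_num
    · norm_num
    · push_cast; nlinarith
    · nlinarith
    · push_cast; nlinarith
    · nlinarith
    · push_cast; nlinarith
    · push_cast; nlinarith

/-! ### almost all characters -/

/-- `F` has a zero with `K (log (1 + log Q) + log (2 + |Im s|)) < |Re s - 1/2| ^ a log Q` -/
def Off (a : ℕ) (K : ℝ) (Q : ℕ) (F : ℂ → ℂ) : Prop :=
  ∃ s : ℂ, 0 < s.re ∧ F s = 0 ∧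
    K * (Real.log (1 + Real.log Q) + Real.log (2 + |s.im|)) < |s.re - 1 / 2| ^ a * Real.log Q

lemma clog_bound (γ : ℝ) : |γ| ≤ 2 ^ (Nat.clog 2 ⌈|γ|⌉₊) ∧
    (Nat.clog 2 ⌈|γ|⌉₊ : ℝ) / 2 * Real.log 2 ≤ Real.log (2 + |γ|) := by
  set n := ⌈|γ|⌉₊ with hn
  set j := Nat.clog 2 n with hj
  have h0 : 0 ≤ |γ| := abs_nonneg γ
  have hl2 : 0 < Real.log 2 := Real.log_pos (by norm_num)
  constructor
  · have h1 : n ≤ 2 ^ j := Nat.le_pow_clog (by norm_num) n
    have h2 : |γ| ≤ n := Nat.le_ceil _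
    have h3 : (n : ℝ) ≤ 2 ^ j := by exact_mod_cast h1
    linarith
  · have h1 : Real.log 2 ≤ Real.log (2 + |γ|) := Real.log_le_log (by norm_num) (by linarith)
    rcases le_or_gt j 2 with h2 | h2
    · have h3 : (j : ℝ) ≤ 2 := by exact_mod_cast h2
      nlinarith
    · have hn1 : 1 < n := by
        by_contra hcon
        have : j = 0 := by
          rw [hj]
          exact Nat.clog_of_right_le_one (by omega) 2
        omega
      have h3 := Nat.pow_pred_clog_lt_self (b := 2) (by norm_num) hn1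
      rw [← hj] at h3
      have h4 : (n : ℝ) < |γ| + 1 := Nat.ceil_lt_add_one h0
      have h5 : ((2 : ℝ)) ^ (j.pred) < n := by exact_mod_cast h3
      have h6 : ((j.pred : ℕ) : ℝ) * Real.log 2 ≤ Real.log (2 + |γ|) := by
        rw [← Real.log_pow]
        exact Real.log_le_log (by positivity) (by linarith)
      have h7 : ((j.pred : ℕ) : ℝ) = j - 1 := by
        rw [Nat.pred_eq_sub_one, Nat.cast_sub (by omega)]
        simp
      rw [h7] at h6
      have h8 : (3 : ℝ) ≤ j := by exact_mod_cast h2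
      nlinarith

theorem almost_core {a : ℕ} (b : ℕ) (ha : 1 ≤ a) {c C : ℝ} (B : ℝ) (hc : 0 < c) (hC : 0 ≤ C)
    (k : ℝ) : ∃ K : ℝ, 0 < K ∧ ∀ {ι : Type} (J : Finset ι) (G : ι → ℂ → ℂ) (Q : ℕ) (W : ℝ), 1 ≤ Q →
      0 ≤ W →
      (∀ δ T : ℝ, 0 ≤ δ → 0 ≤ T → ∀ J' ⊆ J, (∀ i ∈ J', Far (G i) δ T) → (J'.card : ℝ) ≤
        C * (1 + T) ^ b * (1 + Real.log Q) ^ B * (W * (Q : ℝ) ^ (-(c * δ ^ a)))) →
      (∀ i ∈ J, Off a K Q (G i)) → (J.card : ℝ) ≤ K * W / (1 + Real.log Q) ^ k := by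
  classical
  set K : ℝ := max (max ((|B| + |k|) / c) (2 * (b + 1) / c)) (C * 2 ^ (b + 1) + 1) with hK
  have K1 : (|B| + |k|) / c ≤ K := (le_max_left _ _).trans (le_max_left _ _)
  have K2 : 2 * (b + 1) / c ≤ K := (le_max_right _ _).trans (le_max_left _ _)
  have K3 : C * 2 ^ (b + 1) + 1 ≤ K := le_max_right _ _
  have hK0 : 0 < K := by
    have : 0 ≤ C * 2 ^ (b + 1) := by positivity
    linarith
  refine ⟨K, hK0, fun {ι} J G Q W hQ hW h hoff => ?_⟩
  have hq1 : (1 : ℝ) ≤ Q := by exact_mod_cast hQ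
  have hq0 : (0 : ℝ) < Q := by linarith
  have hl := Real.log_nonneg hq1
  set l : ℝ := 1 + Real.log Q with hldef
  have hl1 : 1 ≤ l := by linarith
  have hl0 : 0 < l := by linarith
  have hll : 0 ≤ Real.log l := Real.log_nonneg hl1
  rcases eq_or_lt_of_le hl with h0 | hlpos
  · -- no zeros off
    have h1 : J = ∅ := by
      rw [Finset.eq_empty_iff_forall_notMem]
      intro i hi
      obtain ⟨s, -, -, s2⟩ := hoff i hi
      rw [← h0, mul_zero, add_zero, Real.log_one, zero_add] at s2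
      have : 0 ≤ Real.log (2 + |s.im|) := Real.log_nonneg (by linarith [abs_nonneg s.im])
      nlinarith
    rw [h1, Finset.card_empty, Nat.cast_zero]
    positivity
  -- the pieces
  have ha0 : (a : ℝ) ≠ 0 := by
    have : (1 : ℝ) ≤ a := by exact_mod_cast ha
    linarith
  set e : ℕ → ℝ := fun j => K * (Real.log l + (j : ℝ) / 2 * Real.log 2) / Real.log Q with he
  have he0 : ∀ j, 0 ≤ e j := fun j => by
    have := Real.log_nonneg (show (1 : ℝ) ≤ 2 by norm_num)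
    positivity
  set δ : ℕ → ℝ := fun j => (e j) ^ (1 / (a : ℝ)) with hδ
  have hδ0 : ∀ j, 0 ≤ δ j := fun j => Real.rpow_nonneg (he0 j) _
  have hδa : ∀ j, δ j ^ a = e j := fun j => by
    rw [hδ, ← Real.rpow_natCast, ← Real.rpow_mul (he0 j), one_div, inv_mul_cancel₀ ha0,
      Real.rpow_one]
  -- each piece
  have hpiece : ∀ j : ℕ, C * (1 + 2 ^ j) ^ b * l ^ B * (W * (Q : ℝ) ^ (-(c * δ j ^ a))) ≤
      C * 2 ^ b * (W / l ^ k) * (1 / 2) ^ j := by
    intro j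
    rw [hδa j]
    have e1 : W * (Q : ℝ) ^ (-(c * e j)) = W * l ^ (-(c * K)) *
        2 ^ (-(c * K * ((j : ℝ) / 2))) := by
      rw [Real.rpow_def_of_pos hl0, Real.rpow_def_of_pos (by norm_num : (0 : ℝ) < 2),
        Real.rpow_def_of_pos hq0, mul_assoc, ← Real.exp_add]
      congr 2
      rw [he]
      field_simp
      ring
    have h1 : (1 + (2 : ℝ) ^ j) ^ b ≤ 2 ^ b * 2 ^ ((b : ℝ) * j) := by
      have h2 : (1 : ℝ) ≤ 2 ^ j := one_le_pow₀ (by norm_num)
      calc (1 + (2 : ℝ) ^ j) ^ b ≤ (2 * 2 ^ j) ^ b := by gcongr; linarith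
        _ = 2 ^ b * 2 ^ ((b : ℝ) * j) := by
          rw [mul_pow, ← pow_mul]
          congr 1
          rw [← Real.rpow_natCast]
          congr 1
          push_cast
          ring
    have h2 : (2 : ℝ) ^ (-(c * K * ((j : ℝ) / 2))) ≤ 2 ^ (-((b : ℝ) + 1) * j) := by
      refine Real.rpow_le_rpow_of_exponent_le (by norm_num) ?_
      have h3 : 2 * (b + 1) ≤ c * K := by
        rw [div_le_iff₀ hc] at K2
        linarith
      have : (0 : ℝ) ≤ j := Nat.cast_nonneg j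
      nlinarith
    have h3 : l ^ B * l ^ (-(c * K)) ≤ 1 / l ^ k := by
      rw [← Real.rpow_add hl0, one_div, ← Real.rpow_neg hl0.le]
      refine Real.rpow_le_rpow_of_exponent_le hl1 ?_
      have h4 : |B| + |k| ≤ c * K := by
        rw [div_le_iff₀ hc] at K1
        linarith
      have := le_abs_self B
      have := le_abs_self k
      linarith
    have h4 : (2 : ℝ) ^ ((b : ℝ) * j) * 2 ^ (-((b : ℝ) + 1) * j) = (1 / 2) ^ j := by
      rw [← Real.rpow_add (by norm_num)]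
      have : (b : ℝ) * j + -((b : ℝ) + 1) * j = -(j : ℝ) := by ring
      rw [this, Real.rpow_neg (by norm_num), Real.rpow_natCast, one_div, inv_pow]
    rw [e1]
    calc C * (1 + 2 ^ j) ^ b * l ^ B * (W * l ^ (-(c * K)) *
          2 ^ (-(c * K * ((j : ℝ) / 2))))
        = C * (1 + 2 ^ j) ^ b * (l ^ B * l ^ (-(c * K))) * W *
          2 ^ (-(c * K * ((j : ℝ) / 2))) := by ring
      _ ≤ C * (2 ^ b * 2 ^ ((b : ℝ) * j)) * (1 / l ^ k) * W *
          2 ^ (-((b : ℝ) + 1) * j) := by gcongr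
      _ = C * 2 ^ b * (W / l ^ k) * ((2 : ℝ) ^ ((b : ℝ) * j) *
          2 ^ (-((b : ℝ) + 1) * j)) := by ring
      _ = _ := by rw [h4]
  -- the cover
  have hch : ∀ i : ι, ∃ j : ℕ, i ∈ J → Far (G i) (δ j) (2 ^ j) := by
    intro i
    by_cases hi : i ∈ J
    · obtain ⟨s, s0, s1, s2⟩ := hoff i hi
      obtain ⟨c1, c2⟩ := clog_bound s.im
      refine ⟨Nat.clog 2 ⌈|s.im|⌉₊, fun _ => ⟨s, s0, c1, ?_, s1⟩⟩
      set j := Nat.clog 2 ⌈|s.im|⌉₊ with hj
      have h1 : δ j ^ a ≤ |s.re - 1 / 2| ^ a := by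
        rw [hδa, he]
        simp only
        rw [div_le_iff₀ hlpos]
        refine le_trans ?_ s2.le
        have := add_le_add (le_refl (Real.log l)) c2
        exact mul_le_mul_of_nonneg_left this hK0.le
      exact le_of_pow_le_pow_left₀ (by omega) (abs_nonneg _) h1
    · exact ⟨0, fun h => absurd h hi⟩
  choose j hj using hch
  obtain ⟨M, hM⟩ : ∃ M : ℕ, ∀ i ∈ J, j i < M := by
    refine ⟨J.sup j + 1, fun i hi => ?_⟩
    have := Finset.le_sup (f := j) hi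
    omega
  have h1 : (J.card : ℝ) = ∑ n ∈ range M, ((J.filter (fun i => j i = n)).card : ℝ) := by
    have h2 := Finset.card_eq_sum_card_fiberwise (f := j) (s := J) (t := range M)
      (fun i hi => Finset.mem_coe.2 (Finset.mem_range.2 (hM i hi)))
    exact_mod_cast h2
  rw [h1]
  have h2 : ∀ n ∈ range M, ((J.filter (fun i => j i = n)).card : ℝ) ≤
      C * 2 ^ b * (W / l ^ k) * (1 / 2) ^ n := by
    intro n _
    refine le_trans (h (δ n) (2 ^ n) (hδ0 n) (by positivity) _ (Finset.filter_subset _ _)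
      fun i hi => ?_) (hpiece n)
    rw [Finset.mem_filter] at hi
    rw [← hi.2]
    exact hj i hi.1
  refine (Finset.sum_le_sum h2).trans ?_
  rw [← Finset.mul_sum]
  have h5 : ∑ n ∈ range M, ((1 : ℝ) / 2) ^ n ≤ 2 := by
    have := sum_le_hasSum (range M) (fun n _ => by positivity)
      (hasSum_geometric_of_lt_one (r := (1 : ℝ) / 2) (by norm_num) (by norm_num))
    refine this.trans (by norm_num)
  have h6 : 0 ≤ W / l ^ k := by positivity
  calc C * 2 ^ b * (W / l ^ k) * ∑ n ∈ range M, ((1 : ℝ) / 2) ^ n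
      ≤ C * 2 ^ b * (W / l ^ k) * 2 := by gcongr
    _ = C * 2 ^ (b + 1) * (W / l ^ k) := by ring
    _ ≤ K * (W / l ^ k) := by
        gcongr
        linarith
    _ = _ := by ring

theorem almost_all {N a b : ℕ} (ha : 1 ≤ a) {c C B : ℝ} (hc : 0 < c) (hC : 0 ≤ C)
    {L : (q : ℕ) → DirichletCharacter ℂ q → ℂ → ℂ}
    (h : ∀ (Q : ℕ) (δ T : ℝ), 1 ≤ Q → 0 ≤ δ → 0 ≤ T →
      (count N Q (fun q χ => Far (L q χ) δ T) : ℝ) ≤
        C * (1 + T) ^ b * (1 + Real.log Q) ^ B * (Q : ℝ) ^ (2 - c * δ ^ a)) (k : ℝ) :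
    ∃ K : ℝ, 0 < K ∧ ∀ Q : ℕ, 1 ≤ Q →
      (count N Q (fun q χ => Off a K Q (L q χ)) : ℝ) ≤ K * (Q : ℝ) ^ 2 / (1 + Real.log Q) ^ k := by
  classical
  obtain ⟨K, hK, hcore⟩ := almost_core b ha B hc hC k
  refine ⟨K, hK, fun Q hQ => ?_⟩
  have hq0 : (0 : ℝ) < Q := by exact_mod_cast hQ
  rw [count_eq N Q (fun q χ => Off a K Q (L q χ))]
  refine hcore _ (fun i => L i.1 i.2) Q ((Q : ℝ) ^ 2) hQ (by positivity) ?_ fun i hi => ?_
  · intro δ T hδ hT J' hJ' hfar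
    have h1 := h Q δ T hQ hδ hT
    rw [count_eq N Q (fun q χ => Far (L q χ) δ T)] at h1
    have h2 : J' ⊆ (idx N Q).filter (fun i => Far (L i.1 i.2) δ T) := fun i hi => by
      rw [Finset.mem_filter]
      exact ⟨(Finset.mem_filter.1 (hJ' hi)).1, hfar i hi⟩
    have h3 : (J'.card : ℝ) ≤ (((idx N Q).filter (fun i => Far (L i.1 i.2) δ T)).card : ℝ) := by
      exact_mod_cast Finset.card_le_card h2
    refine h3.trans (h1.trans (le_of_eq ?_))
    congr 1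
    rw [← Real.rpow_natCast (Q : ℝ) 2, ← Real.rpow_add hq0]
    congr 1
  · exact (Finset.mem_filter.1 hi).2

theorem almost_one {N a b : ℕ} (ha : 1 ≤ a) {c C B : ℝ} (hc : 0 < c) (hC : 0 ≤ C)
    {L : (q : ℕ) → DirichletCharacter ℂ q → ℂ → ℂ}
    (h : ∀ (q : ℕ) (δ T : ℝ), 2 ≤ q → Nat.Coprime q N → 0 ≤ δ → 0 ≤ T →
      (countq q (fun χ => Far (L q χ) δ T) : ℝ) ≤
        C * (1 + T) ^ b * (1 + Real.log q) ^ B * (q : ℝ) ^ (1 - c * δ ^ a)) (k : ℝ) :
    ∃ K : ℝ, 0 < K ∧ ∀ q : ℕ, 2 ≤ q → Nat.Coprime q N →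
      (countq q (fun χ => Off a K q (L q χ)) : ℝ) ≤ K * q / (1 + Real.log q) ^ k := by
  classical
  obtain ⟨K, hK, hcore⟩ := almost_core b ha B hc hC k
  refine ⟨K, hK, fun q hq hqN => ?_⟩
  have hq0 : (0 : ℝ) < q := by exact_mod_cast (by omega : 0 < q)
  rw [← card_idq]
  refine hcore _ (fun i => L i.1 i.2) q (q : ℝ) (by omega) (by positivity) ?_ fun i hi => ?_
  · intro δ T hδ hT J' hJ' hfar
    have h1 := h q δ T hq hqN hδ hT
    rw [← card_idq] at h1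
    have h2 : J' ⊆ idq q (fun χ => Far (L q χ) δ T) := fun i hi => by
      obtain ⟨χ, rfl, h4, h5⟩ := mem_idq (hJ' hi)
      unfold idq
      rw [Finset.mem_map]
      refine ⟨χ, ?_, rfl⟩
      rw [Finset.mem_filter]
      exact ⟨Finset.mem_univ _, h4, hfar _ hi⟩
    have h3 : (J'.card : ℝ) ≤ ((idq q (fun χ => Far (L q χ) δ T)).card : ℝ) := by
      exact_mod_cast Finset.card_le_card h2
    refine h3.trans (h1.trans (le_of_eq ?_))
    congr 1
    nth_rewrite 2 [← Real.rpow_one (q : ℝ)]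
    rw [← Real.rpow_add hq0]
    congr 1
  · obtain ⟨χ, rfl, h4, h5⟩ := mem_idq hi
    exact h5

end Pool.Agent.R399.TW
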