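import Pool.Agent.R399.TW.Gauss

/-!
# Cauchy-Schwarz for families of integrals
-/

set_option autoImplicit false

namespace Pool.Agent.R399.TW

open Finset Filter Topology Complex MeasureTheory

/-- Cauchy-Schwarz with a weight -/
lemma cs_int {μ : Measure ℝ} {g : ℝ → ℂ} {κ : ℝ → ℝ} (h0 : ∀ t, 0 ≤ κ t)
    (hκ : Integrable κ μ) (hJ : Integrable (fun t => ‖g t‖ * κ t) μ)
    (hB : Integrable (fun t => ‖g t‖ ^ 2 * κ t) μ) :
    (∫ t, ‖g t‖ * κ t ∂μ) ^ 2 ≤ (∫ t, κ t ∂μ) * ∫ t, ‖g t‖ ^ 2 * κ t ∂μ := by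
  have key : ∀ x : ℝ, 0 ≤ (∫ t, κ t ∂μ) * (x * x) + (-2 * ∫ t, ‖g t‖ * κ t ∂μ) * x +
      ∫ t, ‖g t‖ ^ 2 * κ t ∂μ := by
    intro x
    have h1 : 0 ≤ ∫ t, (x - ‖g t‖) ^ 2 * κ t ∂μ :=
      integral_nonneg fun t => mul_nonneg (sq_nonneg _) (h0 t)
    have h2 : ∫ t, (x - ‖g t‖) ^ 2 * κ t ∂μ = ∫ t, ((x * x) * κ t + (-2 * x) * (‖g t‖ * κ t)) +
        ‖g t‖ ^ 2 * κ t ∂μ := by
      congr 1
      funext t
      ring
    have i1 : Integrable (fun t => (x * x) * κ t) μ := hκ.const_mul _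
    have i2 : Integrable (fun t => (-2 * x) * (‖g t‖ * κ t)) μ := hJ.const_mul _
    have i3 : Integrable (fun t => (x * x) * κ t + (-2 * x) * (‖g t‖ * κ t)) μ := i1.add i2
    rw [h2, integral_add i3 hB, integral_add i1 i2, integral_const_mul, integral_const_mul] at h1
    linarith
  have h := discrim_le_zero key
  unfold discrim at h
  nlinarith

/-- sums of squares of integrals -/
theorem sum_cs {ι : Type} {μ : Measure ℝ} (I : Finset ι) (g : ι → ℝ → ℂ) (v : ι → ℝ)
    {κ : ℝ → ℝ} {B : ℝ} (h0 : ∀ t, 0 ≤ κ t) (hκ : Integrable κ μ)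
    (hg : ∀ i ∈ I, AEStronglyMeasurable (g i) μ)
    (hB : ∀ t, ∑ i ∈ I, ‖g i t‖ ^ 2 ≤ B)
    (hv0 : ∀ i ∈ I, 0 ≤ v i) (hv : ∀ i ∈ I, v i ≤ ∫ t, ‖g i t‖ * κ t ∂μ) :
    ∑ i ∈ I, v i ^ 2 ≤ B * (∫ t, κ t ∂μ) ^ 2 := by
  have hi2 : ∀ i ∈ I, Integrable (fun t => ‖g i t‖ ^ 2 * κ t) μ := by
    intro i hi
    refine (hκ.const_mul B).mono' (((hg i hi).norm.pow 2).mul hκ.aestronglyMeasurable)
      (Eventually.of_forall fun t => ?_)
    rw [Real.norm_of_nonneg (mul_nonneg (by positivity) (h0 t))]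
    refine mul_le_mul_of_nonneg_right ?_ (h0 t)
    exact (Finset.single_le_sum (f := fun i => ‖g i t‖ ^ 2) (fun i _ => by positivity) hi).trans
      (hB t)
  have hi1 : ∀ i ∈ I, Integrable (fun t => ‖g i t‖ * κ t) μ := by
    intro i hi
    refine (hκ.add (hi2 i hi)).mono' ((hg i hi).norm.mul hκ.aestronglyMeasurable)
      (Eventually.of_forall fun t => ?_)
    rw [Real.norm_of_nonneg (mul_nonneg (by positivity) (h0 t))]
    have h1 := h0 t
    have h2 : ‖g i t‖ ≤ 1 + ‖g i t‖ ^ 2 := by nlinarith [sq_nonneg (‖g i t‖ - 1), norm_nonneg (g i t)]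
    simp only [Pi.add_apply]
    nlinarith
  calc ∑ i ∈ I, v i ^ 2 ≤ ∑ i ∈ I, (∫ t, κ t ∂μ) * ∫ t, ‖g i t‖ ^ 2 * κ t ∂μ := by
        refine Finset.sum_le_sum fun i hi => ?_
        have h1 := pow_le_pow_left₀ (hv0 i hi) (hv i hi) 2
        exact h1.trans (cs_int h0 hκ (hi1 i hi) (hi2 i hi))
    _ = (∫ t, κ t ∂μ) * ∫ t, (∑ i ∈ I, ‖g i t‖ ^ 2) * κ t ∂μ := by
        rw [← Finset.mul_sum, ← integral_finsetSum I hi2]
        congr 2
        funext t
        rw [Finset.sum_mul]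
    _ ≤ (∫ t, κ t ∂μ) * ∫ t, B * κ t ∂μ := by
        refine mul_le_mul_of_nonneg_left ?_ (integral_nonneg h0)
        refine integral_mono ?_ (hκ.const_mul B) fun t =>
          mul_le_mul_of_nonneg_right (hB t) (h0 t)
        have : (fun t => (∑ i ∈ I, ‖g i t‖ ^ 2) * κ t) = fun t => ∑ i ∈ I, ‖g i t‖ ^ 2 * κ t := by
          funext t
          rw [Finset.sum_mul]
        rw [this]
        exact integrable_finsetSum I hi2
    _ = _ := by rw [integral_const_mul]; ring

/-- the Cauchy formula -/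
lemma cauchy_le {f : ℂ → ℂ} {s₀ w : ℂ} {r : ℝ} (hr : 0 < r)
    (hf : DiffContOnCl ℂ f (Metric.ball s₀ (2 * r))) (hw : ‖w - s₀‖ ≤ r) :
    ‖f w‖ ≤ ∫ t, ‖f (circleMap s₀ (2 * r) t)‖ * (1 / Real.pi)
      ∂(volume.restrict (Set.Ioc 0 (2 * Real.pi))) := by
  have hwb : w ∈ Metric.ball s₀ (2 * r) := by
    rw [Metric.mem_ball, dist_eq_norm]
    linarith
  have h1 := hf.circleIntegral_sub_inv_smul hwb
  have hpi := Real.pi_pos
  have h2 : ‖(2 * Real.pi * I : ℂ) • f w‖ = 2 * Real.pi * ‖f w‖ := by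
    rw [norm_smul, norm_mul, norm_mul, Complex.norm_I, Complex.norm_real, Complex.norm_ofNat,
      Real.norm_of_nonneg hpi.le]
    ring
  have h3 : ‖∮ z in C(s₀, 2 * r), (z - w)⁻¹ • f z‖ ≤
      ∫ t in (0)..(2 * Real.pi), 2 * ‖f (circleMap s₀ (2 * r) t)‖ := by
    unfold circleIntegral
    have hcf : Continuous fun t : ℝ => f (circleMap s₀ (2 * r) t) := by
      have : ContinuousOn f (Metric.closedBall s₀ (2 * r)) := by
        have := hf.continuousOn
        rwa [closure_ball _ (by positivity)] at this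
      exact this.comp_continuous (continuous_circleMap _ _) fun t =>
        circleMap_mem_closedBall _ (by positivity) t
    refine intervalIntegral.norm_integral_le_of_norm_le (by positivity) ?_ ?_
    · refine Eventually.of_forall fun t _ => ?_
      rw [norm_smul, norm_smul, deriv_circleMap, norm_mul, Complex.norm_I, norm_circleMap_zero,
        mul_one, abs_of_pos (by positivity : 0 < 2 * r), norm_inv]
      have h4 : r ≤ ‖circleMap s₀ (2 * r) t - w‖ := by
        have h5 : ‖circleMap s₀ (2 * r) t - s₀‖ = 2 * r := by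
          rw [circleMap_sub_center, norm_circleMap_zero, abs_of_pos (by positivity)]
        have h6 := norm_sub_norm_le (circleMap s₀ (2 * r) t - s₀) (w - s₀)
        rw [h5] at h6
        have h7 : circleMap s₀ (2 * r) t - s₀ - (w - s₀) = circleMap s₀ (2 * r) t - w := by ring
        rw [h7] at h6
        linarith
      have h8 : 2 * r * ‖circleMap s₀ (2 * r) t - w‖⁻¹ ≤ 2 := by
        rw [← div_eq_mul_inv, div_le_iff₀ (by linarith)]
        linarith
      have h9 := norm_nonneg (f (circleMap s₀ (2 * r) t))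
      rw [← mul_assoc]
      exact mul_le_mul_of_nonneg_right h8 h9
    · exact (hcf.norm.const_mul 2).intervalIntegrable _ _
  rw [h1, h2, intervalIntegral.integral_const_mul, intervalIntegral.integral_of_le (by positivity)]
    at h3
  rw [integral_mul_const]
  rw [mul_one_div, le_div_iff₀ hpi]
  linarith

/-- families of holomorphic functions at different points of a disc -/
theorem disc_le {ι : Type} (I : Finset ι) (f : ι → ℂ → ℂ) (ρ : ι → ℂ) {s₀ : ℂ} {r B : ℝ}
    (hr : 0 < r) (hf : ∀ i ∈ I, DiffContOnCl ℂ (f i) (Metric.ball s₀ (2 * r)))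
    (hρ : ∀ i ∈ I, ‖ρ i - s₀‖ ≤ r)
    (hB : ∀ t : ℝ, ∑ i ∈ I, ‖f i (circleMap s₀ (2 * r) t)‖ ^ 2 ≤ B) :
    ∑ i ∈ I, ‖f i (ρ i)‖ ^ 2 ≤ 4 * B := by
  have hpi := Real.pi_pos
  have h := sum_cs (μ := volume.restrict (Set.Ioc 0 (2 * Real.pi))) I
    (fun i t => f i (circleMap s₀ (2 * r) t)) (fun i => ‖f i (ρ i)‖) (κ := fun _ => 1 / Real.pi)
    (B := B) (fun _ => by positivity) (integrable_const _) (fun i hi => ?_) hB
    (fun i _ => norm_nonneg _) (fun i hi => cauchy_le hr (hf i hi) (hρ i hi))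
  · refine h.trans (le_of_eq ?_)
    rw [integral_const, Measure.real, Measure.restrict_apply MeasurableSet.univ, Set.univ_inter,
      Real.volume_Ioc, sub_zero, ENNReal.toReal_ofReal (by positivity), smul_eq_mul]
    field_simp
    ring
  · have hcf : Continuous fun t : ℝ => f i (circleMap s₀ (2 * r) t) := by
      have : ContinuousOn (f i) (Metric.closedBall s₀ (2 * r)) := by
        have := (hf i hi).continuousOn
        rwa [closure_ball _ (by positivity)] at this
      exact this.comp_continuous (continuous_circleMap _ _) fun t =>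
        circleMap_mem_closedBall _ (by positivity) t
    exact hcf.aestronglyMeasurable

end Pool.Agent.R399.TW
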