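import Mathlib

/-!
# The large sieve for infinite sums
-/

set_option autoImplicit false

namespace Pool.Agent.R399.TW

open Finset Filter Topology

/-- the large sieve inequality for the sequences `ψ i`, `i ∈ I` -/
structure LSv {ι : Type} (I : Finset ι) (ψ : ι → ℕ → ℂ) (H P η : ℝ) : Prop where
  H_nn : 0 ≤ H
  P_ge : 1 ≤ P
  η_nn : 0 ≤ η
  norm_le : ∀ i ∈ I, ∀ n, ‖ψ i n‖ ≤ 1
  ls : ∀ (N : ℕ) (b : ℕ → ℂ), ∑ i ∈ I, ‖∑ n ∈ Icc 1 N, b n * ψ i n‖ ^ 2 ≤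
    H * (P + N) * (N : ℝ) ^ η * ∑ n ∈ Icc 1 N, ‖b n‖ ^ 2

/-- the weight -/
noncomputable def wt (P η : ℝ) (n : ℕ) : ℝ := (P + n) * (1 + Real.log n) ^ 2 * (n : ℝ) ^ η

lemma wt_nn {P : ℝ} (hP : 0 ≤ P) (η : ℝ) (n : ℕ) : 0 ≤ wt P η n := by unfold wt; positivity

lemma inv_sq_sum (J : ℕ) : ∑ j ∈ range J, (1 / ((j : ℝ) + 1)) ^ 2 ≤ 2 := by
  have h : ∀ J : ℕ, ∑ j ∈ range (J + 1), (1 / ((j : ℝ) + 1)) ^ 2 ≤ 2 - 1 / ((J : ℝ) + 1) := by
    intro J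
    induction J with
    | zero => norm_num
    | succ J ih =>
      rw [Finset.sum_range_succ]
      have h1 : (0 : ℝ) < (J : ℝ) + 1 := by positivity
      have h2 : (0 : ℝ) < (J : ℝ) + 2 := by positivity
      have h3 : (1 / (((J + 1 : ℕ) : ℝ) + 1)) ^ 2 ≤ 1 / ((J : ℝ) + 1) - 1 / ((J : ℝ) + 2) := by
        push_cast
        rw [div_sub_div _ _ h1.ne' h2.ne', div_pow, div_le_div_iff₀ (by positivity) (by positivity)]
        nlinarith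
      have h4 : (((J + 1 : ℕ) : ℝ) + 1) = (J : ℝ) + 2 := by push_cast; ring
      rw [h4]
      rw [h4] at h3
      linarith
  rcases Nat.eq_zero_or_pos J with rfl | hJ
  · simp
  · obtain ⟨K, rfl⟩ : ∃ K, J = K + 1 := ⟨J - 1, by omega⟩
    have := h K
    have h5 : 0 ≤ 1 / ((K : ℝ) + 1) := by positivity
    linarith

/-- weighted Cauchy-Schwarz -/
lemma norm_sum_sq (J : ℕ) (B : ℕ → ℂ) :
    ‖∑ j ∈ range J, B j‖ ^ 2 ≤ 2 * ∑ j ∈ range J, ((j : ℝ) + 1) ^ 2 * ‖B j‖ ^ 2 := by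
  have h1 : ‖∑ j ∈ range J, B j‖ ≤ ∑ j ∈ range J, (1 / ((j : ℝ) + 1)) * (((j : ℝ) + 1) * ‖B j‖) := by
    refine norm_sum_le_of_le _ fun j _ => le_of_eq ?_
    have : (0 : ℝ) < (j : ℝ) + 1 := by positivity
    field_simp
  have h2 := Finset.sum_mul_sq_le_sq_mul_sq (range J) (fun j => 1 / ((j : ℝ) + 1))
    (fun j => ((j : ℝ) + 1) * ‖B j‖)
  have h3 := pow_le_pow_left₀ (norm_nonneg _) h1 2
  refine h3.trans (h2.trans ?_)
  have h4 : ∑ j ∈ range J, (((j : ℝ) + 1) * ‖B j‖) ^ 2 =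
      ∑ j ∈ range J, ((j : ℝ) + 1) ^ 2 * ‖B j‖ ^ 2 :=
    Finset.sum_congr rfl fun j _ => by ring
  rw [h4]
  exact mul_le_mul_of_nonneg_right (inv_sq_sum J) (Finset.sum_nonneg fun j _ => by positivity)

variable {ι : Type} {I : Finset ι} {ψ : ι → ℕ → ℂ} {H P η : ℝ}

lemma LSv.block (h : LSv I ψ H P η) (b : ℕ → ℂ) (N j : ℕ) :
    ((j : ℝ) + 1) ^ 2 * ∑ i ∈ I, ‖∑ n ∈ (Icc 1 N).filter (fun n => Nat.log 2 n = j),
      b n * ψ i n‖ ^ 2 ≤ 5 * (2 : ℝ) ^ η * H *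
        ∑ n ∈ (Icc 1 N).filter (fun n => Nat.log 2 n = j), wt P η n * ‖b n‖ ^ 2 := by
  classical
  set S := (Icc 1 N).filter (fun n => Nat.log 2 n = j) with hS
  have hsub : S ⊆ Icc 1 (2 ^ (j + 1)) := by
    intro n hn
    rw [hS, Finset.mem_filter, mem_Icc] at hn
    rw [mem_Icc]
    refine ⟨hn.1.1, ?_⟩
    have := Nat.lt_pow_succ_log_self (b := 2) (by norm_num) n
    rw [hn.2] at this
    exact this.le
  have h1 := h.ls (2 ^ (j + 1)) (fun n => if n ∈ S then b n else 0)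
  have e1 : ∀ i, ∑ n ∈ Icc 1 (2 ^ (j + 1)), (if n ∈ S then b n else 0) * ψ i n =
      ∑ n ∈ S, b n * ψ i n := by
    intro i
    rw [← Finset.sum_subset hsub]
    · exact Finset.sum_congr rfl fun n hn => by rw [if_pos hn]
    · intro n _ hn
      rw [if_neg hn, zero_mul]
  have e2 : ∑ n ∈ Icc 1 (2 ^ (j + 1)), ‖(if n ∈ S then b n else 0 : ℂ)‖ ^ 2 =
      ∑ n ∈ S, ‖b n‖ ^ 2 := by
    rw [← Finset.sum_subset hsub]
    · exact Finset.sum_congr rfl fun n hn => by rw [if_pos hn]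
    · intro n _ hn
      rw [if_neg hn]
      simp
  simp only [e1] at h1
  rw [e2] at h1
  have hH := h.H_nn
  have hP := h.P_ge
  have hη := h.η_nn
  refine (mul_le_mul_of_nonneg_left h1 (by positivity)).trans ?_
  rw [Finset.mul_sum, Finset.mul_sum, Finset.mul_sum]
  refine Finset.sum_le_sum fun n hn => ?_
  rw [hS, Finset.mem_filter, mem_Icc] at hn
  have hn0 : n ≠ 0 := by omega
  have h2 : 2 ^ j ≤ n := by
    rw [← hn.2]
    exact Nat.pow_log_le_self 2 hn0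
  have hn1 : (1 : ℝ) ≤ n := by exact_mod_cast hn.1.1
  have h3 : ((2 ^ (j + 1) : ℕ) : ℝ) ≤ 2 * n := by
    have : 2 ^ (j + 1) ≤ 2 * n := by rw [pow_succ]; omega
    exact_mod_cast this
  have h4 : (((2 ^ (j + 1) : ℕ) : ℝ)) ^ η ≤ (2 : ℝ) ^ η * (n : ℝ) ^ η := by
    rw [← Real.mul_rpow (by norm_num) (by positivity)]
    exact Real.rpow_le_rpow (by positivity) h3 hη
  have h5 : ((j : ℝ) + 1) ^ 2 ≤ 5 / 2 * (1 + Real.log n) ^ 2 := by
    have h6 : (j : ℝ) * Real.log 2 ≤ Real.log n := by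
      rw [← Real.log_pow]
      exact Real.log_le_log (by positivity) (by exact_mod_cast h2)
    have h7 := Real.log_two_gt_d9
    have h8 : 0 ≤ Real.log n := Real.log_nonneg hn1
    have h9 : (j : ℝ) + 1 ≤ 3 / 2 * (1 + Real.log n) := by
      have : (0 : ℝ) ≤ j := by positivity
      nlinarith
    have h10 := pow_le_pow_left₀ (by positivity) h9 2
    nlinarith [sq_nonneg (1 + Real.log n)]
  have h6 : P + ((2 ^ (j + 1) : ℕ) : ℝ) ≤ 2 * (P + n) := by linarith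
  have h7 : 0 ≤ (((2 ^ (j + 1) : ℕ) : ℝ)) ^ η := by positivity
  unfold wt
  calc ((j : ℝ) + 1) ^ 2 * (H * (P + ((2 ^ (j + 1) : ℕ) : ℝ)) * (((2 ^ (j + 1) : ℕ) : ℝ)) ^ η *
        ‖b n‖ ^ 2)
      ≤ (5 / 2 * (1 + Real.log n) ^ 2) * (H * (2 * (P + n)) * ((2 : ℝ) ^ η * (n : ℝ) ^ η) *
        ‖b n‖ ^ 2) := by gcongr
    _ = _ := by ring

/-- the large sieve with weights, finite sums -/
theorem LSv.fin (h : LSv I ψ H P η) (b : ℕ → ℂ) (N : ℕ) :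
    ∑ i ∈ I, ‖∑ n ∈ Icc 1 N, b n * ψ i n‖ ^ 2 ≤
      10 * (2 : ℝ) ^ η * H * ∑ n ∈ Icc 1 N, wt P η n * ‖b n‖ ^ 2 := by
  set J := Nat.log 2 N + 1 with hJ
  have hmap : ∀ n ∈ Icc 1 N, Nat.log 2 n ∈ range J := by
    intro n hn
    rw [mem_Icc] at hn
    rw [Finset.mem_range, hJ]
    have := Nat.log_mono_right (b := 2) hn.2
    omega
  have e1 : ∀ i, ∑ n ∈ Icc 1 N, b n * ψ i n =
      ∑ j ∈ range J, ∑ n ∈ (Icc 1 N).filter (fun n => Nat.log 2 n = j), b n * ψ i n := fun i =>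
    (Finset.sum_fiberwise_of_maps_to hmap _).symm
  have e2 : ∑ n ∈ Icc 1 N, wt P η n * ‖b n‖ ^ 2 =
      ∑ j ∈ range J, ∑ n ∈ (Icc 1 N).filter (fun n => Nat.log 2 n = j), wt P η n * ‖b n‖ ^ 2 :=
    (Finset.sum_fiberwise_of_maps_to hmap _).symm
  calc ∑ i ∈ I, ‖∑ n ∈ Icc 1 N, b n * ψ i n‖ ^ 2
      ≤ ∑ i ∈ I, 2 * ∑ j ∈ range J, ((j : ℝ) + 1) ^ 2 *
        ‖∑ n ∈ (Icc 1 N).filter (fun n => Nat.log 2 n = j), b n * ψ i n‖ ^ 2 := by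
        refine Finset.sum_le_sum fun i _ => ?_
        rw [e1]
        exact norm_sum_sq J _
    _ = 2 * ∑ j ∈ range J, ((j : ℝ) + 1) ^ 2 * ∑ i ∈ I,
        ‖∑ n ∈ (Icc 1 N).filter (fun n => Nat.log 2 n = j), b n * ψ i n‖ ^ 2 := by
        rw [← Finset.mul_sum, Finset.sum_comm]
        congr 1
        refine Finset.sum_congr rfl fun j _ => ?_
        rw [Finset.mul_sum]
    _ ≤ 2 * ∑ j ∈ range J, 5 * (2 : ℝ) ^ η * H *
        ∑ n ∈ (Icc 1 N).filter (fun n => Nat.log 2 n = j), wt P η n * ‖b n‖ ^ 2 := by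
        refine mul_le_mul_of_nonneg_left ?_ (by norm_num)
        exact Finset.sum_le_sum fun j _ => h.block b N j
    _ = _ := by
        rw [← Finset.mul_sum, e2]
        ring

/-- the large sieve for infinite sums -/
theorem LSv.lim (h : LSv I ψ H P η) (b : ℕ → ℂ) {S : ι → ℂ}
    (hS : ∀ i ∈ I, Tendsto (fun N : ℕ => ∑ n ∈ Icc 1 N, b n * ψ i n) atTop (𝓝 (S i))) {B : ℝ}
    (hB : ∀ N : ℕ, ∑ n ∈ Icc 1 N, wt P η n * ‖b n‖ ^ 2 ≤ B) :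
    ∑ i ∈ I, ‖S i‖ ^ 2 ≤ 10 * (2 : ℝ) ^ η * H * B := by
  have hH := h.H_nn
  have h1 : Tendsto (fun N : ℕ => ∑ i ∈ I, ‖∑ n ∈ Icc 1 N, b n * ψ i n‖ ^ 2) atTop
      (𝓝 (∑ i ∈ I, ‖S i‖ ^ 2)) :=
    tendsto_finset_sum _ fun i hi => ((hS i hi).norm).pow 2
  refine le_of_tendsto' h1 fun N => (h.fin b N).trans ?_
  exact mul_le_mul_of_nonneg_left (hB N) (by positivity)

lemma tendsto_Icc {g : ℕ → ℂ} (hg : Summable g) (h0 : g 0 = 0) :
    Tendsto (fun N : ℕ => ∑ n ∈ Icc 1 N, g n) atTop (𝓝 (∑' n, g n)) := by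
  have h1 := (hg.hasSum.tendsto_sum_nat).comp (tendsto_add_atTop_nat 1)
  refine h1.congr fun N => ?_
  simp only [Function.comp]
  rw [Finset.range_eq_Ico, Finset.sum_eq_sum_Ico_succ_bot (Nat.succ_pos N), h0, zero_add]
  refine Finset.sum_congr ?_ fun _ _ => rfl
  ext n
  simp only [mem_Ico, mem_Icc]
  omega

lemma tendsto_Icc_mul {b φ : ℕ → ℂ} (hg : Summable fun n => b n * φ n) (h0 : b 0 = 0) :
    Tendsto (fun N : ℕ => ∑ n ∈ Icc 1 N, b n * φ n) atTop (𝓝 (∑' n, b n * φ n)) :=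
  tendsto_Icc hg (by rw [h0, zero_mul])

end Pool.Agent.R399.TW
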