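import Pool.Agent.R399.TW.Ident
import Pool.Agent.R399.TW.LSg
import Pool.Agent.R399.TW.CS

/-!
# The three mean squares
-/

set_option autoImplicit false

namespace Pool.Agent.R399.TW

open Finset Filter Topology Complex MeasureTheory
open ArithmeticFunction (vonMangoldt)
open scoped ComplexConjugate

/-! ### elementary inequalities -/

lemma one_add_log_le {u : ℝ} (hu : 1 ≤ u) : (1 + Real.log u) ^ 2 ≤ 16 * u ^ (1 / 2 : ℝ) := by
  have h0 : 0 < u := by linarith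
  have h1 : Real.log (u ^ (1 / 4 : ℝ)) ≤ u ^ (1 / 4 : ℝ) - 1 :=
    Real.log_le_sub_one_of_pos (by positivity)
  rw [Real.log_rpow h0] at h1
  have h2 : 0 ≤ Real.log u := Real.log_nonneg hu
  have h3 : 1 + Real.log u ≤ 4 * u ^ (1 / 4 : ℝ) := by linarith
  have h4 := pow_le_pow_left₀ (by linarith) h3 2
  have h5 : (4 * u ^ (1 / 4 : ℝ)) ^ 2 = 16 * u ^ (1 / 2 : ℝ) := by
    rw [mul_pow, ← Real.rpow_natCast (u ^ (1 / 4 : ℝ)), ← Real.rpow_mul h0.le]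
    norm_num
  linarith

lemma log_split {x Y : ℝ} (hY : 1 ≤ Y) (hx : Y ≤ x) :
    (1 + Real.log x) ^ 2 ≤ 16 * (1 + Real.log Y) ^ 2 * (x / Y) ^ (1 / 2 : ℝ) := by
  have hY0 : 0 < Y := by linarith
  have hx0 : 0 < x := by linarith
  have hu : 1 ≤ x / Y := by rwa [le_div_iff₀ hY0, one_mul]
  have h1 := one_add_log_le hu
  have h2 : Real.log (x / Y) = Real.log x - Real.log Y := Real.log_div hx0.ne' hY0.ne'
  have h3 : 0 ≤ Real.log Y := Real.log_nonneg hY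
  have h4 : 0 ≤ Real.log (x / Y) := Real.log_nonneg hu
  have h5 : 1 + Real.log x ≤ (1 + Real.log Y) * (1 + Real.log (x / Y)) := by nlinarith
  have h6 : 0 ≤ 1 + Real.log x := by linarith [Real.log_nonneg (hY.trans hx)]
  have h7 := pow_le_pow_left₀ h6 h5 2
  rw [mul_pow] at h7
  have h8 : (1 + Real.log Y) ^ 2 * (1 + Real.log (x / Y)) ^ 2 ≤
      (1 + Real.log Y) ^ 2 * (16 * (x / Y) ^ (1 / 2 : ℝ)) := by gcongr
  linarith

lemma phi_le {x Y κ : ℝ} (hx : 1 ≤ x) (hY : 1 ≤ Y) (hκ : 0 ≤ κ) (hκ' : κ ≤ 1 / 2) :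
    (1 + Real.log x) ^ 2 * x ^ κ * Ph (Real.log Y - Real.log x) ^ 2 * max 1 (x / Y) ≤
      16 * Real.exp 18 * (1 + Real.log Y) ^ 2 * Y ^ κ := by
  have hY0 : 0 < Y := by linarith
  have hx0 : 0 < x := by linarith
  have hlx : 0 ≤ Real.log x := Real.log_nonneg hx
  have hlY : 0 ≤ Real.log Y := Real.log_nonneg hY
  have hPn := Ph_nn (Real.log Y - Real.log x)
  rcases le_total x Y with h | h
  · have h1 : max 1 (x / Y) = 1 := max_eq_left (by rwa [div_le_one hY0])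
    have h2 : Real.log x ≤ Real.log Y := Real.log_le_log hx0 h
    have h3 := Ph_le_one (Real.log Y - Real.log x)
    have h4 : Ph (Real.log Y - Real.log x) ^ 2 ≤ 1 := pow_le_one₀ hPn h3
    have h5 : x ^ κ ≤ Y ^ κ := Real.rpow_le_rpow hx0.le h hκ
    have h6 : 1 ≤ 16 * Real.exp 18 := by
      have := Real.one_le_exp (show (0 : ℝ) ≤ 18 by norm_num)
      linarith
    rw [h1, mul_one]
    calc (1 + Real.log x) ^ 2 * x ^ κ * Ph (Real.log Y - Real.log x) ^ 2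
        ≤ (1 + Real.log Y) ^ 2 * Y ^ κ * 1 := by gcongr
      _ = 1 * ((1 + Real.log Y) ^ 2 * Y ^ κ) := by ring
      _ ≤ (16 * Real.exp 18) * ((1 + Real.log Y) ^ 2 * Y ^ κ) := by gcongr
      _ = _ := by ring
  · have hu : 1 ≤ x / Y := by rwa [le_div_iff₀ hY0, one_mul]
    have hu0 : 0 < x / Y := by linarith
    have h1 : max 1 (x / Y) = x / Y := max_eq_right hu
    have h2 := log_split hY h
    have h3 : x ^ κ ≤ Y ^ κ * (x / Y) ^ (1 / 2 : ℝ) := by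
      have : x = Y * (x / Y) := by field_simp
      calc x ^ κ = (Y * (x / Y)) ^ κ := by rw [← this]
        _ = Y ^ κ * (x / Y) ^ κ := Real.mul_rpow hY0.le hu0.le
        _ ≤ Y ^ κ * (x / Y) ^ (1 / 2 : ℝ) := by
            gcongr
    have h4 : Ph (Real.log Y - Real.log x) ≤ Real.exp 9 * (x / Y) ^ (-3 : ℝ) := by
      refine (Ph_decay _).trans (le_of_eq ?_)
      congr 1
      rw [Real.rpow_def_of_pos hu0, Real.log_div hx0.ne' hY0.ne']
      congr 1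
      ring
    have h5 : Ph (Real.log Y - Real.log x) ^ 2 ≤ Real.exp 18 * (x / Y) ^ (-6 : ℝ) := by
      have h6 := pow_le_pow_left₀ hPn h4 2
      refine h6.trans (le_of_eq ?_)
      rw [mul_pow, ← Real.exp_nat_mul, ← Real.rpow_natCast ((x / Y) ^ (-3 : ℝ)),
        ← Real.rpow_mul hu0.le]
      norm_num
    have h7 : (x / Y) ^ (1 / 2 : ℝ) * (x / Y) ^ (1 / 2 : ℝ) * (x / Y) ^ (-6 : ℝ) * (x / Y) ≤ 1 := by
      nth_rewrite 4 [← Real.rpow_one (x / Y)]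
      rw [← Real.rpow_add hu0, ← Real.rpow_add hu0, ← Real.rpow_add hu0]
      exact Real.rpow_le_one_of_one_le_of_nonpos hu (by norm_num)
    rw [h1]
    calc (1 + Real.log x) ^ 2 * x ^ κ * Ph (Real.log Y - Real.log x) ^ 2 * (x / Y)
        ≤ (16 * (1 + Real.log Y) ^ 2 * (x / Y) ^ (1 / 2 : ℝ)) * (Y ^ κ * (x / Y) ^ (1 / 2 : ℝ)) *
          (Real.exp 18 * (x / Y) ^ (-6 : ℝ)) * (x / Y) := by gcongr
      _ = 16 * Real.exp 18 * (1 + Real.log Y) ^ 2 * Y ^ κ *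
          ((x / Y) ^ (1 / 2 : ℝ) * (x / Y) ^ (1 / 2 : ℝ) * (x / Y) ^ (-6 : ℝ) * (x / Y)) := by ring
      _ ≤ 16 * Real.exp 18 * (1 + Real.log Y) ^ 2 * Y ^ κ * 1 := by gcongr
      _ = _ := by ring

lemma size_le {x Y P X σ : ℝ} (hX : 1 ≤ X) (hx : X ≤ x) (hY : 1 ≤ Y) (hP : 0 ≤ P)
    (hσ : 1 / 2 ≤ σ) (hσ' : σ ≤ 1) :
    (P + x) * x ^ (1 - 2 * σ) ≤ (P * X ^ (1 - 2 * σ) + Y ^ (2 - 2 * σ)) * max 1 (x / Y) := by
  have hY0 : 0 < Y := by linarith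
  have hx0 : 0 < x := by linarith
  have hX0 : 0 < X := by linarith
  have hM1 : 1 ≤ max 1 (x / Y) := le_max_left _ _
  have h1 : x ^ (1 - 2 * σ) ≤ X ^ (1 - 2 * σ) :=
    Real.rpow_le_rpow_of_nonpos hX0 hx (by linarith)
  have h2 : x * x ^ (1 - 2 * σ) = x ^ (2 - 2 * σ) := by
    nth_rewrite 1 [← Real.rpow_one x]
    rw [← Real.rpow_add hx0]
    congr 1
    ring
  have h3 : x ^ (2 - 2 * σ) ≤ Y ^ (2 - 2 * σ) * max 1 (x / Y) := by
    have hle : x ≤ Y * max 1 (x / Y) := by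
      have := le_max_right 1 (x / Y)
      calc x = Y * (x / Y) := by field_simp
        _ ≤ _ := by gcongr
    calc x ^ (2 - 2 * σ) ≤ (Y * max 1 (x / Y)) ^ (2 - 2 * σ) :=
          Real.rpow_le_rpow hx0.le hle (by linarith)
      _ = Y ^ (2 - 2 * σ) * (max 1 (x / Y)) ^ (2 - 2 * σ) := Real.mul_rpow hY0.le (by linarith)
      _ ≤ Y ^ (2 - 2 * σ) * (max 1 (x / Y)) ^ (1 : ℝ) := by
          gcongr
          linarith
      _ = _ := by rw [Real.rpow_one]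
  have h4 : 0 ≤ P * X ^ (1 - 2 * σ) := by positivity
  rw [add_mul, h2, add_mul]
  have h5 : P * x ^ (1 - 2 * σ) ≤ P * X ^ (1 - 2 * σ) * max 1 (x / Y) := by
    calc P * x ^ (1 - 2 * σ) ≤ P * X ^ (1 - 2 * σ) := by gcongr
      _ ≤ _ := le_mul_of_one_le_right h4 hM1
  linarith

lemma wA_le {P η θ σ Y : ℝ} {X n : ℕ} (hX : 1 ≤ X) (hn : X < n) (hY : 1 ≤ Y) (hP : 0 ≤ P)
    (hη : 0 ≤ η) (hθ : 0 ≤ θ) (hηθ : η + θ ≤ 1 / 2) (hσ : 1 / 2 ≤ σ) (hσ' : σ ≤ 1) :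
    wt P η n * (Ph (Real.log Y - Real.log n) ^ 2 * (n : ℝ) ^ (-(2 * σ))) ≤
      16 * Real.exp 18 * (P * (X : ℝ) ^ (1 - 2 * σ) + Y ^ (2 - 2 * σ)) *
        ((1 + Real.log Y) ^ 2 * Y ^ (η + θ)) * (n : ℝ) ^ (-(1 + θ)) := by
  have hX1 : (1 : ℝ) ≤ X := by exact_mod_cast hX
  have hnX : (X : ℝ) ≤ n := by exact_mod_cast hn.le
  have hn1 : (1 : ℝ) ≤ n := hX1.trans hnX
  have hn0 : (0 : ℝ) < n := by linarith
  have h1 := phi_le (x := n) (Y := Y) (κ := η + θ) hn1 hY (by linarith) hηθ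
  have h2 := size_le (x := n) hX1 hnX hY hP hσ hσ'
  set M := max 1 ((n : ℝ) / Y) with hM
  have hM1 : 1 ≤ M := le_max_left _ _
  have e1 : wt P η n * (Ph (Real.log Y - Real.log n) ^ 2 * (n : ℝ) ^ (-(2 * σ))) =
      ((P + n) * (n : ℝ) ^ (1 - 2 * σ)) * ((1 + Real.log n) ^ 2 * (n : ℝ) ^ (η + θ) *
        Ph (Real.log Y - Real.log n) ^ 2) * (n : ℝ) ^ (-(1 + θ)) := by
    have e2 : (n : ℝ) ^ η * (n : ℝ) ^ (-(2 * σ)) =
        (n : ℝ) ^ (1 - 2 * σ) * (n : ℝ) ^ (η + θ) * (n : ℝ) ^ (-(1 + θ)) := by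
      rw [← Real.rpow_add hn0, ← Real.rpow_add hn0, ← Real.rpow_add hn0]
      congr 1
      ring
    unfold wt
    calc (P + n) * (1 + Real.log n) ^ 2 * (n : ℝ) ^ η *
          (Ph (Real.log Y - Real.log n) ^ 2 * (n : ℝ) ^ (-(2 * σ)))
        = (P + n) * (1 + Real.log n) ^ 2 * Ph (Real.log Y - Real.log n) ^ 2 *
          ((n : ℝ) ^ η * (n : ℝ) ^ (-(2 * σ))) := by ring
      _ = _ := by rw [e2]; ring
  rw [e1]
  refine mul_le_mul_of_nonneg_right ?_ (by positivity)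
  have h0 : 0 ≤ (1 + Real.log n) ^ 2 * (n : ℝ) ^ (η + θ) *
      Ph (Real.log Y - Real.log n) ^ 2 := by positivity
  have hX0 : (0 : ℝ) < X := by linarith
  have hY0 : 0 < Y := by linarith
  calc (P + n) * (n : ℝ) ^ (1 - 2 * σ) * ((1 + Real.log n) ^ 2 * (n : ℝ) ^ (η + θ) *
        Ph (Real.log Y - Real.log n) ^ 2)
      ≤ ((P * (X : ℝ) ^ (1 - 2 * σ) + Y ^ (2 - 2 * σ)) * M) *
        ((1 + Real.log n) ^ 2 * (n : ℝ) ^ (η + θ) * Ph (Real.log Y - Real.log n) ^ 2) := by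
        gcongr
    _ = (P * (X : ℝ) ^ (1 - 2 * σ) + Y ^ (2 - 2 * σ)) *
        ((1 + Real.log n) ^ 2 * (n : ℝ) ^ (η + θ) * Ph (Real.log Y - Real.log n) ^ 2 * M) := by
        ring
    _ ≤ (P * (X : ℝ) ^ (1 - 2 * σ) + Y ^ (2 - 2 * σ)) *
        (16 * Real.exp 18 * (1 + Real.log Y) ^ 2 * Y ^ (η + θ)) := by gcongr
    _ = _ := by ring

lemma wC_le {P η θ : ℝ} {N n : ℕ} (hN : 1 ≤ N) (hn : N < n) (hP : 0 ≤ P)
    (hηθ : η + θ ≤ 1 / 2) :
    wt P η n * (n : ℝ) ^ (-3 : ℝ) ≤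
      16 * (1 + P / N) * ((1 + Real.log N) ^ 2 * (N : ℝ) ^ (η + θ - 1)) * (n : ℝ) ^ (-(1 + θ)) := by
  have hN1 : (1 : ℝ) ≤ N := by exact_mod_cast hN
  have hnN : (N : ℝ) ≤ n := by exact_mod_cast hn.le
  have hN0 : (0 : ℝ) < N := by linarith
  have hn0 : (0 : ℝ) < n := by linarith
  have h1 := log_split hN1 hnN
  have h2 : P + n ≤ (1 + P / N) * n := by
    have : P ≤ P / N * n := by
      rw [div_mul_eq_mul_div, le_div_iff₀ hN0]
      gcongr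
    linarith
  have e1 : wt P η n * (n : ℝ) ^ (-3 : ℝ) = (P + n) * (1 + Real.log n) ^ 2 *
      ((n : ℝ)⁻¹ * (n : ℝ) ^ (η + θ - 1)) * (n : ℝ) ^ (-(1 + θ)) := by
    have e2 : (n : ℝ) ^ η * (n : ℝ) ^ (-3 : ℝ) =
        (n : ℝ)⁻¹ * (n : ℝ) ^ (η + θ - 1) * (n : ℝ) ^ (-(1 + θ)) := by
      rw [← Real.rpow_neg_one, ← Real.rpow_add hn0, ← Real.rpow_add hn0, ← Real.rpow_add hn0]
      congr 1
      ring
    unfold wt
    calc (P + n) * (1 + Real.log n) ^ 2 * (n : ℝ) ^ η * (n : ℝ) ^ (-3 : ℝ)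
        = (P + n) * (1 + Real.log n) ^ 2 * ((n : ℝ) ^ η * (n : ℝ) ^ (-3 : ℝ)) := by ring
      _ = _ := by rw [e2]; ring
  rw [e1]
  refine mul_le_mul_of_nonneg_right ?_ (by positivity)
  have h3 : (n / N : ℝ) ^ (1 / 2 : ℝ) * (n : ℝ) ^ (η + θ - 1) ≤ (N : ℝ) ^ (η + θ - 1) := by
    rw [Real.div_rpow hn0.le hN0.le, div_mul_eq_mul_div, ← Real.rpow_add hn0,
      div_le_iff₀ (by positivity), ← Real.rpow_add hN0]
    exact (Real.rpow_le_rpow_of_nonpos hN0 hnN (by linarith)).trans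
      (le_of_eq (by congr 1; ring))
  calc (P + n) * (1 + Real.log n) ^ 2 * ((n : ℝ)⁻¹ * (n : ℝ) ^ (η + θ - 1))
      ≤ ((1 + P / N) * n) * (16 * (1 + Real.log N) ^ 2 * (n / N : ℝ) ^ (1 / 2 : ℝ)) *
        ((n : ℝ)⁻¹ * (n : ℝ) ^ (η + θ - 1)) := by gcongr
    _ = 16 * (1 + P / N) * (1 + Real.log N) ^ 2 *
        ((n / N : ℝ) ^ (1 / 2 : ℝ) * (n : ℝ) ^ (η + θ - 1)) := by
        field_simp
    _ ≤ 16 * (1 + P / N) * (1 + Real.log N) ^ 2 * (N : ℝ) ^ (η + θ - 1) := by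
        gcongr
    _ = _ := by ring

/-! ### the mean squares -/

variable {ι : Type} {I : Finset ι} {ψ : ι → ℕ → ℂ} {H P η : ℝ}

lemma LSv.ser (h : LSv I ψ H P η) {f : ℕ → ℂ} {s : ℂ} {σ B : ℝ} (hσ : σ ≤ s.re)
    (hs : ∀ i ∈ I, LSeriesSummable (tw (ψ i) f) s)
    (hB : ∀ N : ℕ, ∑ n ∈ Icc 1 N, wt P η n * (‖f n‖ ^ 2 * (n : ℝ) ^ (-(2 * σ))) ≤ B) :
    ∑ i ∈ I, ‖LSeries (tw (ψ i) f) s‖ ^ 2 ≤ 10 * (2 : ℝ) ^ η * H * B := by
  have hP := h.P_ge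
  refine h.lim (fun n => f n / (n : ℂ) ^ s) (fun i hi => ?_) (fun N => ?_)
  · have h1 := tendsto_Icc (g := LSeries.term (tw (ψ i) f) s) (hs i hi) (by simp)
    refine h1.congr fun N => Finset.sum_congr rfl fun n hn => ?_
    rw [mem_Icc] at hn
    rw [LSeries.term_of_ne_zero (by omega)]
    unfold tw
    ring
  · refine le_trans (Finset.sum_le_sum fun n hn => ?_) (hB N)
    rw [mem_Icc] at hn
    have hn1 : (1 : ℝ) ≤ n := by exact_mod_cast hn.1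
    have hn0 : (0 : ℝ) < n := by linarith
    have h2 : ‖f n / (n : ℂ) ^ s‖ ^ 2 ≤ ‖f n‖ ^ 2 * (n : ℝ) ^ (-(2 * σ)) := by
      rw [norm_div, Complex.norm_natCast_cpow_of_pos (by omega), div_pow, div_eq_mul_inv]
      refine mul_le_mul_of_nonneg_left ?_ (by positivity)
      rw [← Real.rpow_natCast ((n : ℝ) ^ s.re), ← Real.rpow_mul hn0.le, ← Real.rpow_neg hn0.le]
      exact Real.rpow_le_rpow_of_exponent_le hn1 (by push_cast; linarith)
    exact mul_le_mul_of_nonneg_left h2 (wt_nn (by linarith) η n)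

/-- summability of the smoothed tail -/
lemma bb_ls {c ψ : ℕ → ℂ} (hL : Lin c) (hψ : ∀ n, ‖ψ n‖ ≤ 1) (X : ℕ) (L : ℝ) {s : ℂ}
    (hs : -1 < s.re) : LSeriesSummable (tw ψ (bb c X L)) s := by
  refine Summable.of_norm_bounded
    ((hL.ab2 (σ := s.re + 3) (by linarith)).mul_left (Real.exp 9 * Real.exp (3 * L))) fun n => ?_
  rcases eq_or_ne n 0 with rfl | hn
  · simp only [LSeries.term_zero, norm_zero, Nat.cast_zero]
    have := ab2_nn c 0
    have h2 : (0 : ℝ) ≤ (0 : ℝ) ^ (-(s.re + 3)) := Real.rpow_nonneg le_rfl _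
    positivity
  · have hn0 : (0 : ℝ) < n := by exact_mod_cast Nat.pos_of_ne_zero hn
    rw [LSeries.norm_term_eq, if_neg hn, div_le_iff₀ (by positivity)]
    have h1 : ‖tw ψ (bb c X L) n‖ ≤ ab2 c n * (Real.exp 9 * Real.exp (3 * (L - Real.log n))) := by
      refine (norm_tw_le hψ _ n).trans ?_
      unfold bb
      refine (norm_tl_le _ _ _).trans ?_
      rw [norm_mul, Complex.norm_real, Real.norm_of_nonneg (Ph_nn _)]
      have := ab2_nn c n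
      gcongr
      · exact Ph_nn _
      · exact cX_le c X n
      · exact Ph_decay _
    refine h1.trans (le_of_eq ?_)
    have h3 : Real.exp (3 * (L - Real.log n)) = Real.exp (3 * L) * (n : ℝ) ^ (-3 : ℝ) := by
      rw [Real.rpow_def_of_pos hn0, ← Real.exp_add]
      congr 1
      ring
    rw [h3]
    have h4 : (n : ℝ) ^ (-(s.re + 3)) * (n : ℝ) ^ s.re = (n : ℝ) ^ (-3 : ℝ) := by
      rw [← Real.rpow_add hn0]
      congr 1
      ring
    calc ab2 c n * (Real.exp 9 * (Real.exp (3 * L) * (n : ℝ) ^ (-3 : ℝ)))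
        = Real.exp 9 * Real.exp (3 * L) * (ab2 c n * ((n : ℝ) ^ (-3 : ℝ))) := by ring
      _ = _ := by rw [← h4]; ring

lemma bb_diff {c ψ : ℕ → ℂ} (hL : Lin c) (hψ : ∀ n, ‖ψ n‖ ≤ 1) (X : ℕ) (L : ℝ) {s : ℂ}
    (hs : -1 < s.re) : DifferentiableAt ℂ (LSeries (tw ψ (bb c X L))) s := by
  have h1 : LSeries.abscissaOfAbsConv (tw ψ (bb c X L)) ≤ ((-1 : ℝ) : EReal) :=
    LSeries.abscissaOfAbsConv_le_of_forall_lt_LSeriesSummable fun y hy =>
      bb_ls hL hψ X L (by simpa using hy)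
  exact (LSeries_hasDerivAt (lt_of_le_of_lt h1 (by exact_mod_cast hs))).differentiableAt

/-- the sums of the squares of the coefficients -/
def SB (c : ℕ → ℂ) (θ S : ℝ) : Prop := ∀ N : ℕ, ∑ n ∈ Icc 1 N, ab4 c n * (n : ℝ) ^ (-(1 + θ)) ≤ S

lemma SB.nn {c : ℕ → ℂ} {θ S : ℝ} (h : SB c θ S) : 0 ≤ S := by simpa using h 0

/-- the tail -/
theorem bound_A (h : LSv I ψ H P η) {c : ℕ → ℂ} (hL : Lin c) {θ S σ Y : ℝ} {X : ℕ} {s : ℂ}
    (hSB : SB c θ S) (hX : 1 ≤ X) (hY : 1 ≤ Y) (hθ : 0 ≤ θ) (hηθ : η + θ ≤ 1 / 2)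
    (hσ : 1 / 2 ≤ σ) (hσ' : σ ≤ 1) (hs : σ ≤ s.re) :
    ∑ i ∈ I, ‖LSeries (tw (ψ i) (bb c X (Real.log Y))) s‖ ^ 2 ≤
      10 * (2 : ℝ) ^ η * H * (16 * Real.exp 18 * (P * (X : ℝ) ^ (1 - 2 * σ) + Y ^ (2 - 2 * σ)) *
        ((1 + Real.log Y) ^ 2 * Y ^ (η + θ)) * S) := by
  have hP := h.P_ge
  have hη := h.η_nn
  have hY0 : 0 < Y := by linarith
  refine h.ser hs (fun i hi => bb_ls hL (h.norm_le i hi) X _ (by linarith)) fun N => ?_
  refine le_trans ?_ (mul_le_mul_of_nonneg_left (hSB N) (by positivity))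
  rw [Finset.mul_sum]
  refine Finset.sum_le_sum fun n hn => ?_
  rw [mem_Icc] at hn
  have hn0 : (0 : ℝ) < n := by exact_mod_cast hn.1
  have hG := ab4_nn c n
  unfold bb tl
  split_ifs with hnX
  · rw [norm_zero]
    have : (0 : ℝ) ≤ 16 * Real.exp 18 * (P * (X : ℝ) ^ (1 - 2 * σ) + Y ^ (2 - 2 * σ)) *
        ((1 + Real.log Y) ^ 2 * Y ^ (η + θ)) * (ab4 c n * (n : ℝ) ^ (-(1 + θ))) := by positivity
    simpa using this
  · have h1 := wA_le (P := P) (η := η) (θ := θ) (σ := σ) (Y := Y) hX (by omega : X < n) hY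
      (by linarith) hη hθ hηθ hσ hσ'
    have h2 : ‖cX c X n * ((Ph (Real.log Y - Real.log n) : ℝ) : ℂ)‖ ^ 2 ≤
        ab4 c n * Ph (Real.log Y - Real.log n) ^ 2 := by
      rw [norm_mul, Complex.norm_real, Real.norm_of_nonneg (Ph_nn _), mul_pow]
      have h3 := pow_le_pow_left₀ (norm_nonneg _) (cX_le c X n) 2
      have h4 := ab2_sq c n
      gcongr
      linarith
    have hw := wt_nn (show 0 ≤ P by linarith) η n
    calc wt P η n * (‖cX c X n * ((Ph (Real.log Y - Real.log n) : ℝ) : ℂ)‖ ^ 2 *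
          (n : ℝ) ^ (-(2 * σ)))
        ≤ wt P η n * ((ab4 c n * Ph (Real.log Y - Real.log n) ^ 2) * (n : ℝ) ^ (-(2 * σ))) := by
          gcongr
      _ = ab4 c n * (wt P η n * (Ph (Real.log Y - Real.log n) ^ 2 * (n : ℝ) ^ (-(2 * σ)))) := by
          ring
      _ ≤ ab4 c n * (16 * Real.exp 18 * (P * (X : ℝ) ^ (1 - 2 * σ) + Y ^ (2 - 2 * σ)) *
        ((1 + Real.log Y) ^ 2 * Y ^ (η + θ)) * (n : ℝ) ^ (-(1 + θ))) := by gcongr
      _ = _ := by ring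

lemma cv_supp {f g : ℕ → ℂ} {N X n : ℕ} (hn : N * X < n) : cv (cut N f) (cut X g) n = 0 := by
  unfold cv
  refine Finset.sum_eq_zero fun p hp => ?_
  rw [Nat.mem_divisorsAntidiagonal] at hp
  unfold cut
  split_ifs with h1 h2
  · exfalso
    have := Nat.mul_le_mul h1 h2
    rw [hp.1] at this
    omega
  all_goals simp

lemma cv_tl {f g : ℕ → ℂ} {N n : ℕ} (hn : n ≤ N) : cv (tl N f) g n = 0 := by
  unfold cv
  refine Finset.sum_eq_zero fun p hp => ?_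
  rw [Nat.mem_divisorsAntidiagonal] at hp
  have hp1 : p.1 ≤ N := by
    refine le_trans ?_ hn
    rw [← hp.1]
    exact Nat.le_mul_of_pos_right _ (Nat.pos_of_ne_zero fun h => by
      rw [h, mul_zero] at hp; exact hp.2 hp.1.symm)
  unfold tl
  rw [if_pos hp1, zero_mul]

/-- the mean square on the critical line -/
theorem bound_B (h : LSv I ψ H P η) (hm : ∀ i ∈ I, ∀ k n, ψ i (k * n) = ψ i k * ψ i n) {c : ℕ → ℂ}
    {θ S : ℝ} {N X : ℕ} (hSB : SB c θ S) (hθ : 0 ≤ θ) (hN : 1 ≤ N) (hX : 1 ≤ X) (t : ℝ) :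
    ∑ i ∈ I, ‖Dz c (ψ i) N (pt (1 / 2) t) * Ml c (ψ i) X (pt (1 / 2) t)‖ ^ 2 ≤
      H * (P + (N * X : ℕ)) * ((N * X : ℕ) : ℝ) ^ (η + θ) * S := by
  have hP := h.P_ge
  have hH := h.H_nn
  set u := cv (cut N (E c)) (cut X (E fun k => -c k)) with hu
  have hNX : (0 : ℝ) < ((N * X : ℕ) : ℝ) := by exact_mod_cast Nat.mul_pos hN hX
  have e1 : ∀ i ∈ I, ‖Dz c (ψ i) N (pt (1 / 2) t) * Ml c (ψ i) X (pt (1 / 2) t)‖ =
      ‖∑ n ∈ Icc 1 (N * X), (u n * (n : ℂ) ^ (-pt (1 / 2) t)) * ψ i n‖ := by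
    intro i hi
    have hz : (1 - conj (pt (1 / 2) t)) = pt (1 / 2) t := by
      apply Complex.ext
      · simp; norm_num
      · simp
    have h1 : ‖Dz c (ψ i) N (pt (1 / 2) t)‖ = ‖LSeries (tw (ψ i) (cut N (E c))) (pt (1 / 2) t)‖ := by
      unfold Dz rfl1
      rw [RCLike.norm_conj, hz, tw_cut]
    have h2 : Ml c (ψ i) X (pt (1 / 2) t) =
        LSeries (tw (ψ i) (cut X (E fun k => -c k))) (pt (1 / 2) t) := by
      unfold Ml
      rw [tw_cut]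
    rw [norm_mul, h1, h2, ← norm_mul, LS_mul_tw (hm i hi)
      (ls_tw (h.norm_le i hi) (cut_summable _ _ _)) (ls_tw (h.norm_le i hi) (cut_summable _ _ _)),
      ← hu]
    have h3 : tw (ψ i) u = cut (N * X) (tw (ψ i) u) := by
      funext n
      unfold cut
      split_ifs with h4
      · rfl
      · unfold tw
        rw [hu, cv_supp (by omega), mul_zero]
    rw [h3, LSeries_cut]
    congr 1
    refine Finset.sum_congr rfl fun n _ => ?_
    unfold tw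
    ring
  rw [Finset.sum_congr rfl fun i hi => by rw [e1 i hi]]
  refine (h.ls (N * X) _).trans ?_
  rw [Real.rpow_add hNX]
  have h5 : ∑ n ∈ Icc 1 (N * X), ‖u n * (n : ℂ) ^ (-pt (1 / 2) t)‖ ^ 2 ≤
      ((N * X : ℕ) : ℝ) ^ θ * S := by
    refine le_trans ?_ (mul_le_mul_of_nonneg_left (hSB (N * X)) (by positivity))
    rw [Finset.mul_sum]
    refine Finset.sum_le_sum fun n hn => ?_
    rw [mem_Icc] at hn
    have hn0 : (0 : ℝ) < n := by exact_mod_cast hn.1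
    have hnN : (n : ℝ) ≤ ((N * X : ℕ) : ℝ) := by exact_mod_cast hn.2
    rw [norm_mul, Complex.norm_natCast_cpow_of_pos (by omega), neg_re, pt_re, mul_pow,
      ← Real.rpow_natCast ((n : ℝ) ^ (-(1 / 2) : ℝ)), ← Real.rpow_mul hn0.le]
    have h6 : ‖u n‖ ^ 2 ≤ ab4 c n := by
      have h7 : ‖u n‖ ≤ ab2 c n := cv_le
        (fun n => (norm_cut_le _ _ _).trans (norm_E_le c n))
        (fun n => (norm_cut_le _ _ _).trans (norm_neg_E_le c n)) n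
      exact (pow_le_pow_left₀ (norm_nonneg _) h7 2).trans (ab2_sq c n)
    have h8 : (n : ℝ) ^ (-(1 / 2) * ((2 : ℕ) : ℝ)) = (n : ℝ) ^ θ * (n : ℝ) ^ (-(1 + θ)) := by
      rw [← Real.rpow_add hn0]
      congr 1
      push_cast
      ring
    rw [h8]
    have h9 : (n : ℝ) ^ θ ≤ ((N * X : ℕ) : ℝ) ^ θ := Real.rpow_le_rpow hn0.le hnN hθ
    have hG := ab4_nn c n
    calc ‖u n‖ ^ 2 * ((n : ℝ) ^ θ * (n : ℝ) ^ (-(1 + θ)))
        ≤ ab4 c n * (((N * X : ℕ) : ℝ) ^ θ * (n : ℝ) ^ (-(1 + θ))) := by gcongr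
      _ = _ := by ring
  calc H * (P + (N * X : ℕ)) * ((N * X : ℕ) : ℝ) ^ η *
        ∑ n ∈ Icc 1 (N * X), ‖u n * (n : ℂ) ^ (-pt (1 / 2) t)‖ ^ 2
      ≤ H * (P + (N * X : ℕ)) * ((N * X : ℕ) : ℝ) ^ η * (((N * X : ℕ) : ℝ) ^ θ * S) := by
        gcongr
    _ = _ := by ring

/-- the mean square on the line `Re z = -1/2` -/
theorem bound_C (h : LSv I ψ H P η) (hm : ∀ i ∈ I, ∀ k n, ψ i (k * n) = ψ i k * ψ i n) {c : ℕ → ℂ}
    (hL : Lin c) {θ S : ℝ} {N X : ℕ} (hSB : SB c θ S) (hηθ : η + θ ≤ 1 / 2) (hN : 1 ≤ N)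
    (t : ℝ) :
    ∑ i ∈ I, ‖Dt c (ψ i) N (pt (-1 / 2) t) * Ml c (ψ i) X (pt (-1 / 2) t)‖ ^ 2 ≤
      10 * (2 : ℝ) ^ η * H * ((X : ℝ) ^ 4 * (16 * (1 + P / N) *
        ((1 + Real.log N) ^ 2 * (N : ℝ) ^ (η + θ - 1))) * S) := by
  have hP := h.P_ge
  set g : ℕ → ℂ := fun k => E (fun k => -c k) k * (k : ℂ) ^ 2 with hg
  set v := cv (tl N (E c)) (cut X g) with hv
  have hz : (1 - conj (pt (-1 / 2) t)) = pt (3 / 2) t := by
    apply Complex.ext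
    · simp; norm_num
    · simp
  have hgle : ∀ n, ‖cut X g n‖ ≤ (X : ℝ) ^ 2 * E (fun k => ‖c k‖) n := by
    intro n
    have h0 := E_nonneg (κ := fun k => ‖c k‖) (fun k => norm_nonneg _) n
    unfold cut
    split_ifs with h1
    · rw [hg]
      simp only [norm_mul, norm_pow, Complex.norm_natCast]
      have h2 : (n : ℝ) ≤ X := by exact_mod_cast h1
      have h3 := norm_neg_E_le c n
      calc ‖E (fun k => -c k) n‖ * (n : ℝ) ^ 2 ≤ E (fun k => ‖c k‖) n * (X : ℝ) ^ 2 := by gcongr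
        _ = _ := by ring
    · rw [norm_zero]
      positivity
  have hvle : ∀ n, ‖v n‖ ≤ (X : ℝ) ^ 2 * ab2 c n := by
    intro n
    have h1 : ‖v n‖ ≤ (X : ℝ) ^ 2 * cv (E (fun k => ‖c k‖)) (E (fun k => ‖c k‖)) n := by
      rw [hv]
      unfold cv
      rw [Finset.mul_sum]
      refine norm_sum_le_of_le _ fun p _ => ?_
      rw [norm_mul]
      have h1 := (norm_tl_le N (E c) p.1).trans (norm_E_le c p.1)
      have h2 := hgle p.2
      have h3 := norm_nonneg (cut X g p.2)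
      have h4 := (norm_nonneg _).trans h1
      calc ‖tl N (E c) p.1‖ * ‖cut X g p.2‖
          ≤ E (fun k => ‖c k‖) p.1 * ((X : ℝ) ^ 2 * E (fun k => ‖c k‖) p.2) := by gcongr
        _ = _ := by ring
    rw [E_add] at h1
    have : (fun k => ‖c k‖ + ‖c k‖) = fun k => 2 * ‖c k‖ := by funext k; ring
    rw [this] at h1
    exact h1
  have hls : ∀ i ∈ I, LSeriesSummable (tw (ψ i) v) (pt (3 / 2) t) := fun i hi =>
    ls_tw (h.norm_le i hi) (ls_of_le hL hvle (by rw [pt_re]; norm_num))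
  have hlt : ∀ i ∈ I, LSeriesSummable (tw (ψ i) (tl N (E c))) (pt (3 / 2) t) := fun i hi =>
    ls_tw (h.norm_le i hi) (ls_of_le hL (K := 1) (fun n => by
          rw [one_mul]
          refine (norm_tl_le _ _ _).trans ((norm_E_le c n).trans ?_)
          exact E_mono (fun k => norm_nonneg _) (fun k => by
            have := norm_nonneg (c k); linarith) n) (by rw [pt_re]; norm_num))
  have e1 : ∀ i ∈ I, ‖Dt c (ψ i) N (pt (-1 / 2) t) * Ml c (ψ i) X (pt (-1 / 2) t)‖ =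
      ‖LSeries (tw (ψ i) v) (pt (3 / 2) t)‖ := by
    intro i hi
    have h1 : ‖Dt c (ψ i) N (pt (-1 / 2) t)‖ = ‖LSeries (tw (ψ i) (tl N (E c))) (pt (3 / 2) t)‖ := by
      unfold Dt rfl1
      rw [RCLike.norm_conj, hz, tw_tl]
    have h2 : Ml c (ψ i) X (pt (-1 / 2) t) = LSeries (tw (ψ i) (cut X g)) (pt (3 / 2) t) := by
      unfold Ml
      rw [tw_cut, LSeries_cut, LSeries_cut]
      refine Finset.sum_congr rfl fun n hn => ?_
      rw [mem_Icc] at hn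
      have hn0 : (n : ℂ) ≠ 0 := by exact_mod_cast (show n ≠ 0 by omega)
      unfold tw
      rw [hg]
      simp only
      have h3 : (n : ℂ) ^ 2 * (n : ℂ) ^ (-pt (3 / 2) t) = (n : ℂ) ^ (-pt (-1 / 2) t) := by
        rw [← Complex.cpow_ofNat, ← Complex.cpow_add _ _ hn0]
        congr 1
        unfold pt
        push_cast
        ring
      rw [← h3]
      ring
    rw [norm_mul, h1, h2, ← norm_mul, LS_mul_tw (hm i hi) (hlt i hi)
      (ls_tw (h.norm_le i hi) (cut_summable _ _ _))]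
  rw [Finset.sum_congr rfl fun i hi => by rw [e1 i hi]]
  refine h.ser (σ := 3 / 2) (by rw [pt_re]) hls fun M => ?_
  refine le_trans ?_ (mul_le_mul_of_nonneg_left (hSB M) (by positivity))
  rw [Finset.mul_sum]
  refine Finset.sum_le_sum fun n hn => ?_
  rw [mem_Icc] at hn
  have hn0 : (0 : ℝ) < n := by exact_mod_cast hn.1
  have hG := ab4_nn c n
  rcases Nat.lt_or_ge N n with h1 | h1
  · have h2 := wC_le (P := P) (η := η) (θ := θ) hN h1 (by linarith) hηθ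
    have h3 : ‖v n‖ ^ 2 ≤ (X : ℝ) ^ 4 * ab4 c n := by
      refine (pow_le_pow_left₀ (norm_nonneg _) (hvle n) 2).trans ?_
      rw [mul_pow, ← pow_mul]
      have := ab2_sq c n
      gcongr
    have hw := wt_nn (show 0 ≤ P by linarith) η n
    have h4 : (-(2 * (3 / 2 : ℝ))) = -3 := by norm_num
    rw [h4]
    calc wt P η n * (‖v n‖ ^ 2 * (n : ℝ) ^ (-3 : ℝ))
        ≤ wt P η n * (((X : ℝ) ^ 4 * ab4 c n) * (n : ℝ) ^ (-3 : ℝ)) := by gcongr
      _ = (X : ℝ) ^ 4 * ab4 c n * (wt P η n * (n : ℝ) ^ (-3 : ℝ)) := by ring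
      _ ≤ (X : ℝ) ^ 4 * ab4 c n * (16 * (1 + P / N) * ((1 + Real.log N) ^ 2 *
          (N : ℝ) ^ (η + θ - 1)) * (n : ℝ) ^ (-(1 + θ))) := by gcongr
      _ = _ := by ring
  · rw [hv, cv_tl h1, norm_zero]
    have : (0 : ℝ) ≤ (X : ℝ) ^ 4 * (16 * (1 + P / N) * ((1 + Real.log N) ^ 2 *
        (N : ℝ) ^ (η + θ - 1))) * (ab4 c n * (n : ℝ) ^ (-(1 + θ))) := by positivity
    simpa using this

end Pool.Agent.R399.TW
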