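import Pool.Agent.R399.TW.Bnd

/-!
# The number of members with a zero in a disc
-/

set_option autoImplicit false

namespace Pool.Agent.R399.TW

open Finset Filter Topology Complex MeasureTheory
open ArithmeticFunction (vonMangoldt)
open scoped ComplexConjugate

lemma LSv.mono {ι : Type} {I J : Finset ι} {ψ : ι → ℕ → ℂ} {H P η : ℝ} (h : LSv I ψ H P η)
    (hJ : J ⊆ I) : LSv J ψ H P η where
  H_nn := h.H_nn
  P_ge := h.P_ge
  η_nn := h.η_nn
  norm_le := fun i hi => h.norm_le i (hJ hi)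
  ls := fun N b => (Finset.sum_le_sum_of_subset_of_nonneg hJ fun i _ _ => by positivity).trans
    (h.ls N b)

lemma int_norm_mul {μ : Measure ℝ} {g : ℝ → ℂ} {κ : ℝ → ℝ} {B : ℝ} (h0 : ∀ t, 0 ≤ κ t)
    (hκ : Integrable κ μ) (hg : AEStronglyMeasurable g μ) (hB : ∀ t, ‖g t‖ ^ 2 ≤ B) :
    Integrable (fun t => ‖g t‖ * κ t) μ := by
  refine (hκ.const_mul (1 + B)).mono' (hg.norm.mul hκ.aestronglyMeasurable)
    (Eventually.of_forall fun t => ?_)
  rw [Real.norm_of_nonneg (mul_nonneg (by positivity) (h0 t))]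
  have h1 := h0 t
  have h2 : ‖g t‖ ≤ 1 + ‖g t‖ ^ 2 := by nlinarith [sq_nonneg (‖g t‖ - 1), norm_nonneg (g t)]
  have h3 := hB t
  exact mul_le_mul_of_nonneg_right (by linarith) h1

/-- the Gaussian moment -/
noncomputable def gI (m : ℕ) : ℝ := ∫ t : ℝ, (1 + |t|) ^ m * Real.exp (-(t ^ 2) / 2)

lemma gI_int (m : ℕ) : Integrable fun t : ℝ => (1 + |t|) ^ m * Real.exp (-(t ^ 2) / 2) := by
  have h1 := (exp_abs_int (c := 1) one_pos).const_mul (Real.exp (((m : ℝ) + 1) ^ 2 / 2))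
  refine h1.mono' ?_ (Eventually.of_forall fun t => ?_)
  · have : Continuous fun t : ℝ => (1 + |t|) ^ m * Real.exp (-(t ^ 2) / 2) := by fun_prop
    exact this.aestronglyMeasurable
  · rw [Real.norm_of_nonneg (by positivity), ← Real.exp_add]
    have h2 : (1 + |t|) ^ m ≤ Real.exp (m * |t|) := by
      rw [Real.exp_nat_mul]
      refine pow_le_pow_left₀ (by positivity) ?_ m
      have := Real.add_one_le_exp |t|
      linarith
    calc (1 + |t|) ^ m * Real.exp (-(t ^ 2) / 2)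
        ≤ Real.exp (m * |t|) * Real.exp (-(t ^ 2) / 2) := by gcongr
      _ = Real.exp (m * |t| + -(t ^ 2) / 2) := by rw [Real.exp_add]
      _ ≤ _ := by
        apply Real.exp_le_exp.2
        have h3 : t ^ 2 = |t| ^ 2 := (sq_abs t).symm
        rw [h3]
        nlinarith [sq_nonneg ((m : ℝ) + 1 - |t|)]

lemma gI_nn (m : ℕ) : 0 ≤ gI m := integral_nonneg fun t => by positivity

lemma gint (m : ℕ) (γ : ℝ) : Integrable (fun t : ℝ => (1 + |t|) ^ m * Real.exp (-((t - γ) ^ 2) / 2)) ∧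
    ∫ t : ℝ, (1 + |t|) ^ m * Real.exp (-((t - γ) ^ 2) / 2) ≤ (1 + |γ|) ^ m * gI m := by
  have hle : ∀ t : ℝ, (1 + |t|) ^ m * Real.exp (-((t - γ) ^ 2) / 2) ≤
      (1 + |γ|) ^ m * ((1 + |t - γ|) ^ m * Real.exp (-((t - γ) ^ 2) / 2)) := by
    intro t
    rw [← mul_assoc, ← mul_pow]
    have h1 : 1 + |t| ≤ (1 + |γ|) * (1 + |t - γ|) := by
      have h2 : |t| ≤ |t - γ| + |γ| := by
        have := abs_add_le (t - γ) γ
        simpa using this
      nlinarith [abs_nonneg γ, abs_nonneg (t - γ)]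
    gcongr
  have h1 := ((gI_int m).comp_sub_right γ).const_mul ((1 + |γ|) ^ m)
  have h2 : Integrable (fun t : ℝ => (1 + |t|) ^ m * Real.exp (-((t - γ) ^ 2) / 2)) := by
    refine h1.mono' ?_ (Eventually.of_forall fun t => ?_)
    · have : Continuous fun t : ℝ => (1 + |t|) ^ m * Real.exp (-((t - γ) ^ 2) / 2) := by fun_prop
      exact this.aestronglyMeasurable
    · rw [Real.norm_of_nonneg (by positivity)]
      exact hle t
  refine ⟨h2, ?_⟩
  refine (integral_mono h2 h1 hle).trans (le_of_eq ?_)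
  rw [integral_const_mul, integral_sub_right_eq_self
    (fun t : ℝ => (1 + |t|) ^ m * Real.exp (-(t ^ 2) / 2))]
  rfl

lemma Kr_le (L : ℝ) {ρ : ℂ} {x δ γ₀ : ℝ} (hδ : 0 < δ) (h : δ ≤ |x - ρ.re|)
    (hγ : |ρ.im - γ₀| ≤ 1) (t : ℝ) :
    ‖Kr L ρ (pt x t)‖ ≤ Real.exp ((x - ρ.re) ^ 2 + L * (x - ρ.re)) *
      (Real.exp 1 * Real.exp (-((t - γ₀) ^ 2) / 2)) / δ := by
  unfold Kr
  rw [norm_div, norm_KN]
  have h1 : δ ≤ ‖pt x t - ρ‖ := by
    refine h.trans ?_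
    have := Complex.abs_re_le_norm (pt x t - ρ)
    rwa [sub_re, pt_re] at this
  have h2 : Real.exp (-(t - ρ.im) ^ 2) ≤ Real.exp 1 * Real.exp (-((t - γ₀) ^ 2) / 2) := by
    rw [← Real.exp_add]
    apply Real.exp_le_exp.2
    have h3 : (ρ.im - γ₀) ^ 2 ≤ 1 := by
      rw [← sq_abs]
      nlinarith [abs_nonneg (ρ.im - γ₀)]
    nlinarith [sq_nonneg (t - ρ.im - (ρ.im - γ₀))]
  gcongr

lemma LSeries_tl_cont {c ψ : ℕ → ℂ} (hL : Lin c) (hψ : ∀ n, ‖ψ n‖ ≤ 1) (N : ℕ) :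
    Continuous fun t : ℝ => Dt c ψ N (pt (-1 / 2) t) := by
  have hz : ∀ t : ℝ, (1 - conj (pt (-1 / 2) t)) = pt (3 / 2) t := by
    intro t
    apply Complex.ext
    · simp; norm_num
    · simp
  have h1 : LSeries.abscissaOfAbsConv (tl N (tw ψ (E c))) ≤ ((1 : ℝ) : EReal) :=
    LSeries.abscissaOfAbsConv_le_of_forall_lt_LSeriesSummable fun y hy => by
      rw [← tw_tl]
      exact ls_tw hψ (ls_of_le hL (K := 1) (fun n => by
          rw [one_mul]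
          refine (norm_tl_le _ _ _).trans ((norm_E_le c n).trans ?_)
          exact E_mono (fun k => norm_nonneg _) (fun k => by
            have := norm_nonneg (c k); linarith) n) (by simpa using hy))
  have h2 : ∀ t : ℝ, ContinuousAt (LSeries (tl N (tw ψ (E c)))) (pt (3 / 2) t) := fun t =>
    (LSeries_hasDerivAt (lt_of_le_of_lt h1 (by rw [pt_re]; exact_mod_cast (by norm_num)))).continuousAt
  have h3 : Continuous fun t : ℝ => LSeries (tl N (tw ψ (E c))) (pt (3 / 2) t) :=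
    continuous_iff_continuousAt.2 fun t => (h2 t).comp (pt_cont _).continuousAt
  unfold Dt rfl1
  simp only [hz]
  exact Complex.continuous_conj.comp h3

/-- **the cell bound** -/
theorem cell (m : ℕ) : ∃ K : ℝ, 0 ≤ K ∧ ∀ {ι : Type} (I : Finset ι) (ψ : ι → ℕ → ℂ)
    (F : ι → ℂ → ℂ) (ρ : ι → ℂ) (c : ℕ → ℂ) (R V H P η θ S σ σ' Y r : ℝ) (X N : ℕ) (s₀ : ℂ),
    LSv I ψ H P η → (∀ i ∈ I, Mem c R V m (ψ i) (F i)) → Lin c → SB c θ S →
    0 ≤ R → 0 ≤ V → 0 ≤ θ → η + θ ≤ 1 / 2 → 1 ≤ X → 1 ≤ N → 1 ≤ Y → 1 / 2 < σ → 1 / 2 ≤ σ' →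
    σ' ≤ 1 → 0 < r → r ≤ 1 → σ' ≤ s₀.re - 2 * r → (∀ i ∈ I, σ ≤ (ρ i).re ∧ (ρ i).re ≤ 1) →
    (∀ i ∈ I, ‖ρ i - s₀‖ ≤ r) → (∀ i ∈ I, F i (ρ i) = 0) →
    (I.card : ℝ) ≤ K * H * S * ((P * (X : ℝ) ^ (1 - 2 * σ') + Y ^ (2 - 2 * σ')) *
        ((1 + Real.log Y) ^ 2 * Y ^ (η + θ)) +
      Y ^ (1 - 2 * σ) / (σ - 1 / 2) ^ 2 * ((P + (N * X : ℕ)) * ((N * X : ℕ) : ℝ) ^ (η + θ)) +
      (R * (V * (1 + |s₀.im|)) ^ m) ^ 2 * Y ^ (-1 - 2 * σ) * ((X : ℝ) ^ 4 * (1 + P / N) *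
        ((1 + Real.log N) ^ 2 * (N : ℝ) ^ (η + θ - 1)))) := by
  have hg0 := gI_nn 0
  have hgm := gI_nn m
  set K₁ : ℝ := 12 * (4 * (10 * 2 * (16 * Real.exp 18))) with hK₁
  set K₂ : ℝ := 12 * (Real.exp 2 * gI 0) ^ 2 with hK₂
  set K₃ : ℝ := 12 * (10 * 2 * 16 * (Real.exp 4 * gI m) ^ 2) with hK₃
  have hK₁0 : 0 ≤ K₁ := by positivity
  have hK₂0 : 0 ≤ K₂ := by positivity
  have hK₃0 : 0 ≤ K₃ := by positivity
  refine ⟨K₁ + K₂ + K₃, by positivity, ?_⟩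
  intro ι I ψ F ρ c R V H P η θ S σ σ' Y r X N s₀ hls hM hL hSB hR hV hθ hηθ hX hN hY hσ hσ'
    hσ'1 hr hr1 hs₀ hρ hρ2 hF
  have hP := hls.P_ge
  have hH := hls.H_nn
  have hη := hls.η_nn
  have hS := hSB.nn
  have hY0 : 0 < Y := by linarith
  have hlY : 0 ≤ Real.log Y := Real.log_nonneg hY
  have h2η : (2 : ℝ) ^ η ≤ 2 := by
    have := Real.rpow_le_rpow_of_exponent_le (show (1 : ℝ) ≤ 2 by norm_num)
      (show η ≤ 1 by linarith)
    rwa [Real.rpow_one] at this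
  have hm' : ∀ i ∈ I, ∀ k n, ψ i (k * n) = ψ i k * ψ i n := fun i hi => (hM i hi).mul
  have hδ : 0 < σ - 1 / 2 := by linarith
  set L := Real.log Y with hLdef
  -- choose the factors
  have hch : ∀ i : ι, ∃ ε : ℂ → ℂ, i ∈ I → Eps R V m (F i) ε := by
    intro i
    by_cases hi : i ∈ I
    · obtain ⟨ε, hε⟩ := (hM i hi).fe
      exact ⟨ε, fun _ => hε⟩
    · exact ⟨0, fun h => absurd h hi⟩
  choose ε hε using hch
  -- the three parts
  set A : ι → ℝ := fun i => ‖LSeries (tw (ψ i) (bb c X L)) (ρ i)‖ with hA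
  set J₁ : ι → ℝ := fun i => ‖∫ t : ℝ, ε i (pt (1 / 2) t) * (Dz c (ψ i) N (pt (1 / 2) t) *
    Ml c (ψ i) X (pt (1 / 2) t)) * Kr L (ρ i) (pt (1 / 2) t)‖ with hJ₁
  set J₂ : ι → ℝ := fun i => ‖∫ t : ℝ, ε i (pt (-1 / 2) t) * (Dt c (ψ i) N (pt (-1 / 2) t) *
    Ml c (ψ i) X (pt (-1 / 2) t)) * Kr L (ρ i) (pt (-1 / 2) t)‖ with hJ₂
  have key : ∀ i ∈ I, (1 / 12 : ℝ) ≤ A i ^ 2 + J₁ i ^ 2 + J₂ i ^ 2 := by
    intro i hi
    have h1 := zero_id hL (hM i hi) (hε i hi) hX N L (ρ := ρ i)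
      (by linarith [(hρ i hi).1]) (hρ i hi).2 (hF i hi)
    set a := LSeries (tw (ψ i) (bb c X L)) (ρ i) with ha
    set j₁ := ∫ t : ℝ, ε i (pt (1 / 2) t) * (Dz c (ψ i) N (pt (1 / 2) t) *
      Ml c (ψ i) X (pt (1 / 2) t)) * Kr L (ρ i) (pt (1 / 2) t) with hj₁
    set j₂ := ∫ t : ℝ, ε i (pt (-1 / 2) t) * (Dt c (ψ i) N (pt (-1 / 2) t) *
      Ml c (ψ i) X (pt (-1 / 2) t)) * Kr L (ρ i) (pt (-1 / 2) t) with hj₂
    have h2 : (1 / 2 : ℝ) ≤ Ph L := half_le_Ph hlY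
    have hpi := Real.pi_gt_three
    have h3 : 2 * Real.pi * Ph L ≤ 2 * Real.pi * ‖a‖ + ‖j₁‖ + ‖j₂‖ := by
      have h4 : (((2 * Real.pi * Ph L : ℝ)) : ℂ) = j₁ + j₂ - 2 * Real.pi * a := by
        rw [← h1]
        push_cast
        ring
      have h5 : ‖(((2 * Real.pi * Ph L : ℝ)) : ℂ)‖ = 2 * Real.pi * Ph L := by
        rw [Complex.norm_real, Real.norm_of_nonneg (by positivity)]
      rw [← h5, h4]
      refine (norm_sub_le _ _).trans ?_
      have h6 := norm_add_le j₁ j₂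
      have h7 : ‖(2 * Real.pi * a : ℂ)‖ = 2 * Real.pi * ‖a‖ := by
        rw [norm_mul, norm_mul, Complex.norm_real, Complex.norm_ofNat,
          Real.norm_of_nonneg (by positivity)]
      rw [h7]
      linarith
    have hA' : A i = ‖a‖ := rfl
    have hJ₁' : J₁ i = ‖j₁‖ := rfl
    have hJ₂' : J₂ i = ‖j₂‖ := rfl
    rw [hA', hJ₁', hJ₂']
    have n1 := norm_nonneg a
    have n2 := norm_nonneg j₁
    have n3 := norm_nonneg j₂
    have h8 : 1 / 2 ≤ ‖a‖ + ‖j₁‖ + ‖j₂‖ := by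
      have h9 : 2 * Real.pi * (1 / 2) ≤ 2 * Real.pi * (‖a‖ + ‖j₁‖ + ‖j₂‖) := by
        have h10 : 2 * Real.pi * (1 / 2) ≤ 2 * Real.pi * Ph L := by gcongr
        have h11 : ‖j₁‖ ≤ 2 * Real.pi * ‖j₁‖ := by nlinarith
        have h12 : ‖j₂‖ ≤ 2 * Real.pi * ‖j₂‖ := by nlinarith
        nlinarith
      exact le_of_mul_le_mul_left h9 (by positivity)
    nlinarith [sq_nonneg (‖a‖ - ‖j₁‖), sq_nonneg (‖a‖ - ‖j₂‖), sq_nonneg (‖j₁‖ - ‖j₂‖)]
  -- the tail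
  have hsumA : ∑ i ∈ I, A i ^ 2 ≤ 4 * (10 * (2 : ℝ) ^ η * H * (16 * Real.exp 18 *
      (P * (X : ℝ) ^ (1 - 2 * σ') + Y ^ (2 - 2 * σ')) *
        ((1 + Real.log Y) ^ 2 * Y ^ (η + θ)) * S)) := by
    refine disc_le I (fun i => LSeries (tw (ψ i) (bb c X L))) ρ hr (fun i hi => ?_) hρ2 fun t => ?_
    · apply DifferentiableOn.diffContOnCl
      rw [closure_ball _ (by positivity)]
      intro z hz
      rw [Metric.mem_closedBall, dist_eq_norm] at hz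
      refine (bb_diff hL (hM i hi).le X L ?_).differentiableWithinAt
      have := (abs_le.1 ((Complex.abs_re_le_norm _).trans hz)).1
      rw [sub_re] at this
      linarith
    · refine bound_A hls hL hSB hX hY hθ hηθ hσ' hσ'1 ?_
      have h3 : ‖circleMap s₀ (2 * r) t - s₀‖ = 2 * r := by
        rw [circleMap_sub_center, norm_circleMap_zero, abs_of_pos (by positivity)]
      have := (abs_le.1 ((Complex.abs_re_le_norm _).trans h3.le)).1
      rw [sub_re] at this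
      linarith
  have him : ∀ i ∈ I, |(ρ i).im - s₀.im| ≤ 1 := by
    intro i hi
    have := Complex.abs_im_le_norm (ρ i - s₀)
    rw [sub_im] at this
    linarith [hρ2 i hi]
  -- the critical line
  have hsum1 : ∑ i ∈ I, J₁ i ^ 2 ≤ (H * (P + (N * X : ℕ)) * ((N * X : ℕ) : ℝ) ^ (η + θ) * S) *
      (Real.exp 2 * Real.exp (L * (1 / 2 - σ)) / (σ - 1 / 2) * gI 0) ^ 2 := by
    set C₁ : ℝ := Real.exp 2 * Real.exp (L * (1 / 2 - σ)) / (σ - 1 / 2) with hC₁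
    have hC₁0 : 0 ≤ C₁ := by positivity
    obtain ⟨hi0, hle0⟩ := gint 0 s₀.im
    simp only [pow_zero, one_mul] at hi0 hle0
    set κ : ℝ → ℝ := fun t => C₁ * Real.exp (-((t - s₀.im) ^ 2) / 2) with hκdef
    have hκ : Integrable κ := hi0.const_mul C₁
    have hκ0 : ∀ t, 0 ≤ κ t := fun t => by positivity
    have hmeas : ∀ i ∈ I, AEStronglyMeasurable (fun t : ℝ => Dz c (ψ i) N (pt (1 / 2) t) *
        Ml c (ψ i) X (pt (1 / 2) t)) volume := by
      intro i _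
      have h1 : Differentiable ℂ (Dz c (ψ i) N) := rfl1_diff (cut_diff N _)
      have h2 : Differentiable ℂ (Ml c (ψ i) X) := cut_diff X _
      exact ((h1.continuous.comp (pt_cont _)).mul (h2.continuous.comp (pt_cont _))).aestronglyMeasurable
    have hBd := fun t : ℝ => bound_B (c := c) (θ := θ) (S := S) hls hm' hSB hθ hN hX t
    have h3 := sum_cs I (fun i t => Dz c (ψ i) N (pt (1 / 2) t) * Ml c (ψ i) X (pt (1 / 2) t))
      J₁ hκ0 hκ hmeas hBd (fun i _ => norm_nonneg _) (fun i hi => ?_)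
    · refine h3.trans ?_
      have h4 : ∫ t, κ t ≤ C₁ * gI 0 := by
        rw [hκdef, integral_const_mul]
        exact mul_le_mul_of_nonneg_left hle0 hC₁0
      have h5 : 0 ≤ ∫ t, κ t := integral_nonneg hκ0
      have h6 : 0 ≤ H * (P + (N * X : ℕ)) * ((N * X : ℕ) : ℝ) ^ (η + θ) * S := by positivity
      gcongr
    · refine norm_integral_le_of_norm_le (int_norm_mul hκ0 hκ (hmeas i hi)
        (B := H * (P + (N * X : ℕ)) * ((N * X : ℕ) : ℝ) ^ (η + θ) * S) fun t => ?_)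
        (Eventually.of_forall fun t => ?_)
      · exact (Finset.single_le_sum (f := fun i => ‖Dz c (ψ i) N (pt (1 / 2) t) *
          Ml c (ψ i) X (pt (1 / 2) t)‖ ^ 2) (fun i _ => by positivity) hi).trans (hBd t)
      · have h4 := (hε i hi).mid t
        have hre := hρ i hi
        have h5 := Kr_le L (ρ := ρ i) (x := 1 / 2) hδ
          (by rw [abs_sub_comm, abs_of_nonneg (by linarith)]; linarith) (him i hi) t
        have h6 : Real.exp ((1 / 2 - (ρ i).re) ^ 2 + L * (1 / 2 - (ρ i).re)) ≤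
            Real.exp 1 * Real.exp (L * (1 / 2 - σ)) := by
          rw [← Real.exp_add]
          apply Real.exp_le_exp.2
          have h7 : L * (1 / 2 - (ρ i).re) ≤ L * (1 / 2 - σ) :=
            mul_le_mul_of_nonneg_left (by linarith) hlY
          nlinarith
        have h8 : ‖Kr L (ρ i) (pt (1 / 2) t)‖ ≤ κ t := by
          refine h5.trans ?_
          calc Real.exp ((1 / 2 - (ρ i).re) ^ 2 + L * (1 / 2 - (ρ i).re)) *
                (Real.exp 1 * Real.exp (-((t - s₀.im) ^ 2) / 2)) / (σ - 1 / 2)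
              ≤ (Real.exp 1 * Real.exp (L * (1 / 2 - σ))) *
                (Real.exp 1 * Real.exp (-((t - s₀.im) ^ 2) / 2)) / (σ - 1 / 2) := by gcongr
            _ = κ t := by
                rw [hκdef, hC₁]
                simp only
                rw [show Real.exp 2 = Real.exp 1 * Real.exp 1 by rw [← Real.exp_add]; norm_num]
                ring
        rw [norm_mul, norm_mul (ε i (pt (1 / 2) t))]
        set q := ‖Dz c (ψ i) N (pt (1 / 2) t) * Ml c (ψ i) X (pt (1 / 2) t)‖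
        have hq : 0 ≤ q := norm_nonneg _
        calc ‖ε i (pt (1 / 2) t)‖ * q * ‖Kr L (ρ i) (pt (1 / 2) t)‖ ≤ 1 * q * κ t := by gcongr
          _ = q * κ t := by ring
  -- the left line
  have hsum2 : ∑ i ∈ I, J₂ i ^ 2 ≤ (10 * (2 : ℝ) ^ η * H * ((X : ℝ) ^ 4 * (16 * (1 + P / N) *
        ((1 + Real.log N) ^ 2 * (N : ℝ) ^ (η + θ - 1))) * S)) *
      (R * V ^ m * Real.exp 4 * Real.exp (-(L * (1 / 2 + σ))) * ((1 + |s₀.im|) ^ m * gI m)) ^ 2 := by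
    set C₂ : ℝ := R * V ^ m * Real.exp 4 * Real.exp (-(L * (1 / 2 + σ))) with hC₂
    have hC₂0 : 0 ≤ C₂ := by positivity
    obtain ⟨hi0, hle0⟩ := gint m s₀.im
    set κ : ℝ → ℝ := fun t => C₂ * ((1 + |t|) ^ m * Real.exp (-((t - s₀.im) ^ 2) / 2)) with hκdef
    have hκ : Integrable κ := hi0.const_mul C₂
    have hκ0 : ∀ t, 0 ≤ κ t := fun t => by positivity
    have hmeas : ∀ i ∈ I, AEStronglyMeasurable (fun t : ℝ => Dt c (ψ i) N (pt (-1 / 2) t) *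
        Ml c (ψ i) X (pt (-1 / 2) t)) volume := by
      intro i hi
      have h1 := LSeries_tl_cont hL (hM i hi).le N
      have h2 : Differentiable ℂ (Ml c (ψ i) X) := cut_diff X _
      exact (h1.mul (h2.continuous.comp (pt_cont _))).aestronglyMeasurable
    have hBd := fun t : ℝ => bound_C (c := c) (θ := θ) (S := S) (X := X) hls hm' hL hSB hηθ hN t
    have h3 := sum_cs I (fun i t => Dt c (ψ i) N (pt (-1 / 2) t) * Ml c (ψ i) X (pt (-1 / 2) t))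
      J₂ hκ0 hκ hmeas hBd (fun i _ => norm_nonneg _) (fun i hi => ?_)
    · refine h3.trans ?_
      have h4 : ∫ t, κ t ≤ C₂ * ((1 + |s₀.im|) ^ m * gI m) := by
        rw [hκdef, integral_const_mul]
        exact mul_le_mul_of_nonneg_left hle0 hC₂0
      have h5 : 0 ≤ ∫ t, κ t := integral_nonneg hκ0
      gcongr
    · refine norm_integral_le_of_norm_le (int_norm_mul hκ0 hκ (hmeas i hi)
        (B := 10 * (2 : ℝ) ^ η * H * ((X : ℝ) ^ 4 * (16 * (1 + P / N) *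
        ((1 + Real.log N) ^ 2 * (N : ℝ) ^ (η + θ - 1))) * S)) fun t => ?_)
        (Eventually.of_forall fun t => ?_)
      · exact (Finset.single_le_sum (f := fun i => ‖Dt c (ψ i) N (pt (-1 / 2) t) *
          Ml c (ψ i) X (pt (-1 / 2) t)‖ ^ 2) (fun i _ => by positivity) hi).trans (hBd t)
      · have h4 := (hε i hi).left t
        have hre := hρ i hi
        have h5 := Kr_le L (ρ := ρ i) (x := -1 / 2) (δ := 1) one_pos
          (by rw [abs_sub_comm, abs_of_nonneg (by linarith)]; linarith) (him i hi) t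
        have h6 : Real.exp ((-1 / 2 - (ρ i).re) ^ 2 + L * (-1 / 2 - (ρ i).re)) ≤
            Real.exp 3 * Real.exp (-(L * (1 / 2 + σ))) := by
          rw [← Real.exp_add]
          apply Real.exp_le_exp.2
          have h7 : L * (-1 / 2 - (ρ i).re) ≤ -(L * (1 / 2 + σ)) := by nlinarith
          nlinarith
        have h8 : ‖ε i (pt (-1 / 2) t)‖ * ‖Kr L (ρ i) (pt (-1 / 2) t)‖ ≤ κ t := by
          have h9 : ‖Kr L (ρ i) (pt (-1 / 2) t)‖ ≤ Real.exp 3 * Real.exp (-(L * (1 / 2 + σ))) *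
              (Real.exp 1 * Real.exp (-((t - s₀.im) ^ 2) / 2)) := by
            refine h5.trans ?_
            rw [div_one]
            gcongr
          calc ‖ε i (pt (-1 / 2) t)‖ * ‖Kr L (ρ i) (pt (-1 / 2) t)‖
              ≤ (R * (V * (1 + |t|)) ^ m) * (Real.exp 3 * Real.exp (-(L * (1 / 2 + σ))) *
                (Real.exp 1 * Real.exp (-((t - s₀.im) ^ 2) / 2))) := by gcongr
            _ = κ t := by
                rw [hκdef, hC₂]
                simp only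
                rw [show Real.exp 4 = Real.exp 3 * Real.exp 1 by rw [← Real.exp_add]; norm_num,
                  mul_pow]
                ring
        rw [norm_mul, norm_mul (ε i (pt (-1 / 2) t))]
        set q := ‖Dt c (ψ i) N (pt (-1 / 2) t) * Ml c (ψ i) X (pt (-1 / 2) t)‖
        have hq : 0 ≤ q := norm_nonneg _
        calc ‖ε i (pt (-1 / 2) t)‖ * q * ‖Kr L (ρ i) (pt (-1 / 2) t)‖
            = q * (‖ε i (pt (-1 / 2) t)‖ * ‖Kr L (ρ i) (pt (-1 / 2) t)‖) := by ring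
          _ ≤ q * κ t := by gcongr
  -- conclusion
  have hcard : (I.card : ℝ) ≤ 12 * (∑ i ∈ I, A i ^ 2 + ∑ i ∈ I, J₁ i ^ 2 + ∑ i ∈ I, J₂ i ^ 2) := by
    have h1 : ∑ i ∈ I, (1 / 12 : ℝ) ≤ ∑ i ∈ I, (A i ^ 2 + J₁ i ^ 2 + J₂ i ^ 2) :=
      Finset.sum_le_sum key
    rw [Finset.sum_const, nsmul_eq_mul, Finset.sum_add_distrib, Finset.sum_add_distrib] at h1
    linarith
  have hY1 : Real.exp (L * (1 / 2 - σ)) ^ 2 = Y ^ (1 - 2 * σ) := by
    rw [← Real.exp_nat_mul, Real.rpow_def_of_pos hY0]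
    congr 1
    push_cast
    ring
  have hY2 : Real.exp (-(L * (1 / 2 + σ))) ^ 2 = Y ^ (-1 - 2 * σ) := by
    rw [← Real.exp_nat_mul, Real.rpow_def_of_pos hY0]
    congr 1
    push_cast
    ring
  set T₁ : ℝ := (P * (X : ℝ) ^ (1 - 2 * σ') + Y ^ (2 - 2 * σ')) *
        ((1 + Real.log Y) ^ 2 * Y ^ (η + θ)) with hT₁
  set T₂ : ℝ := Y ^ (1 - 2 * σ) / (σ - 1 / 2) ^ 2 * ((P + (N * X : ℕ)) *
    ((N * X : ℕ) : ℝ) ^ (η + θ)) with hT₂
  set T₃ : ℝ := (R * (V * (1 + |s₀.im|)) ^ m) ^ 2 * Y ^ (-1 - 2 * σ) * ((X : ℝ) ^ 4 * (1 + P / N) *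
        ((1 + Real.log N) ^ 2 * (N : ℝ) ^ (η + θ - 1))) with hT₃
  have hT₁0 : 0 ≤ T₁ := by positivity
  have hT₂0 : 0 ≤ T₂ := by positivity
  have hT₃0 : 0 ≤ T₃ := by positivity
  have q1 : 12 * ∑ i ∈ I, A i ^ 2 ≤ K₁ * H * S * T₁ := by
    calc 12 * ∑ i ∈ I, A i ^ 2 ≤ 12 * (4 * (10 * (2 : ℝ) ^ η * H * (16 * Real.exp 18 *
      (P * (X : ℝ) ^ (1 - 2 * σ') + Y ^ (2 - 2 * σ')) *
        ((1 + Real.log Y) ^ 2 * Y ^ (η + θ)) * S))) := by gcongr
      _ ≤ 12 * (4 * (10 * 2 * H * (16 * Real.exp 18 *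
      (P * (X : ℝ) ^ (1 - 2 * σ') + Y ^ (2 - 2 * σ')) *
        ((1 + Real.log Y) ^ 2 * Y ^ (η + θ)) * S))) := by gcongr
      _ = _ := by rw [hK₁, hT₁]; ring
  have q2 : 12 * ∑ i ∈ I, J₁ i ^ 2 ≤ K₂ * H * S * T₂ := by
    calc 12 * ∑ i ∈ I, J₁ i ^ 2 ≤ 12 * ((H * (P + (N * X : ℕ)) * ((N * X : ℕ) : ℝ) ^ (η + θ) * S) *
      (Real.exp 2 * Real.exp (L * (1 / 2 - σ)) / (σ - 1 / 2) * gI 0) ^ 2) := by gcongr
      _ = _ := by
        rw [hK₂, hT₂, ← hY1]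
        generalize σ - 1 / 2 = d
        generalize Real.exp (L * (1 / 2 - σ)) = E₁
        generalize ((N * X : ℕ) : ℝ) ^ (η + θ) = E₂
        field_simp
  have q3 : 12 * ∑ i ∈ I, J₂ i ^ 2 ≤ K₃ * H * S * T₃ := by
    calc 12 * ∑ i ∈ I, J₂ i ^ 2 ≤ 12 * ((10 * (2 : ℝ) ^ η * H * ((X : ℝ) ^ 4 * (16 * (1 + P / N) *
        ((1 + Real.log N) ^ 2 * (N : ℝ) ^ (η + θ - 1))) * S)) *
      (R * V ^ m * Real.exp 4 * Real.exp (-(L * (1 / 2 + σ))) *
        ((1 + |s₀.im|) ^ m * gI m)) ^ 2) := by gcongr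
      _ ≤ 12 * ((10 * 2 * H * ((X : ℝ) ^ 4 * (16 * (1 + P / N) *
        ((1 + Real.log N) ^ 2 * (N : ℝ) ^ (η + θ - 1))) * S)) *
      (R * V ^ m * Real.exp 4 * Real.exp (-(L * (1 / 2 + σ))) *
        ((1 + |s₀.im|) ^ m * gI m)) ^ 2) := by gcongr
      _ = _ := by
        rw [hK₃, hT₃, ← hY2, mul_pow V]
        ring
  calc (I.card : ℝ) ≤ 12 * (∑ i ∈ I, A i ^ 2 + ∑ i ∈ I, J₁ i ^ 2 + ∑ i ∈ I, J₂ i ^ 2) := hcard
    _ = 12 * ∑ i ∈ I, A i ^ 2 + 12 * ∑ i ∈ I, J₁ i ^ 2 + 12 * ∑ i ∈ I, J₂ i ^ 2 := by ring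
    _ ≤ K₁ * H * S * T₁ + K₂ * H * S * T₂ + K₃ * H * S * T₃ := by linarith
    _ ≤ K₁ * H * S * (T₁ + T₂ + T₃) + K₂ * H * S * (T₁ + T₂ + T₃) +
        K₃ * H * S * (T₁ + T₂ + T₃) := by
        have w1 : T₁ ≤ T₁ + T₂ + T₃ := by linarith
        have w2 : T₂ ≤ T₁ + T₂ + T₃ := by linarith
        have w3 : T₃ ≤ T₁ + T₂ + T₃ := by linarith
        exact add_le_add (add_le_add (mul_le_mul_of_nonneg_left w1 (by positivity))
          (mul_le_mul_of_nonneg_left w2 (by positivity)))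
          (mul_le_mul_of_nonneg_left w3 (by positivity))
    _ = (K₁ + K₂ + K₃) * H * S * (T₁ + T₂ + T₃) := by ring

end Pool.Agent.R399.TW
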