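import Mathlib

/-!
# The coefficients of the exponential of a Dirichlet series

`E κ` are the coefficients of `exp (∑ Λ(n) κ(n) / log n · n^(-s))`, defined by the recursion
`E κ n log n = ∑_{d e = n} Λ(d) κ(d) E κ e`.
-/

set_option autoImplicit false

namespace Pool.Agent.R399.TW

open Finset
open ArithmeticFunction (vonMangoldt)

variable {𝕜 : Type} [RCLike 𝕜]

/-- the coefficients of `exp (∑ Λ(n) κ(n) / log n · n^(-s))` -/
noncomputable def E (κ : ℕ → 𝕜) (n : ℕ) : 𝕜 :=
  if n = 0 then 0 else if n = 1 then 1 else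
    ((Real.log n : ℝ) : 𝕜)⁻¹ * ∑ d : {d // d ∈ n.divisors.erase 1},
      ((vonMangoldt (d : ℕ) : ℝ) : 𝕜) * κ d * E κ (n / d)
termination_by n
decreasing_by
  have h1 := d.2
  rw [Finset.mem_erase, Nat.mem_divisors] at h1
  refine Nat.div_lt_self (Nat.pos_of_ne_zero h1.2.2) ?_
  have h2 : (d : ℕ) ≠ 0 := fun h => by
    have := h1.2.1
    rw [h, zero_dvd_iff] at this
    exact h1.2.2 this
  have h3 := h1.1
  omega

lemma E_zero (κ : ℕ → 𝕜) : E κ 0 = 0 := by
  rw [E]; simp

lemma E_one (κ : ℕ → 𝕜) : E κ 1 = 1 := by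
  rw [E]; simp

lemma log_ne {n : ℕ} (hn : 2 ≤ n) : ((Real.log n : ℝ) : 𝕜) ≠ 0 := by
  have : Real.log n ≠ 0 := (Real.log_pos (by exact_mod_cast hn)).ne'
  exact_mod_cast this

/-- the recursion -/
lemma E_rec (κ : ℕ → 𝕜) (n : ℕ) : E κ n * ((Real.log n : ℝ) : 𝕜) =
    ∑ p ∈ n.divisorsAntidiagonal, ((vonMangoldt p.1 : ℝ) : 𝕜) * κ p.1 * E κ p.2 := by
  rcases Nat.lt_or_ge n 2 with h | h
  · interval_cases n
    · simp
    · simp
  · rw [E, if_neg (by omega), if_neg (by omega)]
    rw [Nat.sum_divisorsAntidiagonal (fun a b => ((vonMangoldt a : ℝ) : 𝕜) * κ a * E κ b)]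
    rw [Finset.univ_eq_attach, Finset.sum_attach (n.divisors.erase 1)
      (fun d => ((vonMangoldt d : ℝ) : 𝕜) * κ d * E κ (n / d))]
    rw [Finset.sum_erase _ (by simp)]
    have := log_ne (𝕜 := 𝕜) h
    field_simp

/-- uniqueness -/
lemma E_unique (κ : ℕ → 𝕜) {f : ℕ → 𝕜} (h0 : f 0 = 0) (h1 : f 1 = 1)
    (h : ∀ n, f n * ((Real.log n : ℝ) : 𝕜) =
      ∑ p ∈ n.divisorsAntidiagonal, ((vonMangoldt p.1 : ℝ) : 𝕜) * κ p.1 * f p.2) (n : ℕ) :
    f n = E κ n := by
  induction n using Nat.strong_induction_on with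
  | _ n ih =>
    rcases Nat.lt_or_ge n 2 with hn | hn
    · interval_cases n
      · rw [h0, E_zero]
      · rw [h1, E_one]
    · have e1 := h n
      have e2 := E_rec κ n
      have e3 : ∑ p ∈ n.divisorsAntidiagonal, ((vonMangoldt p.1 : ℝ) : 𝕜) * κ p.1 * f p.2 =
          ∑ p ∈ n.divisorsAntidiagonal, ((vonMangoldt p.1 : ℝ) : 𝕜) * κ p.1 * E κ p.2 := by
        refine Finset.sum_congr rfl fun p hp => ?_
        rw [Nat.mem_divisorsAntidiagonal] at hp
        rcases eq_or_ne p.1 1 with hp1 | hp1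
        · rw [hp1]; simp
        · have hp2 : p.2 < n := by
            have h5 : p.2 ≠ 0 := fun h5 => by rw [h5, mul_zero] at hp; exact hp.2 hp.1.symm
            have h6 : p.1 ≠ 0 := fun h6 => by rw [h6, zero_mul] at hp; exact hp.2 hp.1.symm
            rw [← hp.1]
            have : 2 ≤ p.1 := by omega
            nlinarith [Nat.pos_of_ne_zero h5]
          rw [ih p.2 hp2]
      rw [e3, ← e2] at e1
      exact mul_right_cancel₀ (log_ne hn) e1

/-- twisting by a completely multiplicative function -/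
lemma E_twist (κ ψ : ℕ → 𝕜) (h1 : ψ 1 = 1) (hm : ∀ a b, ψ (a * b) = ψ a * ψ b) (n : ℕ) :
    ψ n * E κ n = E (fun k => ψ k * κ k) n := by
  refine E_unique (fun k => ψ k * κ k) (f := fun n => ψ n * E κ n) (by simp [E_zero])
    (by simp [E_one, h1]) (fun n => ?_) n
  rw [mul_assoc, E_rec, Finset.mul_sum]
  refine Finset.sum_congr rfl fun p hp => ?_
  rw [Nat.mem_divisorsAntidiagonal] at hp
  rw [← hp.1, hm]
  ring

/-- Dirichlet convolution as a sum over the divisors -/
noncomputable def cv (f g : ℕ → 𝕜) (n : ℕ) : 𝕜 := ∑ p ∈ n.divisorsAntidiagonal, f p.1 * g p.2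

/-- a function as an arithmetic function -/
noncomputable def AF (f : ℕ → 𝕜) (h : f 0 = 0) : ArithmeticFunction 𝕜 := ⟨f, h⟩

lemma cv_assoc (f g h : ℕ → 𝕜) (hf : f 0 = 0) (hg : g 0 = 0) (hh : h 0 = 0) (n : ℕ) :
    cv (cv f g) h n = cv f (cv g h) n := by
  have h1 := congrArg (fun F : ArithmeticFunction 𝕜 => F n) (mul_assoc (AF f hf) (AF g hg) (AF h hh))
  simp only [ArithmeticFunction.mul_apply] at h1
  simpa [cv, AF] using h1

lemma cv_comm (f g : ℕ → 𝕜) (n : ℕ) : cv f g n = cv g f n := by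
  unfold cv
  conv_lhs => rw [← Nat.map_swap_divisorsAntidiagonal, Finset.sum_map]
  refine Finset.sum_congr rfl fun p _ => ?_
  simp [mul_comm]

/-- sums of exponents are products -/
lemma E_add (κ κ' : ℕ → 𝕜) (n : ℕ) : cv (E κ) (E κ') n = E (fun k => κ k + κ' k) n := by
  refine E_unique (fun k => κ k + κ' k) (f := fun n => cv (E κ) (E κ') n) (by simp [cv])
    (by simp [cv, E_one]) (fun n => ?_) n
  rcases eq_or_ne n 0 with rfl | hn
  · simp
  set A : ℕ → 𝕜 := fun d => ((vonMangoldt d : ℝ) : 𝕜) * κ d with hA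
  set B : ℕ → 𝕜 := fun d => ((vonMangoldt d : ℝ) : 𝕜) * κ' d with hB
  have hA0 : A 0 = 0 := by simp [hA]
  have hB0 : B 0 = 0 := by simp [hB]
  have e1 : ∀ m, E κ m * ((Real.log m : ℝ) : 𝕜) = cv A (E κ) m := fun m => by
    rw [E_rec]; rfl
  have e2 : ∀ m, E κ' m * ((Real.log m : ℝ) : 𝕜) = cv B (E κ') m := fun m => by
    rw [E_rec]; rfl
  have e3 : cv (E κ) (E κ') n * ((Real.log n : ℝ) : 𝕜) =
      cv (cv A (E κ)) (E κ') n + cv (E κ) (cv B (E κ')) n := by
    unfold cv
    rw [Finset.sum_mul, ← Finset.sum_add_distrib]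
    refine Finset.sum_congr rfl fun p hp => ?_
    rw [Nat.mem_divisorsAntidiagonal] at hp
    have h1 := e1 p.1
    have h2 := e2 p.2
    unfold cv at h1 h2
    rw [← h1, ← h2]
    have hp1 : (p.1 : ℝ) ≠ 0 := by
      have : p.1 ≠ 0 := fun h => by rw [h, zero_mul] at hp; exact hp.2 hp.1.symm
      exact_mod_cast this
    have hp2 : (p.2 : ℝ) ≠ 0 := by
      have : p.2 ≠ 0 := fun h => by rw [h, mul_zero] at hp; exact hp.2 hp.1.symm
      exact_mod_cast this
    have h3 : Real.log n = Real.log p.1 + Real.log p.2 := by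
      rw [← hp.1, Nat.cast_mul, Real.log_mul hp1 hp2]
    rw [h3]
    push_cast
    ring
  have e4 : cv (E κ) (cv B (E κ')) n = cv B (cv (E κ) (E κ')) n := by
    rw [← cv_assoc _ _ _ (E_zero κ) hB0 (E_zero κ')]
    have : cv (E κ) B = cv B (E κ) := funext fun m => cv_comm _ _ m
    rw [this, cv_assoc _ _ _ hB0 (E_zero κ) (E_zero κ')]
  rw [e3, e4, cv_assoc _ _ _ hA0 (E_zero κ) (E_zero κ')]
  have e5 : ∀ f g h : ℕ → 𝕜, cv f h n + cv g h n = cv (fun k => f k + g k) h n := by
    intro f g h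
    unfold cv
    rw [← Finset.sum_add_distrib]
    refine Finset.sum_congr rfl fun p _ => ?_
    ring
  rw [e5]
  unfold cv
  refine Finset.sum_congr rfl fun p _ => ?_
  simp only [hA, hB]
  ring

lemma E_zero_fun (n : ℕ) : E (fun _ => (0 : 𝕜)) n = if n = 1 then 1 else 0 := by
  symm
  refine E_unique (fun _ => (0 : 𝕜)) (f := fun n => if n = 1 then 1 else 0) (by simp) (by simp)
    (fun n => ?_) n
  rcases eq_or_ne n 1 with rfl | hn
  · simp
  · simp [hn]

lemma E_inv (κ : ℕ → 𝕜) (n : ℕ) : cv (E κ) (E (fun k => -κ k)) n = if n = 1 then 1 else 0 := by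
  rw [E_add, ← E_zero_fun (𝕜 := 𝕜)]
  congr 1
  funext k
  ring

/-! ### nonnegative coefficients -/

lemma vm_nn (n : ℕ) : (0 : ℝ) ≤ vonMangoldt n := ArithmeticFunction.vonMangoldt_nonneg

lemma E_nonneg {κ : ℕ → ℝ} (h : ∀ n, 0 ≤ κ n) (n : ℕ) : 0 ≤ E κ n := by
  induction n using Nat.strong_induction_on with
  | _ n ih =>
    rcases Nat.lt_or_ge n 2 with hn | hn
    · interval_cases n
      · rw [E_zero]
      · rw [E_one]; norm_num
    · have hl : 0 < Real.log n := Real.log_pos (by exact_mod_cast hn)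
      have e2 := E_rec κ n
      have e3 : 0 ≤ ∑ p ∈ n.divisorsAntidiagonal, ((vonMangoldt p.1 : ℝ) : ℝ) * κ p.1 * E κ p.2 := by
        refine Finset.sum_nonneg fun p hp => ?_
        rw [Nat.mem_divisorsAntidiagonal] at hp
        rcases eq_or_ne p.1 1 with hp1 | hp1
        · rw [hp1]; simp
        · have hp2 : p.2 < n := by
            have h5 : p.2 ≠ 0 := fun h5 => by rw [h5, mul_zero] at hp; exact hp.2 hp.1.symm
            have h6 : p.1 ≠ 0 := fun h6 => by rw [h6, zero_mul] at hp; exact hp.2 hp.1.symm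
            rw [← hp.1]
            have : 2 ≤ p.1 := by omega
            nlinarith [Nat.pos_of_ne_zero h5]
          exact mul_nonneg (mul_nonneg (vm_nn _) (h _)) (ih _ hp2)
      simp only [RCLike.ofReal_real_eq_id, id] at e2 e3
      rw [← e2] at e3
      exact nonneg_of_mul_nonneg_left e3 hl

lemma E_mono {κ κ' : ℕ → ℝ} (h0 : ∀ n, 0 ≤ κ n) (h : ∀ n, κ n ≤ κ' n) (n : ℕ) :
    E κ n ≤ E κ' n := by
  induction n using Nat.strong_induction_on with
  | _ n ih =>
    rcases Nat.lt_or_ge n 2 with hn | hn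
    · interval_cases n
      · rw [E_zero, E_zero]
      · rw [E_one, E_one]
    · have hl : 0 < Real.log n := Real.log_pos (by exact_mod_cast hn)
      have e1 := E_rec κ n
      have e2 := E_rec κ' n
      simp only [RCLike.ofReal_real_eq_id, id] at e1 e2
      refine le_of_mul_le_mul_right ?_ hl
      rw [e1, e2]
      refine Finset.sum_le_sum fun p hp => ?_
      rw [Nat.mem_divisorsAntidiagonal] at hp
      rcases eq_or_ne p.1 1 with hp1 | hp1
      · rw [hp1]; simp
      · have hp2 : p.2 < n := by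
          have h5 : p.2 ≠ 0 := fun h5 => by rw [h5, mul_zero] at hp; exact hp.2 hp.1.symm
          have h6 : p.1 ≠ 0 := fun h6 => by rw [h6, zero_mul] at hp; exact hp.2 hp.1.symm
          rw [← hp.1]
          have : 2 ≤ p.1 := by omega
          nlinarith [Nat.pos_of_ne_zero h5]
        have := ih _ hp2
        have h1 := vm_nn p.1
        have h2 := E_nonneg h0 p.2
        have h3 := h0 p.1
        have h4 := h p.1
        have h5 : 0 ≤ κ' p.1 := h3.trans h4
        gcongr

lemma norm_E_le (κ : ℕ → 𝕜) (n : ℕ) : ‖E κ n‖ ≤ E (fun k => ‖κ k‖) n := by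
  induction n using Nat.strong_induction_on with
  | _ n ih =>
    rcases Nat.lt_or_ge n 2 with hn | hn
    · interval_cases n
      · rw [E_zero, E_zero]; simp
      · rw [E_one, E_one]; simp
    · have hl : 0 < Real.log n := Real.log_pos (by exact_mod_cast hn)
      have e1 := E_rec κ n
      have e2 := E_rec (fun k => ‖κ k‖) n
      simp only [RCLike.ofReal_real_eq_id, id] at e2
      refine le_of_mul_le_mul_right ?_ hl
      rw [e2]
      have e3 : ‖E κ n‖ * Real.log n = ‖E κ n * ((Real.log n : ℝ) : 𝕜)‖ := by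
        rw [norm_mul, RCLike.norm_ofReal, abs_of_pos hl]
      rw [e3, e1]
      refine (norm_sum_le _ _).trans (Finset.sum_le_sum fun p hp => ?_)
      rw [Nat.mem_divisorsAntidiagonal] at hp
      rcases eq_or_ne p.1 1 with hp1 | hp1
      · rw [hp1]; simp
      · have hp2 : p.2 < n := by
          have h5 : p.2 ≠ 0 := fun h5 => by rw [h5, mul_zero] at hp; exact hp.2 hp.1.symm
          have h6 : p.1 ≠ 0 := fun h6 => by rw [h6, zero_mul] at hp; exact hp.2 hp.1.symm
          rw [← hp.1]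
          have : 2 ≤ p.1 := by omega
          nlinarith [Nat.pos_of_ne_zero h5]
        have := ih _ hp2
        rw [norm_mul, norm_mul, RCLike.norm_ofReal, abs_of_nonneg (vm_nn _)]
        have h1 := vm_nn p.1
        gcongr

/-- the square of the coefficients: `|E κ|² ≤ E (|κ|²)` -/
lemma norm_E_sq_le (κ : ℕ → 𝕜) (n : ℕ) : ‖E κ n‖ ^ 2 ≤ E (fun k => ‖κ k‖ ^ 2) n := by
  induction n using Nat.strong_induction_on with
  | _ n ih =>
    rcases Nat.lt_or_ge n 2 with hn | hn
    · interval_cases n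
      · rw [E_zero, E_zero]; simp
      · rw [E_one, E_one]; simp
    · have hl : 0 < Real.log n := Real.log_pos (by exact_mod_cast hn)
      have e1 := E_rec κ n
      have e2 := E_rec (fun k => ‖κ k‖ ^ 2) n
      simp only [RCLike.ofReal_real_eq_id, id] at e2
      have e3 : ‖E κ n‖ * Real.log n = ‖E κ n * ((Real.log n : ℝ) : 𝕜)‖ := by
        rw [norm_mul, RCLike.norm_ofReal, abs_of_pos hl]
      have hlt : ∀ p ∈ n.divisorsAntidiagonal, p.1 ≠ 1 → p.2 < n := by
        intro p hp hp1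
        rw [Nat.mem_divisorsAntidiagonal] at hp
        have h5 : p.2 ≠ 0 := fun h5 => by rw [h5, mul_zero] at hp; exact hp.2 hp.1.symm
        have h6 : p.1 ≠ 0 := fun h6 => by rw [h6, zero_mul] at hp; exact hp.2 hp.1.symm
        rw [← hp.1]
        have : 2 ≤ p.1 := by omega
        nlinarith [Nat.pos_of_ne_zero h5]
      have e4 : ‖E κ n‖ * Real.log n ≤ ∑ p ∈ n.divisorsAntidiagonal,
          Real.sqrt (vonMangoldt p.1) * (Real.sqrt (vonMangoldt p.1) * (‖κ p.1‖ * ‖E κ p.2‖)) := by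
        rw [e3, e1]
        refine (norm_sum_le _ _).trans (Finset.sum_le_sum fun p hp => ?_)
        rw [norm_mul, norm_mul, RCLike.norm_ofReal, abs_of_nonneg (vm_nn _), ← mul_assoc,
          Real.mul_self_sqrt (vm_nn _), mul_assoc]
      have e5 := Finset.sum_mul_sq_le_sq_mul_sq n.divisorsAntidiagonal
        (fun p => Real.sqrt (vonMangoldt p.1))
        (fun p => Real.sqrt (vonMangoldt p.1) * (‖κ p.1‖ * ‖E κ p.2‖))
      have e6 : ∑ p ∈ n.divisorsAntidiagonal, Real.sqrt (vonMangoldt p.1) ^ 2 = Real.log n := by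
        have h1 : ∀ p ∈ n.divisorsAntidiagonal, Real.sqrt (vonMangoldt p.1) ^ 2 =
            (fun a _ => vonMangoldt a) p.1 p.2 := fun p _ => Real.sq_sqrt (vm_nn _)
        rw [Finset.sum_congr rfl h1]
        rw [Nat.sum_divisorsAntidiagonal (fun a _ => vonMangoldt a)]
        exact ArithmeticFunction.vonMangoldt_sum
      have e7 : ∑ p ∈ n.divisorsAntidiagonal,
          (Real.sqrt (vonMangoldt p.1) * (‖κ p.1‖ * ‖E κ p.2‖)) ^ 2 ≤
          E (fun k => ‖κ k‖ ^ 2) n * Real.log n := by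
        rw [e2]
        refine Finset.sum_le_sum fun p hp => ?_
        rw [mul_pow, mul_pow, Real.sq_sqrt (vm_nn _)]
        rcases eq_or_ne p.1 1 with hp1 | hp1
        · rw [hp1]; simp
        · have := ih _ (hlt p hp hp1)
          have h1 := vm_nn p.1
          rw [mul_assoc]
          gcongr
      have e8 : (‖E κ n‖ * Real.log n) ^ 2 ≤ Real.log n * (E (fun k => ‖κ k‖ ^ 2) n * Real.log n) := by
        have h0 : 0 ≤ ‖E κ n‖ * Real.log n := by positivity
        calc (‖E κ n‖ * Real.log n) ^ 2 ≤ (∑ p ∈ n.divisorsAntidiagonal,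
          Real.sqrt (vonMangoldt p.1) * (Real.sqrt (vonMangoldt p.1) * (‖κ p.1‖ * ‖E κ p.2‖))) ^ 2 := by
              gcongr
          _ ≤ _ := e5
          _ ≤ Real.log n * (E (fun k => ‖κ k‖ ^ 2) n * Real.log n) := by
              rw [e6]
              gcongr
      have e9 : (‖E κ n‖ ^ 2) * (Real.log n ^ 2) ≤ (E (fun k => ‖κ k‖ ^ 2) n) * (Real.log n ^ 2) := by
        nlinarith [e8]
      exact le_of_mul_le_mul_right e9 (by positivity)

end Pool.Agent.R399.TW
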