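import Pool.Agent.R399.TW.Ser

/-!
# Dirichlet series with Euler products from their logarithmic derivatives
-/

set_option autoImplicit false

namespace Pool.Agent.R399.TW

open Finset Filter Topology Complex
open ArithmeticFunction (vonMangoldt)


/-- the linear sums converge -/
def Lin (κ : ℕ → ℂ) : Prop :=
  ∀ σ : ℝ, 1 < σ → Summable fun n : ℕ => vonMangoldt n * ‖κ n‖ * (n : ℝ) ^ (-σ)

lemma Lin.neg {κ : ℕ → ℂ} (h : Lin κ) : Lin (fun n => -κ n) := fun σ hσ => by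
  simpa using h σ hσ

lemma Lin.twist {κ ψ : ℕ → ℂ} (h : Lin κ) (hψ : ∀ n, ‖ψ n‖ ≤ 1) : Lin (fun n => ψ n * κ n) :=
  fun σ hσ => by
  refine Summable.of_nonneg_of_le (fun n => ?_) (fun n => ?_) (h σ hσ)
  · have := vm_nn n
    positivity
  · have := vm_nn n
    rw [norm_mul]
    have h1 : ‖ψ n‖ * ‖κ n‖ ≤ 1 * ‖κ n‖ := mul_le_mul_of_nonneg_right (hψ n) (norm_nonneg _)
    rw [one_mul] at h1
    gcongr

lemma Lin.summ {κ : ℕ → ℂ} (h : Lin κ) {σ : ℝ} (hσ : 1 < σ) :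
    Summable fun n : ℕ => E (fun k => ‖κ k‖) n * (n : ℝ) ^ (-σ) := by
  have hnn : ∀ n : ℕ, 0 ≤ E (fun k => ‖κ k‖) n * (n : ℝ) ^ (-σ) := fun n =>
    mul_nonneg (E_nonneg (fun k => norm_nonneg _) n) (by positivity)
  have h2 := (h σ hσ).mul_left 2
  have hnn2 : ∀ n : ℕ, 0 ≤ 2 * (vonMangoldt n * ‖κ n‖ * (n : ℝ) ^ (-σ)) := fun n => by
    have := vm_nn n
    positivity
  refine summable_of_sum_range_le (c := Real.exp (∑' n : ℕ, 2 *
    (vonMangoldt n * ‖κ n‖ * (n : ℝ) ^ (-σ)))) hnn fun N => ?_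
  have h3 := fin_exp (κ := fun k => ‖κ k‖) (fun k => norm_nonneg _) N σ
  have h4 : ∑ n ∈ Icc 2 N, vonMangoldt n / Real.log n * ‖κ n‖ * (n : ℝ) ^ (-σ) ≤
      ∑' n : ℕ, 2 * (vonMangoldt n * ‖κ n‖ * (n : ℝ) ^ (-σ)) := by
    refine le_trans (Finset.sum_le_sum fun n hn => ?_) (h2.sum_le_tsum (Icc 2 N)
      fun n _ => hnn2 n)
    rw [mem_Icc] at hn
    have hl : Real.log 2 ≤ Real.log n := Real.log_le_log (by norm_num) (by exact_mod_cast hn.1)
    have hl2 := Real.log_two_gt_d9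
    have e1 : vonMangoldt n / Real.log n ≤ 2 * vonMangoldt n := by
      rw [div_le_iff₀ (by linarith)]
      nlinarith [vm_nn n]
    have e2 : 0 ≤ ‖κ n‖ * (n : ℝ) ^ (-σ) := by positivity
    nlinarith
  refine le_trans ?_ (h3.trans (Real.exp_le_exp.2 h4))
  rcases Nat.eq_zero_or_pos N with rfl | hN
  · simp
  · rw [Finset.range_eq_Ico, Finset.sum_eq_sum_Ico_succ_bot hN]
    rw [E_zero, zero_mul, zero_add]
    refine Finset.sum_le_sum_of_subset_of_nonneg ?_ fun n _ _ => hnn n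
    intro n hn
    rw [mem_Ico] at hn
    rw [mem_Icc]
    omega

lemma Lin.ls {κ : ℕ → ℂ} (h : Lin κ) {s : ℂ} (hs : 1 < s.re) : LSeriesSummable (E κ) s := by
  refine Summable.of_norm_bounded (h.summ hs) fun n => ?_
  rcases eq_or_ne n 0 with rfl | hn
  · simp [E_zero]
  · have hn0 : (0 : ℝ) < n := by exact_mod_cast Nat.pos_of_ne_zero hn
    rw [LSeries.norm_term_eq, if_neg hn, Real.rpow_neg hn0.le, ← div_eq_mul_inv]
    gcongr
    exact norm_E_le κ n

lemma Lin.ls' {κ : ℕ → ℂ} (h : Lin κ) {s : ℂ} (hs : 1 < s.re) :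
    LSeriesSummable (fun n => ((vonMangoldt n : ℝ) : ℂ) * κ n) s := by
  refine Summable.of_norm_bounded (h s.re hs) fun n => ?_
  rcases eq_or_ne n 0 with rfl | hn
  · simp
  · have hn0 : (0 : ℝ) < n := by exact_mod_cast Nat.pos_of_ne_zero hn
    rw [LSeries.norm_term_eq, if_neg hn, Real.rpow_neg hn0.le, ← div_eq_mul_inv, norm_mul,
      Complex.norm_real, Real.norm_of_nonneg (vm_nn n)]

lemma Lin.absc {κ : ℕ → ℂ} (h : Lin κ) : LSeries.abscissaOfAbsConv (E κ) ≤ ((1 : ℝ) : EReal) :=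
  LSeries.abscissaOfAbsConv_le_of_forall_lt_LSeriesSummable fun y hy =>
    h.ls (by simpa using hy)

lemma Lin.absc_lt {κ : ℕ → ℂ} (h : Lin κ) {s : ℂ} (hs : 1 < s.re) :
    LSeries.abscissaOfAbsConv (E κ) < s.re :=
  lt_of_le_of_lt h.absc (by exact_mod_cast hs)

lemma logMul_E (κ : ℕ → ℂ) : LSeries.logMul (E κ) =
    LSeries.convolution (fun n => ((vonMangoldt n : ℝ) : ℂ) * κ n) (E κ) := by
  rw [LSeries.convolution_def]
  funext n
  unfold LSeries.logMul
  have h1 := E_rec κ n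
  have h2 : Complex.log n = ((Real.log n : ℝ) : ℂ) := Complex.natCast_log.symm
  have h3 : E κ n * ((Real.log n : ℝ) : ℂ) =
    ∑ p ∈ n.divisorsAntidiagonal, ((vonMangoldt p.1 : ℝ) : ℂ) * κ p.1 * E κ p.2 := h1
  rw [h2, mul_comm]
  exact h3

lemma Lin.hasDeriv {κ : ℕ → ℂ} (h : Lin κ) {s : ℂ} (hs : 1 < s.re) :
    HasDerivAt (LSeries (E κ))
      (-(LSeries (fun n => ((vonMangoldt n : ℝ) : ℂ) * κ n) s * LSeries (E κ) s)) s := by
  have h1 := LSeries_hasDerivAt (h.absc_lt hs)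
  rwa [logMul_E, LSeries_convolution' (h.ls' hs) (h.ls hs)] at h1

lemma Lin.lim {κ : ℕ → ℂ} (h : Lin κ) : Tendsto (fun x : ℝ => LSeries (E κ) x) atTop (𝓝 1) := by
  have h1 := LSeries.tendsto_atTop (f := E κ) (lt_of_le_of_lt h.absc (EReal.coe_lt_top 1))
  rwa [E_one] at h1

/-- a function is determined by its logarithmic derivative and its limit -/
theorem Lin.eq_ls {κ : ℕ → ℂ} (h : Lin κ) {F : ℂ → ℂ} (hd : ∀ s : ℂ, 1 < s.re → DifferentiableAt ℂ F s)
    (hF : ∀ s : ℂ, 1 < s.re → deriv F s =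
      -(LSeries (fun n => ((vonMangoldt n : ℝ) : ℂ) * κ n) s * F s))
    (hlim : Tendsto (fun x : ℝ => F x) atTop (𝓝 1)) {s : ℂ} (hs : 1 < s.re) :
    F s * LSeries (E (fun n => -κ n)) s = 1 := by
  have hn := h.neg
  have hneg : ∀ s : ℂ, LSeries (fun n => ((vonMangoldt n : ℝ) : ℂ) * -κ n) s =
      -LSeries (fun n => ((vonMangoldt n : ℝ) : ℂ) * κ n) s := by
    intro s
    have : (fun n => ((vonMangoldt n : ℝ) : ℂ) * -κ n) =
        -(fun n => ((vonMangoldt n : ℝ) : ℂ) * κ n) := by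
      funext n
      simp
    rw [this, LSeries_neg]
  have hder : ∀ s : ℂ, 1 < s.re →
      HasDerivAt (fun s => F s * LSeries (E (fun n => -κ n)) s) 0 s := by
    intro s hs
    have h1 := (hd s hs).hasDerivAt
    rw [hF s hs] at h1
    have h2 := h1.mul (hn.hasDeriv hs)
    rw [hneg] at h2
    exact h2.congr_deriv (by ring)
  set U : Set ℂ := {s : ℂ | 1 < s.re} with hU
  have hUo : IsOpen U := isOpen_lt continuous_const Complex.continuous_re
  have hUc : IsPreconnected U := (convex_halfSpace_re_gt 1).isPreconnected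
  have hconst : ∀ x ∈ U, ∀ y ∈ U, F x * LSeries (E (fun n => -κ n)) x =
      F y * LSeries (E (fun n => -κ n)) y := by
    intro x hx y hy
    have := hUo.is_const_of_deriv_eq_zero hUc (f := fun s => F s * LSeries (E (fun n => -κ n)) s)
      (fun z hz => (hder z hz).differentiableAt.differentiableWithinAt)
      (fun z hz => (hder z hz).deriv) hx hy
    exact this
  have hl := hlim.mul hn.lim
  rw [mul_one] at hl
  refine tendsto_nhds_unique (tendsto_const_nhds.congr' ?_) hl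
  filter_upwards [eventually_gt_atTop 1] with x hx
  exact hconst s hs x (by simpa [hU] using hx)

theorem Lin.inv {κ : ℕ → ℂ} (h : Lin κ) {s : ℂ} (hs : 1 < s.re) :
    LSeries (E κ) s * LSeries (E (fun n => -κ n)) s = 1 :=
  h.eq_ls (fun s hs => (h.hasDeriv hs).differentiableAt) (fun s hs => (h.hasDeriv hs).deriv) h.lim hs

theorem Lin.eq {κ : ℕ → ℂ} (h : Lin κ) {F : ℂ → ℂ} (hd : ∀ s : ℂ, 1 < s.re → DifferentiableAt ℂ F s)
    (hF : ∀ s : ℂ, 1 < s.re → deriv F s =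
      -(LSeries (fun n => ((vonMangoldt n : ℝ) : ℂ) * κ n) s * F s))
    (hlim : Tendsto (fun x : ℝ => F x) atTop (𝓝 1)) {s : ℂ} (hs : 1 < s.re) :
    F s = LSeries (E κ) s := by
  have h1 := h.eq_ls hd hF hlim hs
  have h2 := h.inv hs
  have h3 : LSeries (E (fun n => -κ n)) s ≠ 0 := fun h0 => by rw [h0, mul_zero] at h1; simp at h1
  exact mul_right_cancel₀ h3 (h1.trans h2.symm)

end Pool.Agent.R399.TW
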