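import Mathlib

/-!
# The smoothing kernel
-/

set_option autoImplicit false

namespace Pool.Agent.R399.TW

open MeasureTheory Set Filter Topology

/-- the Gaussian density -/
noncomputable def gd (v : ℝ) : ℝ := 1 / (2 * √Real.pi) * Real.exp (-(1 / 4) * v ^ 2)

lemma gd_nn (v : ℝ) : 0 ≤ gd v := by unfold gd; positivity

lemma gd_even (v : ℝ) : gd (-v) = gd v := by unfold gd; simp

lemma gd_cont : Continuous gd := by unfold gd; fun_prop

lemma gd_int : Integrable gd := by
  unfold gd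
  exact (integrable_exp_neg_mul_sq (by norm_num : (0 : ℝ) < 1 / 4)).const_mul _

lemma sqrt_four_pi : √(Real.pi / (1 / 4)) = 2 * √Real.pi := by
  rw [show Real.pi / (1 / 4) = 2 ^ 2 * Real.pi by ring, Real.sqrt_mul (by positivity),
    Real.sqrt_sq (by norm_num)]

lemma gd_total : ∫ v, gd v = 1 := by
  unfold gd
  rw [integral_const_mul, integral_gaussian, sqrt_four_pi]
  have : 0 < √Real.pi := Real.sqrt_pos.2 Real.pi_pos
  field_simp

lemma gd_half : ∫ v in Ioi 0, gd v = 1 / 2 := by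
  unfold gd
  rw [integral_const_mul, integral_gaussian_Ioi, sqrt_four_pi]
  have : 0 < √Real.pi := Real.sqrt_pos.2 Real.pi_pos
  field_simp

/-- the smoothing function -/
noncomputable def Ph (x : ℝ) : ℝ := ∫ u in Ioi 0, gd (x - u)

lemma gd_sub_int (x : ℝ) : Integrable fun u => gd (x - u) := gd_int.comp_sub_left x

lemma Ph_nn (x : ℝ) : 0 ≤ Ph x := integral_nonneg fun _ => gd_nn _

lemma Ph_le_one (x : ℝ) : Ph x ≤ 1 := by
  unfold Ph
  have h1 : ∫ u in Ioi 0, gd (x - u) ≤ ∫ u, gd (x - u) :=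
    setIntegral_le_integral (gd_sub_int x) (Eventually.of_forall fun u => gd_nn _)
  rw [integral_sub_left_eq_self gd volume x, gd_total] at h1
  exact h1

lemma half_le_Ph {x : ℝ} (hx : 0 ≤ x) : 1 / 2 ≤ Ph x := by
  unfold Ph
  have h1 : ∫ u in Ioi x, gd (x - u) ≤ ∫ u in Ioi 0, gd (x - u) :=
    setIntegral_mono_set (gd_sub_int x).integrableOn (Eventually.of_forall fun u => gd_nn _)
      (Ioi_subset_Ioi hx).eventuallyLE
  have h2 : ∫ u in Ioi x, gd (x - u) = ∫ v in Ioi 0, gd v := by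
    rw [← integral_indicator measurableSet_Ioi, ← integral_indicator measurableSet_Ioi,
      ← integral_sub_right_eq_self (fun v => (Ioi (0 : ℝ)).indicator gd v) x]
    congr 1
    funext u
    by_cases hu : x < u
    · rw [indicator_of_mem (by exact hu), indicator_of_mem (by simpa using hu), ← gd_even]
      congr 1
      ring
    · rw [indicator_of_notMem (by exact hu), indicator_of_notMem (by simpa using hu)]
  rw [h2, gd_half] at h1
  exact h1

lemma Ph_decay (x : ℝ) : Ph x ≤ Real.exp 9 * Real.exp (3 * x) := by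
  unfold Ph
  have hb : ∀ u : ℝ, gd (x - u) ≤ Real.exp 9 * Real.exp (3 * x) * Real.exp (-3 * u) := by
    intro u
    unfold gd
    have h1 : 1 / (2 * √Real.pi) ≤ 1 := by
      rw [div_le_one (by positivity)]
      have : 1 ≤ √Real.pi := Real.one_le_sqrt.2 (by linarith [Real.pi_gt_three])
      linarith
    rw [← Real.exp_add, ← Real.exp_add]
    have h2 : Real.exp (-(1 / 4) * (x - u) ^ 2) ≤ Real.exp (9 + 3 * x + -3 * u) := by
      apply Real.exp_le_exp.2
      nlinarith [sq_nonneg ((x - u) / 2 + 3)]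
    have h3 := Real.exp_pos (-(1 / 4) * (x - u) ^ 2)
    calc 1 / (2 * √Real.pi) * Real.exp (-(1 / 4) * (x - u) ^ 2)
        ≤ 1 * Real.exp (-(1 / 4) * (x - u) ^ 2) := by gcongr
      _ ≤ _ := by rw [one_mul]; exact h2
  have hi : IntegrableOn (fun u : ℝ => Real.exp 9 * Real.exp (3 * x) * Real.exp (-3 * u)) (Ioi 0) :=
    (exp_neg_integrableOn_Ioi 0 (by norm_num : (0 : ℝ) < 3)).const_mul _
  have h1 : ∫ u in Ioi 0, gd (x - u) ≤
      ∫ u in Ioi (0 : ℝ), Real.exp 9 * Real.exp (3 * x) * Real.exp (-3 * u) :=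
    integral_mono (gd_sub_int x).integrableOn hi hb
  rw [integral_const_mul] at h1
  have h2 : ∫ u in Ioi (0 : ℝ), Real.exp (-3 * u) = 1 / 3 := by
    have := integral_exp_mul_Ioi (a := -3) (by norm_num) 0
    rw [this]
    simp
  rw [h2] at h1
  have h3 : 0 < Real.exp 9 * Real.exp (3 * x) := by positivity
  linarith

/-- the point `c + it` -/
noncomputable def pt (c t : ℝ) : ℂ := (c : ℂ) + (t : ℂ) * Complex.I

@[simp] lemma pt_re (c t : ℝ) : (pt c t).re = c := by simp [pt]
@[simp] lemma pt_im (c t : ℝ) : (pt c t).im = t := by simp [pt]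

lemma pt_cont (c : ℝ) : Continuous (pt c) := by unfold pt; fun_prop

lemma norm_gauss (c t x : ℝ) : ‖Complex.exp (pt c t ^ 2 + (x : ℂ) * pt c t)‖ =
    Real.exp (c ^ 2 + x * c) * Real.exp (-t ^ 2) := by
  rw [Complex.norm_exp, ← Real.exp_add]
  congr 1
  unfold pt
  simp [pow_two]
  ring

lemma gauss_int (c x : ℝ) : Integrable fun t : ℝ => Complex.exp (pt c t ^ 2 + (x : ℂ) * pt c t) := by
  have h1 : Integrable fun t : ℝ => Real.exp (c ^ 2 + x * c) * Real.exp (-1 * t ^ 2) :=
    (integrable_exp_neg_mul_sq (by norm_num : (0 : ℝ) < 1)).const_mul _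
  refine h1.mono' ?_ (Eventually.of_forall fun t => ?_)
  · have : Continuous fun t : ℝ => Complex.exp (pt c t ^ 2 + (x : ℂ) * pt c t) := by
      unfold pt; fun_prop
    exact this.aestronglyMeasurable
  · rw [norm_gauss, neg_one_mul]

/-- the Gaussian integral -/
lemma gauss_eval (c y : ℝ) : ∫ t : ℝ, Complex.exp (pt c t ^ 2 + (y : ℂ) * pt c t) =
    2 * Real.pi * ((gd y : ℝ) : ℂ) := by
  have h1 := integral_cexp_quadratic (b := -1) (by simp) (Complex.I * (2 * c + y))
    ((c : ℂ) ^ 2 + y * c)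
  have h2 : ∀ t : ℝ, pt c t ^ 2 + (y : ℂ) * pt c t =
      -1 * (t : ℂ) ^ 2 + Complex.I * (2 * c + y) * t + ((c : ℂ) ^ 2 + y * c) := by
    intro t
    unfold pt
    ring_nf
    rw [Complex.I_sq]
    ring
  simp only [h2]
  rw [h1]
  have h3 : ((c : ℂ) ^ 2 + y * c - (Complex.I * (2 * c + y)) ^ 2 / (4 * -1)) =
      ((-(1 / 4) * y ^ 2 : ℝ) : ℂ) := by
    push_cast
    rw [mul_pow, Complex.I_sq]
    ring
  rw [h3, ← Complex.ofReal_exp]
  have h4 : ((Real.pi : ℂ) / - -1) ^ (1 / 2 : ℂ) = ((√Real.pi : ℝ) : ℂ) := by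
    rw [neg_neg, div_one, Real.sqrt_eq_rpow, Complex.ofReal_cpow Real.pi_pos.le]
    norm_num
  rw [h4]
  unfold gd
  have h5 : ((√Real.pi : ℝ) : ℂ) * ((√Real.pi : ℝ) : ℂ) = (Real.pi : ℂ) := by
    rw [← Complex.ofReal_mul, Real.mul_self_sqrt Real.pi_pos.le]
  have h6 : ((√Real.pi : ℝ) : ℂ) ≠ 0 := by
    exact_mod_cast (Real.sqrt_pos.2 Real.pi_pos).ne'
  push_cast
  rw [← h5]
  field_simp

/-- **the kernel** -/
theorem kernel_id {c : ℝ} (hc : 0 < c) (x : ℝ) :
    ∫ t : ℝ, Complex.exp (pt c t ^ 2 + (x : ℂ) * pt c t) / pt c t =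
      2 * Real.pi * ((Ph x : ℝ) : ℂ) := by
  have h0 : ∀ t : ℝ, Complex.exp (pt c t ^ 2 + (x : ℂ) * pt c t) / pt c t =
      ∫ u in Ioi (0 : ℝ), Complex.exp (pt c t ^ 2 + (x : ℂ) * pt c t) *
        Complex.exp (-pt c t * u) := by
    intro t
    rw [integral_const_mul]
    have h := integral_exp_mul_complex_Ioi (a := -pt c t) (by simpa using hc) 0
    rw [h]
    simp [div_eq_mul_inv]
  simp only [h0]
  rw [integral_integral_swap]
  · have h1 : ∀ u : ℝ, ∫ t : ℝ, Complex.exp (pt c t ^ 2 + (x : ℂ) * pt c t) *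
        Complex.exp (-pt c t * u) = 2 * Real.pi * ((gd (x - u) : ℝ) : ℂ) := by
      intro u
      rw [← gauss_eval c (x - u)]
      congr 1
      funext t
      rw [← Complex.exp_add]
      congr 1
      push_cast
      ring
    simp only [h1]
    rw [integral_const_mul]
    congr 1
    unfold Ph
    exact integral_ofReal
  · have hg : Integrable (fun p : ℝ × ℝ => Real.exp (c ^ 2 + x * c) * Real.exp (-1 * p.1 ^ 2) *
        Real.exp (-c * p.2)) (volume.prod (volume.restrict (Ioi 0))) :=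
      ((integrable_exp_neg_mul_sq (by norm_num : (0 : ℝ) < 1)).const_mul _).mul_prod
        (exp_neg_integrableOn_Ioi 0 hc)
    refine hg.mono' ?_ (Eventually.of_forall fun p => ?_)
    · have : Continuous (Function.uncurry fun (t u : ℝ) =>
          Complex.exp (pt c t ^ 2 + (x : ℂ) * pt c t) * Complex.exp (-pt c t * u)) := by
        unfold pt; fun_prop
      exact this.aestronglyMeasurable
    · unfold Function.uncurry
      simp only
      rw [norm_mul, norm_gauss, Complex.norm_exp, neg_one_mul]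
      have : (-pt c p.1 * (p.2 : ℂ)).re = -c * p.2 := by
        simp [pt]
      rw [this]

end Pool.Agent.R399.TW
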