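import Pool.Agent.R399.TW.LSI

/-!
# The general density estimate
-/

set_option autoImplicit false

namespace Pool.Agent.R399.TW

open Finset Filter Topology Complex MeasureTheory
open scoped ComplexConjugate

/-- `F` has a zero with `0 < Re s`, `|Im s| ≤ T`, at distance at least `δ` from the critical line -/
def Far (F : ℂ → ℂ) (δ T : ℝ) : Prop :=
  ∃ s : ℂ, 0 < s.re ∧ |s.im| ≤ T ∧ δ ≤ |s.re - 1 / 2| ∧ F s = 0

/-- the bound -/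
noncomputable def bd (m : ℕ) (P Q δ Y r θ : ℝ) (X M : ℕ) : ℝ :=
  (P * (X : ℝ) ^ (4 * r - 2 * δ) + Y ^ (1 + 4 * r - 2 * δ)) * ((1 + Real.log Y) ^ 2 * Y ^ θ) +
    Y ^ (-2 * δ) / δ ^ 2 * ((P + (M * X : ℕ)) * ((M * X : ℕ) : ℝ) ^ θ) +
    Q ^ (2 * m) * Y ^ (-2 - 2 * δ) * ((X : ℝ) ^ 4 * (1 + P / M) *
      ((1 + Real.log M) ^ 2 * (M : ℝ) ^ (θ - 1)))

theorem general {m N : ℕ} {L : (q : ℕ) → DirichletCharacter ℂ q → ℂ → ℂ} (h : Fm m N L) :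
    ∃ K A : ℝ, 0 ≤ K ∧ 0 ≤ A ∧ ∀ (Q : ℕ) (P δ Y r θ T : ℝ) (X M : ℕ)
      (J : Finset (Σ q : ℕ, DirichletCharacter ℂ q)), 1 ≤ Q → 0 < r → 2 * r ≤ δ →
      δ ≤ 1 / 2 → 0 < θ → θ ≤ 1 / 2 → 1 ≤ X → 1 ≤ M → 1 ≤ Y → 0 ≤ T →
      LSv J (fun i => chs i.2) 6 P 0 →
      (∀ i ∈ J, (2 ≤ i.1 ∧ i.1 ≤ Q ∧ Nat.Coprime i.1 N ∧ i.2.IsPrimitive) ∧
        Far (L i.1 i.2) δ T) →
      (J.card : ℝ) ≤
        K * (1 + T) ^ (2 * m + 1) / r ^ 2 * θ ^ (-A) * bd m P Q δ Y r θ X M := by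
  classical
  obtain ⟨c, R₀, V, C, hR₀, hV, hL, hC, hmem⟩ := h
  obtain ⟨K, hK, hgrid⟩ := grid m
  set A : ℝ := max C 0 with hA
  have hA0 : 0 ≤ A := le_max_right _ _
  have hCA : C ≤ A := le_max_left _ _
  have hRV : 0 ≤ (R₀ * V ^ m) ^ 2 := by positivity
  refine ⟨K * (6 * Real.exp (2 * A)) * (1 + (R₀ * V ^ m) ^ 2), A, by positivity, hA0, ?_⟩
  intro Q P δ Y r θ T X M J hQ hr hδ hδ1 hθ hθ1 hX hM hY hT hls hJ
  have hP1 := hls.P_ge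
  have hQ1 : (1 : ℝ) ≤ Q := by exact_mod_cast hQ
  have hδ0 : 0 < δ := by linarith
  have hY0 : 0 < Y := by linarith
  have hlY : 0 ≤ Real.log Y := Real.log_nonneg hY
  have hX1 : (1 : ℝ) ≤ X := by exact_mod_cast hX
  have hM1 : (1 : ℝ) ≤ M := by exact_mod_cast hM
  -- choices
  have hch : ∀ i : (Σ q : ℕ, DirichletCharacter ℂ q), ∃ (F : ℂ → ℂ) (ρ : ℂ), i ∈ J →
      Mem c (R₀ * (Q : ℝ) ^ m) V m (chs i.2) F ∧ 1 / 2 + δ ≤ ρ.re ∧ ρ.re ≤ 1 ∧ |ρ.im| ≤ T ∧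
        F ρ = 0 := by
    intro i
    by_cases hi : i ∈ J
    · obtain ⟨⟨h1, h2, h3, h4⟩, s, s0, s1, s2, s3⟩ := hJ i hi
      obtain ⟨F, hF, z1, z2⟩ := hmem i.1 i.2 h1 h3 h4
      have hq : ((i.1 : ℕ) : ℝ) ≤ Q := by exact_mod_cast h2
      have hF' : Mem c (R₀ * (Q : ℝ) ^ m) V m (chs i.2) F := hF.mono hV (by gcongr)
      rcases le_abs.1 s2 with h5 | h5
      · refine ⟨F, s, fun _ => ⟨hF', by linarith, ?_, s1, z1 s (by linarith) s3⟩⟩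
        by_contra hcon
        exact hF.ne hL (not_le.1 hcon) (z1 s (by linarith) s3)
      · have h6 : s.re ≤ 1 / 2 - δ := by linarith
        have h7 := z2 s s0 (by linarith) s3
        have hre : (1 - conj s).re = 1 - s.re := by simp
        have him : (1 - conj s).im = s.im := by simp
        refine ⟨F, 1 - conj s, fun _ => ⟨hF', by rw [hre]; linarith, by rw [hre]; linarith,
          by rw [him]; exact s1, h7⟩⟩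
    · exact ⟨0, 0, fun h => absurd h hi⟩
  choose F ρ hFρ using hch
  have hSB0 := SB_of hC hθ (by linarith)
  have hSB : SB c θ (Real.exp (2 * A) * θ ^ (-A)) := by
    intro n
    refine (hSB0 n).trans ?_
    have h1 : Real.exp (2 * C) ≤ Real.exp (2 * A) := Real.exp_le_exp.2 (by linarith)
    have h2 : θ ^ (-C) ≤ θ ^ (-A) :=
      Real.rpow_le_rpow_of_exponent_ge hθ (by linarith) (by linarith)
    gcongr
  have key := hgrid J (fun i => chs i.2) F ρ c (R₀ * (Q : ℝ) ^ m) V 6 P 0 θ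
    (Real.exp (2 * A) * θ ^ (-A)) (1 / 2 + δ) Y r T X M hls (fun i hi => (hFρ i hi).1) hL hSB
    (by positivity) hV hθ.le (by linarith) hX hM hY hT hr (by linarith) (by linarith)
    (fun i hi => ⟨(hFρ i hi).2.1, (hFρ i hi).2.2.1⟩) (fun i hi => (hFρ i hi).2.2.2.1)
    (fun i hi => (hFρ i hi).2.2.2.2)
  refine key.trans ?_
  have e1 : (1 : ℝ) - 2 * (1 / 2 + δ - 2 * r) = 4 * r - 2 * δ := by ring
  have e2 : (2 : ℝ) - 2 * (1 / 2 + δ - 2 * r) = 1 + 4 * r - 2 * δ := by ring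
  have e3 : (1 : ℝ) - 2 * (1 / 2 + δ) = -2 * δ := by ring
  have e4 : (-1 : ℝ) - 2 * (1 / 2 + δ) = -2 - 2 * δ := by ring
  have e5 : (1 : ℝ) / 2 + δ - 1 / 2 = δ := by ring
  rw [e1, e2, e3, e4, e5, zero_add]
  set T₁ : ℝ := (P * (X : ℝ) ^ (4 * r - 2 * δ) + Y ^ (1 + 4 * r - 2 * δ)) *
    ((1 + Real.log Y) ^ 2 * Y ^ θ) with hT₁
  set T₂ : ℝ := Y ^ (-2 * δ) / δ ^ 2 * ((P + (M * X : ℕ)) *
    ((M * X : ℕ) : ℝ) ^ θ) with hT₂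
  set T₃ : ℝ := Y ^ (-2 - 2 * δ) * ((X : ℝ) ^ 4 * (1 + P / M) *
      ((1 + Real.log M) ^ 2 * (M : ℝ) ^ (θ - 1))) with hT₃
  have hlM : 0 ≤ Real.log M := Real.log_nonneg hM1
  have p1 : 0 ≤ T₁ := by positivity
  have p2 : 0 ≤ T₂ := by positivity
  have p3 : 0 ≤ T₃ := by positivity
  have hbd : bd m P Q δ Y r θ X M = T₁ + T₂ + (Q : ℝ) ^ (2 * m) * T₃ := by
    rw [hT₁, hT₂, hT₃]
    unfold bd
    ring
  have h8 : T₁ + T₂ + (R₀ * (Q : ℝ) ^ m * V ^ m) ^ 2 * T₃ ≤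
      (1 + (R₀ * V ^ m) ^ 2) * (T₁ + T₂ + (Q : ℝ) ^ (2 * m) * T₃) := by
    have e6 : (R₀ * (Q : ℝ) ^ m * V ^ m) ^ 2 = (R₀ * V ^ m) ^ 2 * (Q : ℝ) ^ (2 * m) := by
      rw [pow_mul']
      ring
    rw [e6]
    have p4 : 0 ≤ (Q : ℝ) ^ (2 * m) * T₃ := by positivity
    have p5 : 0 ≤ (R₀ * V ^ m) ^ 2 * T₁ := by positivity
    have p6 : 0 ≤ (R₀ * V ^ m) ^ 2 * T₂ := by positivity
    nlinarith
  have e7 : (R₀ * (Q : ℝ) ^ m * V ^ m) ^ 2 * Y ^ (-2 - 2 * δ) *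
      ((X : ℝ) ^ 4 * (1 + P / M) * ((1 + Real.log M) ^ 2 * (M : ℝ) ^ (θ - 1))) =
      (R₀ * (Q : ℝ) ^ m * V ^ m) ^ 2 * T₃ := by rw [hT₃]; ring
  rw [e7, hbd]
  have hKK : 0 ≤ K * (1 + T) ^ (2 * m + 1) / r ^ 2 * (6 * (Real.exp (2 * A) * θ ^ (-A))) := by
    positivity
  refine (mul_le_mul_of_nonneg_left h8 hKK).trans (le_of_eq ?_)
  ring

end Pool.Agent.R399.TW
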