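import Pool.Agent.R399.TW.Cell

/-!
# The number of members with a zero in a rectangle
-/

set_option autoImplicit false

namespace Pool.Agent.R399.TW

open Finset Filter Topology Complex MeasureTheory

lemma floor_cell {x h : ℝ} (hh : 0 < h) : |x - (⌊x / h⌋ : ℝ) * h| ≤ h := by
  have h1 := Int.floor_le (x / h)
  have h2 := Int.lt_floor_add_one (x / h)
  rw [le_div_iff₀ hh] at h1
  rw [div_lt_iff₀ hh] at h2
  rw [abs_le]
  constructor <;> nlinarith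

/-- **zeros in a rectangle** -/
theorem grid (m : ℕ) : ∃ K : ℝ, 0 ≤ K ∧ ∀ {ι : Type} (I : Finset ι) (ψ : ι → ℕ → ℂ)
    (F : ι → ℂ → ℂ) (ρ : ι → ℂ) (c : ℕ → ℂ) (R V H P η θ S σ Y r T : ℝ) (X N : ℕ),
    LSv I ψ H P η → (∀ i ∈ I, Mem c R V m (ψ i) (F i)) → Lin c → SB c θ S →
    0 ≤ R → 0 ≤ V → 0 ≤ θ → η + θ ≤ 1 / 2 → 1 ≤ X → 1 ≤ N → 1 ≤ Y → 0 ≤ T →
    0 < r → 1 / 2 ≤ σ - 2 * r → σ ≤ 1 → (∀ i ∈ I, σ ≤ (ρ i).re ∧ (ρ i).re ≤ 1) →
    (∀ i ∈ I, |(ρ i).im| ≤ T) → (∀ i ∈ I, F i (ρ i) = 0) →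
    (I.card : ℝ) ≤ K * (1 + T) ^ (2 * m + 1) / r ^ 2 * (H * S) *
      ((P * (X : ℝ) ^ (1 - 2 * (σ - 2 * r)) + Y ^ (2 - 2 * (σ - 2 * r))) *
        ((1 + Real.log Y) ^ 2 * Y ^ (η + θ)) +
      Y ^ (1 - 2 * σ) / (σ - 1 / 2) ^ 2 * ((P + (N * X : ℕ)) * ((N * X : ℕ) : ℝ) ^ (η + θ)) +
      (R * V ^ m) ^ 2 * Y ^ (-1 - 2 * σ) * ((X : ℝ) ^ 4 * (1 + P / N) *
        ((1 + Real.log N) ^ 2 * (N : ℝ) ^ (η + θ - 1)))) := by
  obtain ⟨K, hK, hcell⟩ := cell m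
  refine ⟨K * 2 ^ (2 * m) * 20, by positivity, ?_⟩
  intro ι I ψ F ρ c R V H P η θ S σ Y r T X N hls hM hL hSB hR hV hθ hηθ hX hN hY hT hr hσ hσ1
    hρ hρT hF
  classical
  have hP := hls.P_ge
  have hH := hls.H_nn
  have hη := hls.η_nn
  have hS := hSB.nn
  have hr1 : r ≤ 1 := by linarith
  have hY0 : 0 < Y := by linarith
  have hlY : 0 ≤ Real.log Y := Real.log_nonneg hY
  set h := r / 2 with hh
  have hh0 : 0 < h := by positivity
  -- the cells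
  set k : ι → ℤ := fun i => ⌊((ρ i).re - σ) / h⌋ with hk
  set j : ι → ℤ := fun i => ⌊(ρ i).im / h⌋ with hj
  set A : ℤ := ⌊1 / r⌋ with hA
  set B : ℤ := ⌊T / h⌋ + 1 with hB
  have hmap : ∀ i ∈ I, (fun i => (k i, j i)) i ∈ (Icc (0 : ℤ) A) ×ˢ (Icc (-B) B) := by
    intro i hi
    rw [Finset.mem_product, Finset.mem_Icc, Finset.mem_Icc]
    obtain ⟨h1, h2⟩ := hρ i hi
    have h3 := abs_le.1 (hρT i hi)
    refine ⟨⟨?_, ?_⟩, ?_, ?_⟩
    · exact Int.floor_nonneg.2 (div_nonneg (by linarith) hh0.le)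
    · refine Int.floor_le_floor ?_
      rw [div_le_div_iff₀ hh0 hr, hh]
      nlinarith
    · show -B ≤ ⌊(ρ i).im / h⌋
      rw [Int.le_floor, hB]
      push_cast
      have h4 := Int.lt_floor_add_one (T / h)
      have h5 : -(T / h) ≤ (ρ i).im / h := by
        rw [← neg_div]
        exact div_le_div_of_nonneg_right h3.1 hh0.le
      linarith
    · have h5 : (ρ i).im / h ≤ T / h := div_le_div_of_nonneg_right h3.2 hh0.le
      have := Int.floor_le_floor h5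
      show ⌊(ρ i).im / h⌋ ≤ B
      omega
  set T₁ : ℝ := (P * (X : ℝ) ^ (1 - 2 * (σ - 2 * r)) + Y ^ (2 - 2 * (σ - 2 * r))) *
        ((1 + Real.log Y) ^ 2 * Y ^ (η + θ)) with hT₁
  set T₂ : ℝ := Y ^ (1 - 2 * σ) / (σ - 1 / 2) ^ 2 * ((P + (N * X : ℕ)) *
    ((N * X : ℕ) : ℝ) ^ (η + θ)) with hT₂
  set T₄ : ℝ := Y ^ (-1 - 2 * σ) * ((X : ℝ) ^ 4 * (1 + P / N) *
        ((1 + Real.log N) ^ 2 * (N : ℝ) ^ (η + θ - 1))) with hT₄
  have hT₁0 : 0 ≤ T₁ := by positivity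
  have hT₂0 : 0 ≤ T₂ := by positivity
  have hT₄0 : 0 ≤ T₄ := by positivity
  have hfib : ∀ b ∈ (Icc (0 : ℤ) A) ×ˢ (Icc (-B) B),
      (((I.filter fun i => (k i, j i) = b).card : ℕ) : ℝ) ≤
        K * H * S * ((2 * (1 + T)) ^ (2 * m) * (T₁ + T₂ + (R * V ^ m) ^ 2 * T₄)) := by
    intro b hb
    rcases Finset.eq_empty_or_nonempty (I.filter fun i => (k i, j i) = b) with he | ⟨i₀, hi₀⟩
    · rw [he, Finset.card_empty, Nat.cast_zero]
      positivity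
    rw [Finset.mem_filter] at hi₀
    set s₀ : ℂ := pt (σ + (b.1 : ℝ) * h) ((b.2 : ℝ) * h) with hs₀
    rw [Finset.mem_product, Finset.mem_Icc, Finset.mem_Icc] at hb
    have hb1 : (0 : ℝ) ≤ b.1 := by exact_mod_cast hb.1.1
    have h1 := hcell (I.filter fun i => (k i, j i) = b) ψ F ρ c R V H P η θ S σ (σ - 2 * r) Y r X N
      s₀ (hls.mono (Finset.filter_subset _ _)) (fun i hi => hM i (Finset.mem_filter.1 hi).1) hL hSB
      hR hV hθ hηθ hX hN hY (by linarith) hσ (by linarith) hr hr1 (by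
        rw [hs₀, pt_re]
        nlinarith) (fun i hi => hρ i (Finset.mem_filter.1 hi).1) (fun i hi => ?_)
      (fun i hi => hF i (Finset.mem_filter.1 hi).1)
    · refine h1.trans ?_
      have him : |s₀.im| ≤ 1 + T := by
        obtain ⟨hiI, hib⟩ := hi₀
        have e2 : b.2 = j i₀ := by rw [← hib]
        rw [hs₀, pt_im, e2]
        have h2 := floor_cell (x := (ρ i₀).im) hh0
        have h3 := hρT i₀ hiI
        have h4 : |((j i₀ : ℤ) : ℝ) * h| ≤ |(ρ i₀).im| + |(ρ i₀).im - ((j i₀ : ℤ) : ℝ) * h| := by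
          have := abs_sub (ρ i₀).im ((ρ i₀).im - ((j i₀ : ℤ) : ℝ) * h)
          rwa [sub_sub_cancel] at this
        have h5 : |(ρ i₀).im - ((j i₀ : ℤ) : ℝ) * h| ≤ h := h2
        have : h ≤ 1 := by rw [hh]; linarith
        linarith
      have h6 : (R * (V * (1 + |s₀.im|)) ^ m) ^ 2 ≤ (2 * (1 + T)) ^ (2 * m) * (R * V ^ m) ^ 2 := by
        have h7 : (R * (V * (1 + |s₀.im|)) ^ m) ^ 2 = (1 + |s₀.im|) ^ (2 * m) * (R * V ^ m) ^ 2 := by
          rw [mul_pow V, pow_mul']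
          ring
        rw [h7]
        gcongr
        linarith
      have h8 : (1 : ℝ) ≤ (2 * (1 + T)) ^ (2 * m) := one_le_pow₀ (by linarith)
      have h9 : T₁ + T₂ + (R * (V * (1 + |s₀.im|)) ^ m) ^ 2 * T₄ ≤
          (2 * (1 + T)) ^ (2 * m) * (T₁ + T₂ + (R * V ^ m) ^ 2 * T₄) := by
        have a1 : T₁ ≤ (2 * (1 + T)) ^ (2 * m) * T₁ := le_mul_of_one_le_left hT₁0 h8
        have a2 : T₂ ≤ (2 * (1 + T)) ^ (2 * m) * T₂ := le_mul_of_one_le_left hT₂0 h8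
        have a3 := mul_le_mul_of_nonneg_right h6 hT₄0
        have a4 : (2 * (1 + T)) ^ (2 * m) * (T₁ + T₂ + (R * V ^ m) ^ 2 * T₄) =
            (2 * (1 + T)) ^ (2 * m) * T₁ + (2 * (1 + T)) ^ (2 * m) * T₂ +
            (2 * (1 + T)) ^ (2 * m) * (R * V ^ m) ^ 2 * T₄ := by ring
        rw [a4]
        linarith
      have e3 : (R * (V * (1 + |s₀.im|)) ^ m) ^ 2 * Y ^ (-1 - 2 * σ) * ((X : ℝ) ^ 4 * (1 + P / N) *
        ((1 + Real.log N) ^ 2 * (N : ℝ) ^ (η + θ - 1))) =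
          (R * (V * (1 + |s₀.im|)) ^ m) ^ 2 * T₄ := by rw [hT₄]; ring
      rw [e3]
      exact mul_le_mul_of_nonneg_left h9 (by positivity)
    · obtain ⟨hiI, hib⟩ := Finset.mem_filter.1 hi
      have e1 : b.1 = k i := by rw [← hib]
      have e2 : b.2 = j i := by rw [← hib]
      refine (Complex.norm_le_abs_re_add_abs_im _).trans ?_
      rw [hs₀, sub_re, sub_im, pt_re, pt_im, e1, e2]
      have h2 := floor_cell (x := (ρ i).im) hh0
      have h3 := floor_cell (x := (ρ i).re - σ) hh0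
      have h4 : (ρ i).re - (σ + ((k i : ℤ) : ℝ) * h) = (ρ i).re - σ - ((k i : ℤ) : ℝ) * h := by ring
      rw [h4]
      have h5 : |(ρ i).re - σ - ((k i : ℤ) : ℝ) * h| ≤ h := h3
      have h6 : |(ρ i).im - ((j i : ℤ) : ℝ) * h| ≤ h := h2
      rw [hh] at h5 h6 ⊢
      linarith
  have hcard := Finset.card_eq_sum_card_fiberwise (f := fun i => (k i, j i)) hmap
  have h1 : (I.card : ℝ) ≤ ∑ b ∈ (Icc (0 : ℤ) A) ×ˢ (Icc (-B) B),
      K * H * S * ((2 * (1 + T)) ^ (2 * m) * (T₁ + T₂ + (R * V ^ m) ^ 2 * T₄)) := by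
    rw [hcard]
    push_cast
    exact Finset.sum_le_sum fun b hb => hfib b hb
  rw [Finset.sum_const, nsmul_eq_mul] at h1
  have hnum : ((((Icc (0 : ℤ) A) ×ˢ (Icc (-B) B)).card : ℕ) : ℝ) ≤ 20 * (1 + T) / r ^ 2 := by
    rw [Finset.card_product, Int.card_Icc, Int.card_Icc]
    have hr' : 1 ≤ 1 / r := by rwa [le_div_iff₀ hr, one_mul]
    have hA0 : 1 ≤ A := by
      rw [hA, Int.le_floor]
      exact_mod_cast hr'
    have hB0 : 0 ≤ B := by
      have : 0 ≤ ⌊T / h⌋ := Int.floor_nonneg.2 (by positivity)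
      omega
    have hA1 : (A : ℝ) ≤ 1 / r := Int.floor_le _
    have hB1 : (B : ℝ) ≤ 2 * T / r + 1 := by
      rw [hB]
      push_cast
      have := Int.floor_le (T / h)
      have h2 : T / h = 2 * T / r := by rw [hh]; field_simp
      linarith
    have c1 : (((A + 1 - 0).toNat : ℕ) : ℝ) = A + 1 := by
      have : (((A + 1 - 0).toNat : ℤ)) = A + 1 := by omega
      exact_mod_cast this
    have c2 : (((B + 1 - -B).toNat : ℕ) : ℝ) = 2 * B + 1 := by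
      have : (((B + 1 - -B).toNat : ℤ)) = 2 * B + 1 := by omega
      exact_mod_cast this
    push_cast
    rw [c1, c2]
    have h3 : (A : ℝ) + 1 ≤ 2 / r := by
      have : (2 : ℝ) / r = 1 / r + 1 / r := by ring
      linarith
    have h4 : 2 * (B : ℝ) + 1 ≤ 7 * (1 + T) / r := by
      have e : 7 * (1 + T) / r = 2 * (2 * T / r) + 3 * T * (1 / r) + 7 * (1 / r) := by ring
      rw [e]
      have : 0 ≤ 3 * T * (1 / r) := by positivity
      linarith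
    have hB2 : (0 : ℝ) ≤ 2 * (B : ℝ) + 1 := by
      have : (0 : ℝ) ≤ B := by exact_mod_cast hB0
      linarith
    calc ((A : ℝ) + 1) * (2 * B + 1) ≤ (2 / r) * (7 * (1 + T) / r) := by gcongr
      _ = 14 * (1 + T) / r ^ 2 := by field_simp; ring
      _ ≤ 20 * (1 + T) / r ^ 2 := by
        apply div_le_div_of_nonneg_right _ (by positivity)
        nlinarith
  calc (I.card : ℝ) ≤ _ := h1
    _ ≤ (20 * (1 + T) / r ^ 2) * (K * H * S * ((2 * (1 + T)) ^ (2 * m) *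
        (T₁ + T₂ + (R * V ^ m) ^ 2 * T₄))) := by gcongr
    _ = _ := by
        rw [hT₄, mul_pow 2 (1 + T)]
        ring

end Pool.Agent.R399.TW
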