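import Pool.Agent.R399.TW.Poly

/-!
# The identity detecting zeros
-/

set_option autoImplicit false

namespace Pool.Agent.R399.TW

open Finset Filter Topology Complex MeasureTheory
open ArithmeticFunction (vonMangoldt)
open scoped ComplexConjugate

/-- the factor of the functional equation -/
structure Eps (R V : ℝ) (m : ℕ) (F ε : ℂ → ℂ) : Prop where
  cont : ContinuousOn ε (strip (-1 / 2) (1 / 2))
  diff : DifferentiableOn ℂ ε {z | -1 / 2 < z.re ∧ z.re < 1 / 2}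
  gr : ∃ A C : ℝ, ∀ z ∈ strip (-1 / 2) (1 / 2), ‖ε z‖ ≤ C * Real.exp (A * |z.im|)
  mid : ∀ t : ℝ, ‖ε (pt (1 / 2) t)‖ ≤ 1
  left : ∀ t : ℝ, ‖ε (pt (-1 / 2) t)‖ ≤ R * (V * (1 + |t|)) ^ m
  fe : ∀ t : ℝ, F (pt (-1 / 2) t) = ε (pt (-1 / 2) t) * rfl1 F (pt (-1 / 2) t)

/-- a member of the family: `F s = ∑ ψ(n) E c (n) n^(-s)`, with a functional equation -/
structure Mem (c : ℕ → ℂ) (R V : ℝ) (m : ℕ) (ψ : ℕ → ℂ) (F : ℂ → ℂ) : Prop where
  mul : ∀ k n, ψ (k * n) = ψ k * ψ n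
  one : ψ 1 = 1
  le : ∀ n, ‖ψ n‖ ≤ 1
  diff : Differentiable ℂ F
  ser : ∀ s : ℂ, 1 < s.re → F s = LSeries (tw ψ (E c)) s
  gr : ∃ A C : ℝ, ∀ z ∈ strip (-1 / 2) 2, ‖F z‖ ≤ C * Real.exp (A * |z.im|)
  fe : ∃ ε : ℂ → ℂ, Eps R V m F ε

/-- numerator of the kernel -/
noncomputable def KN (L : ℝ) (ρ z : ℂ) : ℂ := cexp ((z - ρ) ^ 2 + (L : ℂ) * (z - ρ))

/-- the kernel -/
noncomputable def Kr (L : ℝ) (ρ z : ℂ) : ℂ := KN L ρ z / (z - ρ)

lemma sub_eq_pt (x t : ℝ) (ρ : ℂ) : pt x t - ρ = pt (x - ρ.re) (t - ρ.im) := by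
  apply Complex.ext <;> simp

lemma norm_KN (L : ℝ) (ρ : ℂ) (x t : ℝ) : ‖KN L ρ (pt x t)‖ =
    Real.exp ((x - ρ.re) ^ 2 + L * (x - ρ.re)) * Real.exp (-(t - ρ.im) ^ 2) := by
  unfold KN
  rw [sub_eq_pt, norm_gauss]

lemma eq_pt (z : ℂ) : z = pt z.re z.im := by apply Complex.ext <;> simp

lemma KN_diff (L : ℝ) (ρ : ℂ) : Differentiable ℂ (KN L ρ) := by
  unfold KN; fun_prop

/-- the Gaussian beats exponentials -/
lemma gdec (A γ : ℝ) : ∃ C : ℝ, 0 ≤ C ∧ ∀ t : ℝ,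
    Real.exp (A * |t|) * Real.exp (-(t - γ) ^ 2) ≤ C * Real.exp (-|t|) := by
  refine ⟨Real.exp ((|A| + 1) ^ 2 / 4 + (|A| + 1) * |γ|), (Real.exp_pos _).le, fun t => ?_⟩
  rw [← Real.exp_add, ← Real.exp_add]
  apply Real.exp_le_exp.2
  have h1 : |t| ≤ |t - γ| + |γ| := by
    have := abs_add_le (t - γ) γ
    simpa using this
  have h2 : A ≤ |A| := le_abs_self A
  have h3 : 0 ≤ |A| := abs_nonneg A
  have h4 : (t - γ) ^ 2 = |t - γ| ^ 2 := (sq_abs _).symm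
  rw [h4]
  have h5 : 0 ≤ |t| := abs_nonneg t
  have h6 : (A + 1) * |t| ≤ (|A| + 1) * |t| := by nlinarith
  have h7 : (|A| + 1) * |t| ≤ (|A| + 1) * (|t - γ| + |γ|) := by nlinarith
  nlinarith [sq_nonneg ((|A| + 1) / 2 - |t - γ|)]

lemma KN_bd (L A : ℝ) {ρ : ℂ} (h1 : 1 / 2 < ρ.re) (h2 : ρ.re ≤ 1) : ∃ C : ℝ, 0 ≤ C ∧
    ∀ z ∈ strip (-1 / 2) 2, Real.exp (A * |z.im|) * ‖KN L ρ z‖ ≤ C * Real.exp (-|z.im|) := by
  obtain ⟨C, hC0, hC⟩ := gdec A ρ.im
  refine ⟨C * Real.exp (9 + 3 * |L|), by positivity, fun z hz => ?_⟩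
  have h3 := norm_KN L ρ z.re z.im
  rw [← eq_pt] at h3
  rw [h3]
  have h4 := hC z.im
  have h5 : Real.exp ((z.re - ρ.re) ^ 2 + L * (z.re - ρ.re)) ≤ Real.exp (9 + 3 * |L|) := by
    apply Real.exp_le_exp.2
    have h6 : |z.re - ρ.re| ≤ 3 := by
      rw [abs_le]
      constructor <;> linarith [hz.1, hz.2]
    have h7 : (z.re - ρ.re) ^ 2 ≤ 9 := by
      rw [← sq_abs]
      nlinarith [abs_nonneg (z.re - ρ.re)]
    have h8 : L * (z.re - ρ.re) ≤ 3 * |L| := by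
      have := le_abs_self (L * (z.re - ρ.re))
      rw [abs_mul] at this
      nlinarith [abs_nonneg L]
    linarith
  calc Real.exp (A * |z.im|) * (Real.exp ((z.re - ρ.re) ^ 2 + L * (z.re - ρ.re)) *
        Real.exp (-(z.im - ρ.im) ^ 2))
      = (Real.exp (A * |z.im|) * Real.exp (-(z.im - ρ.im) ^ 2)) *
        Real.exp ((z.re - ρ.re) ^ 2 + L * (z.re - ρ.re)) := by ring
    _ ≤ (C * Real.exp (-|z.im|)) * Real.exp (9 + 3 * |L|) := by gcongr
    _ = _ := by ring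

/-- the kernel on a vertical line to the right -/
lemma Kr_two (L : ℝ) {ρ : ℂ} (h2 : ρ.re ≤ 1) :
    Integrable (fun t : ℝ => Kr L ρ (pt 2 t)) ∧
      ∫ t : ℝ, Kr L ρ (pt 2 t) = 2 * Real.pi * ((Ph L : ℝ) : ℂ) := by
  have hc : 0 < 2 - ρ.re := by linarith
  have e1 : (fun t : ℝ => Kr L ρ (pt 2 t)) = fun t : ℝ => (fun s : ℝ =>
      cexp (pt (2 - ρ.re) s ^ 2 + (L : ℂ) * pt (2 - ρ.re) s) / pt (2 - ρ.re) s) (t - ρ.im) := by
    funext t
    unfold Kr KN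
    rw [sub_eq_pt]
  have hne : ∀ s : ℝ, pt (2 - ρ.re) s ≠ 0 := by
    intro s h
    have := congrArg Complex.re h
    simp at this
    linarith
  have hint : Integrable (fun s : ℝ =>
      cexp (pt (2 - ρ.re) s ^ 2 + (L : ℂ) * pt (2 - ρ.re) s) / pt (2 - ρ.re) s) := by
    refine (gauss_int (2 - ρ.re) L).norm.mono' ?_ (Eventually.of_forall fun s => ?_)
    · have h3 : Continuous fun s : ℝ =>
          cexp (pt (2 - ρ.re) s ^ 2 + (L : ℂ) * pt (2 - ρ.re) s) / pt (2 - ρ.re) s := by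
        refine Continuous.div ?_ (pt_cont _) hne
        have := pt_cont (2 - ρ.re)
        fun_prop
      exact h3.aestronglyMeasurable
    · rw [norm_div]
      refine div_le_self (norm_nonneg _) ?_
      have h3 := (le_abs_self _).trans (Complex.abs_re_le_norm (pt (2 - ρ.re) s))
      rw [pt_re] at h3
      linarith
  rw [e1]
  refine ⟨hint.comp_sub_right ρ.im, ?_⟩
  rw [integral_sub_right_eq_self (fun s : ℝ =>
      cexp (pt (2 - ρ.re) s ^ 2 + (L : ℂ) * pt (2 - ρ.re) s) / pt (2 - ρ.re) s)]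
  exact kernel_id hc L

lemma Kr_shift (L : ℝ) (ρ z : ℂ) {n : ℕ} (hn : n ≠ 0) :
    Kr L ρ z / (n : ℂ) ^ z = Kr (L - Real.log n) ρ z / (n : ℂ) ^ ρ := by
  have hn0 : (n : ℂ) ≠ 0 := by exact_mod_cast hn
  have h1 : Complex.log n = ((Real.log n : ℝ) : ℂ) := Complex.natCast_log.symm
  unfold Kr KN
  rw [Complex.cpow_def_of_ne_zero hn0, Complex.cpow_def_of_ne_zero hn0, h1, div_div, div_div,
    mul_comm (z - ρ), mul_comm (z - ρ), ← div_div, ← div_div, ← Complex.exp_sub, ← Complex.exp_sub]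
  congr 2
  push_cast
  ring

/-- the smoothed tail -/
noncomputable def bb (c : ℕ → ℂ) (X : ℕ) (L : ℝ) : ℕ → ℂ :=
  tl X fun n => cX c X n * ((Ph (L - Real.log n) : ℝ) : ℂ)

/-- the integral on the line `Re z = 2` -/
theorem right_line {c ψ : ℕ → ℂ} (hL : Lin c) (hψ : ∀ n, ‖ψ n‖ ≤ 1) (hone : ψ 1 = 1) {X : ℕ}
    (hX : 1 ≤ X) (L : ℝ) {ρ : ℂ} (h2 : ρ.re ≤ 1) :
    LSeriesSummable (tw ψ (bb c X L)) ρ ∧
    ∫ t : ℝ, LSeries (tw ψ (cX c X)) (pt 2 t) * Kr L ρ (pt 2 t) =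
      2 * Real.pi * (((Ph L : ℝ) : ℂ) + LSeries (tw ψ (bb c X L)) ρ) := by
  set b := tw ψ (cX c X) with hb
  have hbs : LSeriesSummable b 2 :=
    ls_tw hψ (ls_of_le hL (K := 1) (fun n => by rw [one_mul]; exact cX_le c X n) (by norm_num))
  have hnorm : ∀ (t : ℝ) (n : ℕ), ‖LSeries.term b (pt 2 t) n‖ = ‖LSeries.term b 2 n‖ := by
    intro t n
    rw [LSeries.norm_term_eq, LSeries.norm_term_eq, pt_re]
    norm_num
  have hterm : ∀ (t : ℝ) (n : ℕ), n ≠ 0 → LSeries.term b (pt 2 t) n * Kr L ρ (pt 2 t) =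
      b n / (n : ℂ) ^ ρ * Kr (L - Real.log n) ρ (pt 2 t) := by
    intro t n hn
    rw [LSeries.term_of_ne_zero hn]
    have := Kr_shift L ρ (pt 2 t) hn
    calc b n / (n : ℂ) ^ (pt 2 t) * Kr L ρ (pt 2 t) = b n * (Kr L ρ (pt 2 t) / (n : ℂ) ^ (pt 2 t)) := by
          ring
      _ = _ := by rw [this]; ring
  have hi : ∀ n : ℕ, Integrable fun t : ℝ => LSeries.term b (pt 2 t) n * Kr L ρ (pt 2 t) := by
    intro n
    rcases eq_or_ne n 0 with rfl | hn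
    · simp
    · simp only [hterm _ n hn]
      exact (Kr_two _ h2).1.const_mul _
  have hs : Summable fun n : ℕ => ∫ t : ℝ, ‖LSeries.term b (pt 2 t) n * Kr L ρ (pt 2 t)‖ := by
    have : (fun n : ℕ => ∫ t : ℝ, ‖LSeries.term b (pt 2 t) n * Kr L ρ (pt 2 t)‖) =
        fun n : ℕ => ‖LSeries.term b 2 n‖ * ∫ t : ℝ, ‖Kr L ρ (pt 2 t)‖ := by
      funext n
      rw [← integral_const_mul]
      congr 1
      funext t
      rw [norm_mul, hnorm]
    rw [this]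
    exact hbs.norm.mul_right _
  have key := hasSum_integral_of_summable_integral_norm hi hs
  have e1 : ∀ t : ℝ, ∑' n : ℕ, LSeries.term b (pt 2 t) n * Kr L ρ (pt 2 t) =
      LSeries b (pt 2 t) * Kr L ρ (pt 2 t) := fun t => by
    rw [tsum_mul_right]; rfl
  simp only [e1] at key
  -- the terms
  have e2 : ∀ n : ℕ, ∫ t : ℝ, LSeries.term b (pt 2 t) n * Kr L ρ (pt 2 t) =
      2 * Real.pi * (if n = 1 then ((Ph L : ℝ) : ℂ) else LSeries.term (tw ψ (bb c X L)) ρ n) := by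
    intro n
    rcases eq_or_ne n 0 with rfl | hn
    · simp
    · simp only [hterm _ n hn]
      rw [integral_const_mul, (Kr_two _ h2).2]
      rcases eq_or_ne n 1 with rfl | h1
      · rw [if_pos rfl, hb]
        unfold tw
        rw [cX_one c hX, hone]
        simp
      · rw [if_neg h1, LSeries.term_of_ne_zero hn, hb]
        unfold tw bb tl
        split_ifs with h3
        · rw [cX_mid c h3, if_neg h1]
          simp
        · ring
  simp only [e2] at key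
  have hpi : (2 * (Real.pi : ℂ)) ≠ 0 := by
    have := Real.pi_pos.ne'
    have h5 : (Real.pi : ℂ) ≠ 0 := by exact_mod_cast this
    simpa using h5
  have k2 := key.mul_left (2 * (Real.pi : ℂ))⁻¹
  have e3 : ∀ n : ℕ, (2 * (Real.pi : ℂ))⁻¹ * (2 * Real.pi *
      (if n = 1 then ((Ph L : ℝ) : ℂ) else LSeries.term (tw ψ (bb c X L)) ρ n)) =
      (if n = 1 then ((Ph L : ℝ) : ℂ) else 0) + LSeries.term (tw ψ (bb c X L)) ρ n := by
    intro n
    rw [← mul_assoc, inv_mul_cancel₀ hpi, one_mul]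
    split_ifs with h
    · subst h
      rw [LSeries.term_of_ne_zero one_ne_zero]
      unfold tw bb tl
      rw [if_pos hX]
      simp
    · simp
  simp only [e3] at k2
  have k3 : HasSum (fun n : ℕ => if n = 1 then ((Ph L : ℝ) : ℂ) else 0) ((Ph L : ℝ) : ℂ) :=
    hasSum_ite_eq 1 _
  have k4 := k2.sub k3
  simp only [add_sub_cancel_left] at k4
  refine ⟨k4.summable, ?_⟩
  have k5 : LSeries (tw ψ (bb c X L)) ρ = _ := k4.tsum_eq
  rw [k5]
  field_simp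
  ring

/-- the mollifier -/
noncomputable def Ml (c ψ : ℕ → ℂ) (X : ℕ) (z : ℂ) : ℂ :=
  LSeries (cut X (tw ψ (E fun k => -c k))) z

/-- the first part of the dual series -/
noncomputable def Dz (c ψ : ℕ → ℂ) (N : ℕ) (z : ℂ) : ℂ :=
  rfl1 (LSeries (cut N (tw ψ (E c)))) z

/-- the second part of the dual series -/
noncomputable def Dt (c ψ : ℕ → ℂ) (N : ℕ) (z : ℂ) : ℂ :=
  rfl1 (LSeries (tl N (tw ψ (E c)))) z

/-- **the identity** -/
theorem zero_id {c : ℕ → ℂ} {R V : ℝ} {m : ℕ} {ψ : ℕ → ℂ} {F ε : ℂ → ℂ} (hL : Lin c)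
    (hM : Mem c R V m ψ F) (hε : Eps R V m F ε) {X : ℕ} (hX : 1 ≤ X) (N : ℕ) (L : ℝ) {ρ : ℂ}
    (h1 : 1 / 2 < ρ.re) (h2 : ρ.re ≤ 1) (hρ : F ρ = 0) :
    2 * Real.pi * (((Ph L : ℝ) : ℂ) + LSeries (tw ψ (bb c X L)) ρ) =
      (∫ t : ℝ, ε (pt (1 / 2) t) * (Dz c ψ N (pt (1 / 2) t) * Ml c ψ X (pt (1 / 2) t)) *
        Kr L ρ (pt (1 / 2) t)) +
      ∫ t : ℝ, ε (pt (-1 / 2) t) * (Dt c ψ N (pt (-1 / 2) t) * Ml c ψ X (pt (-1 / 2) t)) *
        Kr L ρ (pt (-1 / 2) t) := by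
  have hMd : Differentiable ℂ (Ml c ψ X) := cut_diff X _
  have hDd : Differentiable ℂ (Dz c ψ N) := rfl1_diff (cut_diff N _)
  -- the two integrands
  set f₀ : ℂ → ℂ := fun z => dslope F ρ z * Ml c ψ X z * KN L ρ z with hf₀
  set f₁ : ℂ → ℂ := fun z => ε z * (Dz c ψ N z * Ml c ψ X z) * Kr L ρ z with hf₁
  have hds : Differentiable ℂ (dslope F ρ) := by
    rw [← differentiableOn_univ]
    exact (Complex.differentiableOn_dslope Filter.univ_mem).2 hM.diff.differentiableOn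
  have hf₀d : Differentiable ℂ f₀ := (hds.mul hMd).mul (KN_diff L ρ)
  have hds2 : ∀ z : ℂ, z ≠ ρ → dslope F ρ z = F z / (z - ρ) := by
    intro z hz
    rw [dslope_of_ne _ hz, slope_def_field, hρ, sub_zero]
  have hne : ∀ z : ℂ, z.re ≤ 1 / 2 → z - ρ ≠ 0 := by
    intro z hz h
    rw [sub_eq_zero] at h
    rw [h] at hz
    linarith
  -- first bound
  obtain ⟨A, C, hgr⟩ := hM.gr
  obtain ⟨CM, hCM0, hCM⟩ := cut_bd X (tw ψ (E fun k => -c k)) (-1 / 2)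
  obtain ⟨CK, hCK0, hCK⟩ := KN_bd L A h1 h2
  have hC0 : 0 ≤ C := by
    have := (norm_nonneg _).trans (hgr (pt 0 0) ⟨by simp; norm_num, by simp⟩)
    simpa using this
  have b₀ : ∃ C' : ℝ, ∀ z ∈ strip (-1 / 2) 2, ‖f₀ z‖ ≤ C' * Real.exp (-|z.im|) := by
    refine bd_of_eventually (C := C * CM * CK) (T₀ := |ρ.im| + 1) hf₀d.continuous.continuousOn
      fun z hz hT => ?_
    have hz1 : 1 ≤ ‖z - ρ‖ := by
      have h3 := Complex.abs_im_le_norm (z - ρ)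
      rw [sub_im] at h3
      have h4 := abs_sub_abs_le_abs_sub z.im ρ.im
      linarith
    have hz2 : z ≠ ρ := by
      intro h
      rw [h, sub_self, norm_zero] at hz1
      linarith
    have h5 : ‖dslope F ρ z‖ ≤ C * Real.exp (A * |z.im|) := by
      rw [hds2 z hz2, norm_div]
      exact (div_le_self (norm_nonneg _) hz1).trans (hgr z hz)
    have h6 := hCM z hz.1
    have h7 := hCK z hz
    simp only [hf₀]
    rw [norm_mul, norm_mul]
    have h6' : ‖Ml c ψ X z‖ ≤ CM := h6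
    calc ‖dslope F ρ z‖ * ‖Ml c ψ X z‖ * ‖KN L ρ z‖
        ≤ (C * Real.exp (A * |z.im|)) * CM * ‖KN L ρ z‖ := by gcongr
      _ = C * CM * (Real.exp (A * |z.im|) * ‖KN L ρ z‖) := by ring
      _ ≤ C * CM * (CK * Real.exp (-|z.im|)) := by gcongr
      _ = _ := by ring
  obtain ⟨C₀, hC₀⟩ := b₀
  -- second bound
  obtain ⟨A', C', hgr'⟩ := hε.gr
  obtain ⟨CD, hCD0, hCD⟩ := cut_bd N (tw ψ (E c)) (1 / 2)
  obtain ⟨CK', hCK0', hCK'⟩ := KN_bd L A' h1 h2
  have hC0' : 0 ≤ C' := by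
    have := (norm_nonneg _).trans (hgr' (pt 0 0) ⟨by simp; norm_num, by simp⟩)
    simpa using this
  have hsub : strip (-1 / 2) (1 / 2) ⊆ strip (-1 / 2) 2 := fun z hz => ⟨hz.1, hz.2.trans (by norm_num)⟩
  have hKr : DifferentiableOn ℂ (Kr L ρ) {z | z.re ≤ 1 / 2} := by
    intro z hz
    exact ((KN_diff L ρ z).div (by fun_prop) (hne z hz)).differentiableWithinAt
  have hf₁c : ContinuousOn f₁ (strip (-1 / 2) (1 / 2)) :=
    (hε.cont.mul ((hDd.mul hMd).continuous.continuousOn)).mul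
      (hKr.continuousOn.mono fun z hz => hz.2)
  have hf₁d : DifferentiableOn ℂ f₁ {z | -1 / 2 < z.re ∧ z.re < 1 / 2} :=
    (hε.diff.mul ((hDd.mul hMd).differentiableOn)).mul (hKr.mono fun z hz => hz.2.le)
  have b₁ : ∃ C'' : ℝ, ∀ z ∈ strip (-1 / 2) (1 / 2), ‖f₁ z‖ ≤ C'' * Real.exp (-|z.im|) := by
    refine bd_of_eventually (C := C' * (CD * CM) * CK') (T₀ := |ρ.im| + 1) hf₁c fun z hz hT => ?_
    have hz1 : 1 ≤ ‖z - ρ‖ := by
      have h3 := Complex.abs_im_le_norm (z - ρ)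
      rw [sub_im] at h3
      have h4 := abs_sub_abs_le_abs_sub z.im ρ.im
      linarith
    have h5 : ‖Kr L ρ z‖ ≤ ‖KN L ρ z‖ := by
      unfold Kr
      rw [norm_div]
      exact div_le_self (norm_nonneg _) hz1
    have h6 : ‖Ml c ψ X z‖ ≤ CM := hCM z hz.1
    have h7 : ‖Dz c ψ N z‖ ≤ CD := by
      unfold Dz rfl1
      rw [RCLike.norm_conj]
      refine hCD _ ?_
      rw [sub_re, one_re, conj_re]
      linarith [hz.2]
    have h8 := hCK' z (hsub hz)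
    simp only [hf₁]
    rw [norm_mul, norm_mul, norm_mul]
    calc ‖ε z‖ * (‖Dz c ψ N z‖ * ‖Ml c ψ X z‖) * ‖Kr L ρ z‖
        ≤ (C' * Real.exp (A' * |z.im|)) * (CD * CM) * ‖KN L ρ z‖ := by
          gcongr
          exact hgr' z hz
      _ = C' * (CD * CM) * (Real.exp (A' * |z.im|) * ‖KN L ρ z‖) := by ring
      _ ≤ C' * (CD * CM) * (CK' * Real.exp (-|z.im|)) := by gcongr
      _ = _ := by ring
  obtain ⟨C₁, hC₁⟩ := b₁
  -- the line `Re z = 2`
  have s1 : ∫ t : ℝ, f₀ (pt 2 t) = 2 * Real.pi * (((Ph L : ℝ) : ℂ) +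
      LSeries (tw ψ (bb c X L)) ρ) := by
    rw [← (right_line hL hM.le hM.one hX L h2).2]
    congr 1
    funext t
    have hz : pt 2 t ≠ ρ := by
      intro h
      have := congrArg Complex.re h
      rw [pt_re] at this
      linarith
    have hre : 1 < (pt 2 t).re := by rw [pt_re]; norm_num
    simp only [hf₀]
    rw [hds2 _ hz, hM.ser _ hre]
    unfold Ml
    rw [← tw_cut]
    have h3 := LS_mul_tw (f := E c) (g := cut X (E fun k => -c k)) hM.mul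
      (ls_tw hM.le (ls_E hL hre)) (ls_tw hM.le (cut_summable X _ (pt 2 t)))
    unfold cX
    rw [← h3]
    unfold Kr
    ring
  -- shift
  have s2 : ∫ t : ℝ, f₀ (pt (-1 / 2) t) = ∫ t : ℝ, f₀ (pt 2 t) :=
    vshift (by norm_num) hf₀d.continuous.continuousOn hf₀d.differentiableOn hC₀
  have s3 : ∫ t : ℝ, f₁ (pt (-1 / 2) t) = ∫ t : ℝ, f₁ (pt (1 / 2) t) :=
    vshift (by norm_num) hf₁c hf₁d hC₁
  have i0 : Integrable fun t : ℝ => f₀ (pt (-1 / 2) t) :=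
    vert_int le_rfl (by norm_num) hf₀d.continuous.continuousOn hC₀
  have i1 : Integrable fun t : ℝ => f₁ (pt (-1 / 2) t) :=
    vert_int le_rfl (by norm_num) hf₁c hC₁
  rw [← s1, ← s2, ← s3]
  have e4 : ∀ t : ℝ, ε (pt (-1 / 2) t) * (Dt c ψ N (pt (-1 / 2) t) * Ml c ψ X (pt (-1 / 2) t)) *
        Kr L ρ (pt (-1 / 2) t) = f₀ (pt (-1 / 2) t) - f₁ (pt (-1 / 2) t) := by
    intro t
    have hz : pt (-1 / 2) t ≠ ρ := by
      intro h
      have := congrArg Complex.re h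
      rw [pt_re] at this
      linarith
    have hre : 1 < (1 - conj (pt (-1 / 2) t)).re := by
      rw [sub_re, one_re, conj_re, pt_re]; norm_num
    have h5 : rfl1 F (pt (-1 / 2) t) = Dz c ψ N (pt (-1 / 2) t) + Dt c ψ N (pt (-1 / 2) t) := by
      unfold Dz Dt rfl1
      rw [hM.ser _ hre, ← map_add]
      congr 1
      have h6 : LSeriesSummable (tl N (tw ψ (E c))) (1 - conj (pt (-1 / 2) t)) := by
        rw [← tw_tl]
        exact ls_tw hM.le (ls_of_le hL (K := 1) (fun n => by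
          rw [one_mul]
          refine (norm_tl_le _ _ _).trans ((norm_E_le c n).trans ?_)
          exact E_mono (fun k => norm_nonneg _) (fun k => by
            have := norm_nonneg (c k); linarith) n) hre)
      rw [← LSeries_add (cut_summable N _ _) h6]
      congr 1
      funext n
      exact (cut_add_tl N _ n).symm
    simp only [hf₀, hf₁]
    rw [hds2 _ hz, hε.fe t, h5]
    unfold Kr
    ring
  simp only [e4]
  rw [integral_sub i0 i1]
  ring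

end Pool.Agent.R399.TW
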