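import Pool.Agent.R399.TW.Ident
import Pool.Agent.Y767.CA.Fc

/-!
# Members from functional equations
-/

set_option autoImplicit false

namespace Pool.Agent.R399.TW

open Finset Filter Topology Complex MeasureTheory
open Pool.Agent.Y767.CA (GGc FEc cj Gd LX GGc_ne conj_GGc fe_asym norm_LX inv_GGc_le)
open scoped ComplexConjugate

lemma gam_diff {s : ℂ} (hs : 0 < s.re) : DifferentiableAt ℂ Gammaℝ s := by
  have hpi : (Real.pi : ℂ) ≠ 0 := ofReal_ne_zero.mpr Real.pi_ne_zero
  have h1 : DifferentiableAt ℂ (fun s : ℂ => (Real.pi : ℂ) ^ (-s / 2)) s :=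
    DifferentiableAt.const_cpow (by fun_prop) (Or.inl hpi)
  have h2 : DifferentiableAt ℂ (fun s : ℂ => Complex.Gamma (s / 2)) s := by
    have h3 : DifferentiableAt ℂ Complex.Gamma (s / 2) := by
      refine Complex.differentiableAt_Gamma _ fun m h => ?_
      have := congrArg Complex.re h
      simp at this
      have h5 : (0 : ℝ) ≤ m := Nat.cast_nonneg m
      linarith
    exact h3.comp s (by fun_prop)
  have : Gammaℝ = fun s : ℂ => (Real.pi : ℂ) ^ (-s / 2) * Complex.Gamma (s / 2) := by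
    funext s
    rw [Gammaℝ_def]
  rw [this]
  exact h1.mul h2

lemma gam_bd {a b : ℝ} (ha : 0 < a) : ∃ C : ℝ, 0 ≤ C ∧ ∀ s : ℂ, a ≤ s.re → s.re ≤ b →
    ‖Gammaℝ s‖ ≤ C := by
  obtain ⟨M, hM⟩ := (isCompact_Icc (a := a / 2) (b := b / 2)).exists_bound_of_continuousOn
    (f := Real.Gamma) (fun x hx => (Real.differentiableAt_Gamma (fun m => by
      have := hx.1
      have h2 : (0 : ℝ) ≤ m := Nat.cast_nonneg m
      linarith)).continuousAt.continuousWithinAt)
  refine ⟨|M|, abs_nonneg _, fun s h1 h2 => ?_⟩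
  have hre : (s / 2).re = s.re / 2 := by simp
  rw [Gammaℝ_def, norm_mul, Complex.norm_cpow_eq_rpow_re_of_pos Real.pi_pos]
  have h3 : Real.pi ^ (-s / 2).re ≤ 1 := by
    refine Real.rpow_le_one_of_one_le_of_nonpos (by linarith [Real.pi_gt_three]) ?_
    have : (-s / 2).re = -s.re / 2 := by simp
    rw [this]
    linarith
  have h4 : ‖Complex.Gamma (s / 2)‖ ≤ |M| := by
    refine (Pool.Agent.W820.TW.norm_Gamma_le (by rw [hre]; linarith)).trans ?_
    have h5 := hM (s / 2).re ⟨by rw [hre]; linarith, by rw [hre]; linarith⟩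
    exact (le_abs_self _).trans (h5.trans (le_abs_self _))
  calc Real.pi ^ (-s / 2).re * ‖Complex.Gamma (s / 2)‖ ≤ 1 * |M| := by gcongr
    _ = _ := one_mul _

variable {κ : Type} [Fintype κ]

lemma GG1_diff {R : ℝ} (hR : 0 < R) {μ : κ → ℂ} (hμ : ∀ i, -1 / 2 < (μ i).re) {z : ℂ}
    (hz : z.re ≤ 1 / 2) : DifferentiableAt ℂ (fun z : ℂ => GGc R (cj μ) (1 - z)) z := by
  have hRc : (R : ℂ) ≠ 0 := ofReal_ne_zero.mpr hR.ne'
  unfold GGc
  refine DifferentiableAt.mul (DifferentiableAt.const_cpow (by fun_prop) (Or.inl hRc)) ?_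
  refine DifferentiableAt.fun_finsetProd fun i _ => ?_
  have h1 : 0 < (1 - z + cj μ i).re := by
    simp only [cj, add_re, sub_re, one_re, conj_re]
    linarith [hμ i]
  have h2 : DifferentiableAt ℂ (fun z : ℂ => 1 - z + cj μ i) z := by fun_prop
  exact DifferentiableAt.comp (g := Gammaℝ) (f := fun z : ℂ => 1 - z + cj μ i) z (gam_diff h1) h2

lemma GG1_bd {R : ℝ} (hR : 0 < R) {μ : κ → ℂ} (hμ : ∀ i, -1 / 2 < (μ i).re) :
    ∃ C : ℝ, 0 ≤ C ∧ ∀ z ∈ strip (-1 / 2) (1 / 2), ‖GGc R (cj μ) (1 - z)‖ ≤ C := by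
  have hch : ∀ i, ∃ C : ℝ, 0 ≤ C ∧ ∀ s : ℂ, 1 / 2 + (μ i).re ≤ s.re → s.re ≤ 3 / 2 + (μ i).re →
      ‖Gammaℝ s‖ ≤ C := fun i => gam_bd (by linarith [hμ i])
  choose C hC0 hC using hch
  have hm : 1 ≤ max 1 R := le_max_left _ _
  refine ⟨max 1 R * ∏ i, C i, mul_nonneg (by linarith) (Finset.prod_nonneg fun i _ => hC0 i),
    fun z hz => ?_⟩
  unfold GGc
  rw [norm_mul, norm_prod, Complex.norm_cpow_eq_rpow_re_of_pos hR]
  have h1 : R ^ ((1 - z) / 2).re ≤ max 1 R := by
    have hre : ((1 - z) / 2).re = (1 - z.re) / 2 := by simp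
    rw [hre]
    calc R ^ ((1 - z.re) / 2) ≤ (max 1 R) ^ ((1 - z.re) / 2) :=
          Real.rpow_le_rpow hR.le (le_max_right _ _) (by linarith [hz.2])
      _ ≤ (max 1 R) ^ (1 : ℝ) := Real.rpow_le_rpow_of_exponent_le hm (by linarith [hz.1])
      _ = _ := Real.rpow_one _
  have h2 : ∏ i, ‖Gammaℝ (1 - z + cj μ i)‖ ≤ ∏ i, C i := by
    refine Finset.prod_le_prod (fun i _ => norm_nonneg _) fun i _ => ?_
    refine hC i _ ?_ ?_
    · simp only [cj, add_re, sub_re, one_re, conj_re]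
      linarith [hz.2]
    · simp only [cj, add_re, sub_re, one_re, conj_re]
      linarith [hz.1]
  have h3 : 0 ≤ ∏ i, ‖Gammaℝ (1 - z + cj μ i)‖ := Finset.prod_nonneg fun i _ => norm_nonneg _
  gcongr

lemma GGi_diff {R : ℝ} (hR : 0 < R) (μ : κ → ℂ) : Differentiable ℂ fun z : ℂ => (GGc R μ z)⁻¹ := by
  have hRc : (R : ℂ) ≠ 0 := ofReal_ne_zero.mpr hR.ne'
  have : (fun z : ℂ => (GGc R μ z)⁻¹) = fun z : ℂ => ((R : ℂ) ^ (z / 2))⁻¹ *
      ∏ i, (Gammaℝ (z + μ i))⁻¹ := by
    funext z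
    unfold GGc
    rw [mul_inv, Finset.prod_inv_distrib]
  rw [this]
  intro z
  refine DifferentiableAt.mul ?_ ?_
  · refine DifferentiableAt.inv (DifferentiableAt.const_cpow (by fun_prop) (Or.inl hRc)) ?_
    exact (Complex.cpow_ne_zero_iff.2 (Or.inl hRc))
  · refine DifferentiableAt.fun_finsetProd fun i _ => ?_
    have h2 : DifferentiableAt ℂ (fun z : ℂ => z + μ i) z := by fun_prop
    exact DifferentiableAt.comp (g := fun s : ℂ => (Gammaℝ s)⁻¹) (f := fun z : ℂ => z + μ i) z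
      (differentiable_Gammaℝ_inv (z + μ i)) h2

/-- an eventual exponential bound is a global one -/
lemma gr_of_eventually {f : ℂ → ℂ} {a b : ℝ} (hc : ContinuousOn f (strip a b)) {C A T₀ : ℝ}
    (hC : ∀ z ∈ strip a b, T₀ ≤ |z.im| → ‖f z‖ ≤ C * Real.exp (A * |z.im|)) :
    ∃ A' C' : ℝ, ∀ z ∈ strip a b, ‖f z‖ ≤ C' * Real.exp (A' * |z.im|) := by
  have hK : IsCompact (Set.Icc a b ×ℂ Set.Icc (-|T₀|) |T₀|) := isCompact_Icc.reProdIm isCompact_Icc
  have hsub : (Set.Icc a b ×ℂ Set.Icc (-|T₀|) |T₀|) ⊆ strip a b := fun z hz => ⟨hz.1.1, hz.1.2⟩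
  obtain ⟨M, hM⟩ := hK.exists_bound_of_continuousOn (hc.mono hsub)
  refine ⟨|A|, |C| + |M|, fun z hz => ?_⟩
  have h0 : 1 ≤ Real.exp (|A| * |z.im|) := Real.one_le_exp (by positivity)
  rcases le_total |z.im| |T₀| with h | h
  · have h1 := hM z ⟨⟨hz.1, hz.2⟩, abs_le.1 h⟩
    have h5 := le_abs_self M
    have h6 := abs_nonneg C
    nlinarith [abs_nonneg M]
  · have h1 := hC z hz ((le_abs_self _).trans h)
    have h2 : Real.exp (A * |z.im|) ≤ Real.exp (|A| * |z.im|) :=
      Real.exp_le_exp.2 (mul_le_mul_of_nonneg_right (le_abs_self _) (abs_nonneg _))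
    calc ‖f z‖ ≤ C * Real.exp (A * |z.im|) := h1
      _ ≤ |C| * Real.exp (|A| * |z.im|) := by
        gcongr
        exact le_abs_self _
      _ ≤ _ := by
        have := abs_nonneg M
        gcongr
        linarith

lemma dense_im (μ : κ → ℂ) : Dense ((Set.range fun i => -(μ i).im)ᶜ : Set ℝ) :=
  (Set.finite_range _).countable.dense_compl ℝ

/-- **a member** -/
theorem mem_of_fec {R V : ℝ} (hR : 0 < R) {μ : κ → ℂ} (hμ : ∀ i, -1 / 2 < (μ i).re)
    (hμV : ∀ i, ‖μ i‖ + 3 ≤ V) (hV : 0 ≤ V) {F : ℂ → ℂ} (hF : FEc R μ F) {c ψ : ℕ → ℂ}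
    (hL : Lin c)
    (hmul : ∀ k n, ψ (k * n) = ψ k * ψ n) (hone : ψ 1 = 1) (hle : ∀ n, ‖ψ n‖ ≤ 1)
    (hser : ∀ s : ℂ, 1 < s.re → F s = LSeries (tw ψ (E c)) s) :
    Mem c R (3 * (1 + V)) (Fintype.card κ) ψ F := by
  have hrel : ∀ i, -1 / 2 ≤ (μ i).re ∧ (μ i).re ≤ V ∧ |(μ i).im| ≤ V := by
    intro i
    have h1 := (le_abs_self _).trans (abs_re_le_norm (μ i))
    have h2 := abs_im_le_norm (μ i)
    have h3 := hμV i
    exact ⟨(hμ i).le, by linarith, by linarith⟩
  obtain ⟨M, hM0, hM⟩ := inv_GGc_le hR hrel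
  have hGd : ∀ z : ℂ, V + 2 ≤ |z.im| → Gd μ z := by
    intro z hz i h
    have h1 : z.im = -(μ i).im := by linarith
    rw [h1, abs_neg] at hz
    linarith [(hrel i).2.2]
  refine ⟨hmul, hone, hle, hF.diff, hser, ?_, ?_⟩
  · -- growth
    obtain ⟨C, hC⟩ := hF.vert (-1 / 2) (3 / 2)
    have hsum := (hL.summ (σ := 3 / 2) (by norm_num))
    set B : ℝ := ∑' n : ℕ, E (fun k => ‖c k‖) n * (n : ℝ) ^ (-(3 / 2) : ℝ) with hB
    have hB0 : 0 ≤ B := tsum_nonneg fun n =>
      mul_nonneg (E_nonneg (fun k => norm_nonneg _) n) (by positivity)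
    have hFB : ∀ s : ℂ, 3 / 2 ≤ s.re → ‖F s‖ ≤ B := by
      intro s hs
      rw [hser s (by linarith)]
      refine tsum_of_norm_bounded hsum.hasSum fun n => ?_
      rcases eq_or_ne n 0 with rfl | hn
      · simp [E_zero]
      · have hn1 : (1 : ℝ) ≤ n := by exact_mod_cast Nat.one_le_iff_ne_zero.mpr hn
        have hn0 : (0 : ℝ) < n := by linarith
        rw [LSeries.norm_term_eq, if_neg hn, div_eq_mul_inv, ← Real.rpow_neg hn0.le]
        have h1 := (norm_tw_le hle (E c) n).trans (norm_E_le c n)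
        have h2 : (n : ℝ) ^ (-s.re) ≤ (n : ℝ) ^ (-(3 / 2) : ℝ) :=
          Real.rpow_le_rpow_of_exponent_le hn1 (by linarith)
        have h3 := E_nonneg (κ := fun k => ‖c k‖) (fun k => norm_nonneg _) n
        gcongr
    refine gr_of_eventually (C := M * |C| + B) (A := Fintype.card κ * 5) (T₀ := V + 3)
      hF.diff.continuous.continuousOn fun z hz hT => ?_
    have hexp : 1 ≤ Real.exp (Fintype.card κ * 5 * |z.im|) := Real.one_le_exp (by positivity)
    have hz0 : Gd μ z := hGd z (by linarith)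
    have hne := GGc_ne hR hz0
    rcases le_total z.re (3 / 2) with h | h
    · have h1 := hM z hz.1 h (by linarith)
      have h2 := hC z hz.1 h (fun i => by
        have := abs_sub_abs_le_abs_sub z.im (-(μ i).im)
        rw [abs_neg, sub_neg_eq_add] at this
        linarith [(hrel i).2.2])
      have h3 : F z = (GGc R μ z)⁻¹ * (GGc R μ z * F z) := by
        rw [← mul_assoc, inv_mul_cancel₀ hne, one_mul]
      rw [h3, norm_mul]
      calc ‖(GGc R μ z)⁻¹‖ * ‖GGc R μ z * F z‖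
          ≤ (M * Real.exp (Fintype.card κ * 5 * |z.im|)) * |C| := by
            gcongr
            exact h2.trans (le_abs_self _)
        _ = M * |C| * Real.exp (Fintype.card κ * 5 * |z.im|) := by ring
        _ ≤ _ := by
            gcongr
            linarith
    · have h1 := hFB z h
      have h2 : 0 ≤ M * |C| := by positivity
      calc ‖F z‖ ≤ B * 1 := by rw [mul_one]; exact h1
        _ ≤ (M * |C| + B) * Real.exp (Fintype.card κ * 5 * |z.im|) := by
            gcongr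
            linarith
  · -- the functional equation
    obtain ⟨w, hw, hfe⟩ := fe_asym hR hF
    have hLX : ∀ z : ℂ, LX w R μ z = w * GGc R (cj μ) (1 - z) * (GGc R μ z)⁻¹ := fun z => by
      unfold LX
      rw [div_eq_mul_inv]
    have hLXd : ∀ z : ℂ, z.re ≤ 1 / 2 → DifferentiableAt ℂ (LX w R μ) z := by
      intro z hz
      have : LX w R μ = fun z => w * GGc R (cj μ) (1 - z) * (GGc R μ z)⁻¹ := funext hLX
      rw [this]
      exact ((GG1_diff hR hμ hz).const_mul w).mul (GGi_diff hR μ z)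
    have hcs : ContinuousOn (LX w R μ) (strip (-1 / 2) (1 / 2)) := fun z hz =>
      (hLXd z hz.2).continuousAt.continuousWithinAt
    have hcl : Continuous fun t : ℝ => LX w R μ (pt (-1 / 2) t) :=
      continuous_iff_continuousAt.2 fun t =>
        ContinuousAt.comp (g := LX w R μ) (f := pt (-1 / 2))
          (hLXd (pt (-1 / 2) t) (by rw [pt_re]; norm_num)).continuousAt (pt_cont _).continuousAt
    have hGdt : ∀ (x t : ℝ), t ∈ ((Set.range fun i => -(μ i).im)ᶜ : Set ℝ) → Gd μ (pt x t) := by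
      intro x t ht i h
      rw [pt_im] at h
      exact ht ⟨i, by simp only; linarith⟩
    refine ⟨LX w R μ, hcs, fun z hz => (hLXd z hz.2.le).differentiableWithinAt, ?_, ?_, ?_, ?_⟩
    · obtain ⟨C, hC0, hC⟩ := GG1_bd hR hμ
      refine gr_of_eventually (C := C * M) (A := Fintype.card κ * 5) (T₀ := V + 2) hcs
        fun z hz hT => ?_
      have h1 := hM z hz.1 (by linarith [hz.2]) hT
      rw [hLX, norm_mul, norm_mul, hw, one_mul]
      calc ‖GGc R (cj μ) (1 - z)‖ * ‖(GGc R μ z)⁻¹‖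
          ≤ C * (M * Real.exp (Fintype.card κ * 5 * |z.im|)) := by
            gcongr
            exact hC z hz
        _ = _ := by ring
    · intro t
      have hz : 1 - pt (1 / 2) t = conj (pt (1 / 2) t) := by
        apply Complex.ext
        · simp; norm_num
        · simp
      rw [hLX, norm_mul, norm_mul, hw, one_mul, hz, ← conj_GGc hR, RCLike.norm_conj, norm_inv]
      rcases eq_or_ne ‖GGc R μ (pt (1 / 2) t)‖ 0 with h | h
      · rw [h]; simp
      · rw [mul_inv_cancel₀ h]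
    · intro t
      have key : ∀ t ∈ ((Set.range fun i => -(μ i).im)ᶜ : Set ℝ),
          ‖LX w R μ (pt (-1 / 2) t)‖ ≤ R * (3 * (1 + V) * (1 + |t|)) ^ Fintype.card κ := by
        intro t ht
        refine (norm_LX hw hR hμV (by rw [pt_re]) (hGdt _ t ht)).trans ?_
        have h1 : ‖pt (-1 / 2) t + 3‖ ≤ 3 * (1 + |t|) := by
          refine (norm_le_abs_re_add_abs_im _).trans ?_
          rw [add_re, add_im, pt_re, pt_im]
          have h2 : (3 : ℂ).re = 3 := by norm_num
          have h3 : (3 : ℂ).im = 0 := by simp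
          rw [h2, h3, add_zero, abs_of_pos (by norm_num : (0 : ℝ) < -1 / 2 + 3)]
          have := abs_nonneg t
          linarith
        have h4 : (1 + V) * ‖pt (-1 / 2) t + 3‖ ≤ 3 * (1 + V) * (1 + |t|) := by
          calc (1 + V) * ‖pt (-1 / 2) t + 3‖ ≤ (1 + V) * (3 * (1 + |t|)) := by gcongr
            _ = _ := by ring
        exact mul_le_mul_of_nonneg_left (pow_le_pow_left₀ (by positivity) h4 _) hR.le
      have hcl2 : IsClosed {t : ℝ | ‖LX w R μ (pt (-1 / 2) t)‖ ≤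
          R * (3 * (1 + V) * (1 + |t|)) ^ Fintype.card κ} :=
        isClosed_le hcl.norm (by fun_prop)
      have h5 : closure ((Set.range fun i => -(μ i).im)ᶜ : Set ℝ) ⊆ _ :=
        closure_minimal (fun t ht => key t ht) hcl2
      rw [(dense_im μ).closure_eq] at h5
      exact h5 (Set.mem_univ t)
    · intro t
      have hrf : Continuous fun t : ℝ => rfl1 F (pt (-1 / 2) t) :=
        (rfl1_diff hF.diff).continuous.comp (pt_cont _)
      have h1 : Continuous fun t : ℝ => F (pt (-1 / 2) t) := hF.diff.continuous.comp (pt_cont _)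
      have h2 := (dense_im μ)
      have h3 := Continuous.ext_on h2 h1 (hcl.mul hrf) (fun t ht => ?_)
      · exact congrFun h3 t
      · exact hfe _ (hGdt _ t ht)

end Pool.Agent.R399.TW
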