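import Pool.Agent.R399.TW.Par

/-!
# The family of the characters of one modulus
-/

set_option autoImplicit false

namespace Pool.Agent.R399.TW

open Finset Filter Topology Complex MeasureTheory

lemma card_res {q : ℕ} [NeZero q] (N : ℕ) (a : ZMod q) :
    (((Icc 1 N).filter (fun n : ℕ => (n : ZMod q) = a)).card : ℝ) ≤ N / q + 1 := by
  have hq : 0 < q := NeZero.pos q
  have h1 : ((Icc 1 N).filter (fun n : ℕ => (n : ZMod q) = a)).card ≤ (range (N / q + 1)).card := by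
    refine Finset.card_le_card_of_injOn (fun n => n / q) (fun n hn => ?_) fun n hn k hk hnk => ?_
    · rw [Finset.mem_coe, Finset.mem_filter, mem_Icc] at hn
      rw [Finset.mem_coe, Finset.mem_range]
      exact Nat.lt_succ_of_le (Nat.div_le_div_right hn.1.2)
    · rw [Finset.mem_coe, Finset.mem_filter] at hn hk
      have h2 : (n : ZMod q) = (k : ZMod q) := by rw [hn.2, hk.2]
      rw [ZMod.natCast_eq_natCast_iff] at h2
      have h3 : n % q = k % q := h2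
      have h4 : n / q = k / q := hnk
      rw [← Nat.div_add_mod n q, ← Nat.div_add_mod k q, h3, h4]
  rw [Finset.card_range] at h1
  have h2 : (((Icc 1 N).filter (fun n : ℕ => (n : ZMod q) = a)).card : ℝ) ≤ ((N / q + 1 : ℕ) : ℝ) := by
    exact_mod_cast h1
  refine h2.trans ?_
  push_cast
  have h3 : ((N / q : ℕ) : ℝ) ≤ N / q := Nat.cast_div_le
  linarith

/-- the large sieve for one modulus -/
theorem ls_one {q : ℕ} [NeZero q] (N : ℕ) (b : ℕ → ℂ) :
    ∑ χ : DirichletCharacter ℂ q, ‖∑ n ∈ Icc 1 N, b n * chs χ n‖ ^ 2 ≤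
      ((q : ℝ) + N) * ∑ n ∈ Icc 1 N, ‖b n‖ ^ 2 := by
  classical
  set g : ZMod q → ℂ := fun a => ∑ n ∈ (Icc 1 N).filter (fun n : ℕ => (n : ZMod q) = a), b n with hg
  have h1 := Pool.Agent.Helper112.MLS.sum_all q g
  have h2 : ∀ χ : DirichletCharacter ℂ q, ∑ a : ZMod q, χ a * g a =
      ∑ n ∈ Icc 1 N, b n * chs χ n := by
    intro χ
    rw [← Finset.sum_fiberwise (Icc 1 N) (fun n : ℕ => (n : ZMod q))]
    refine Finset.sum_congr rfl fun a _ => ?_
    rw [hg, Finset.mul_sum]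
    refine Finset.sum_congr rfl fun n hn => ?_
    rw [Finset.mem_filter] at hn
    unfold chs
    rw [hn.2, mul_comm]
  have h3 : ∑ χ : DirichletCharacter ℂ q, ‖∑ n ∈ Icc 1 N, b n * chs χ n‖ ^ 2 =
      ∑ χ : DirichletCharacter ℂ q, ‖∑ a : ZMod q, χ⁻¹ a * g a‖ ^ 2 := by
    rw [← Equiv.sum_comp (Equiv.inv (DirichletCharacter ℂ q))
      (fun χ => ‖∑ n ∈ Icc 1 N, b n * chs χ n‖ ^ 2)]
    refine Finset.sum_congr rfl fun χ _ => ?_
    rw [Equiv.inv_apply, ← h2]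
  rw [h3, h1]
  have hq0 : (0 : ℝ) < q := by exact_mod_cast NeZero.pos q
  have h4 : ∀ a : (ZMod q)ˣ, ‖g a‖ ^ 2 ≤ ((N : ℝ) / q + 1) *
      ∑ n ∈ (Icc 1 N).filter (fun n : ℕ => (n : ZMod q) = a), ‖b n‖ ^ 2 := by
    intro a
    have h5 : ‖g a‖ ≤ ∑ n ∈ (Icc 1 N).filter (fun n : ℕ => (n : ZMod q) = a), 1 * ‖b n‖ := by
      rw [hg]
      exact norm_sum_le_of_le _ fun n _ => by rw [one_mul]
    have h6 := Finset.sum_mul_sq_le_sq_mul_sq
      ((Icc 1 N).filter (fun n : ℕ => (n : ZMod q) = a)) (fun _ => (1 : ℝ)) (fun n => ‖b n‖)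
    have h7 := pow_le_pow_left₀ (norm_nonneg _) h5 2
    refine (h7.trans h6).trans ?_
    simp only [one_pow, Finset.sum_const, nsmul_eq_mul, mul_one]
    refine mul_le_mul_of_nonneg_right (card_res N _) (Finset.sum_nonneg fun _ _ => by positivity)
  have h8 : ∑ a : (ZMod q)ˣ, ∑ n ∈ (Icc 1 N).filter (fun n : ℕ => (n : ZMod q) = a), ‖b n‖ ^ 2 ≤
      ∑ n ∈ Icc 1 N, ‖b n‖ ^ 2 := by
    rw [← Finset.sum_fiberwise (Icc 1 N) (fun n : ℕ => (n : ZMod q))]
    have h9 : ∑ a : (ZMod q)ˣ, ∑ n ∈ (Icc 1 N).filter (fun n : ℕ => (n : ZMod q) = a), ‖b n‖ ^ 2 =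
        ∑ a ∈ (univ : Finset (ZMod q)ˣ).map ⟨Units.val, Units.val_injective⟩,
          ∑ n ∈ (Icc 1 N).filter (fun n : ℕ => (n : ZMod q) = a), ‖b n‖ ^ 2 := by
      rw [Finset.sum_map]
      rfl
    rw [h9]
    exact Finset.sum_le_sum_of_subset_of_nonneg (Finset.subset_univ _)
      fun _ _ _ => Finset.sum_nonneg fun _ _ => by positivity
  have h10 : (Nat.totient q : ℝ) ≤ q := by exact_mod_cast Nat.totient_le q
  calc (Nat.totient q : ℝ) * ∑ a : (ZMod q)ˣ, ‖g a‖ ^ 2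
      ≤ q * ∑ a : (ZMod q)ˣ, ((N : ℝ) / q + 1) *
        ∑ n ∈ (Icc 1 N).filter (fun n : ℕ => (n : ZMod q) = a), ‖b n‖ ^ 2 := by
        gcongr with a _
        exact h4 a
    _ = ((q : ℝ) + N) * ∑ a : (ZMod q)ˣ,
        ∑ n ∈ (Icc 1 N).filter (fun n : ℕ => (n : ZMod q) = a), ‖b n‖ ^ 2 := by
        rw [← Finset.mul_sum]
        field_simp
        ring
    _ ≤ _ := by gcongr

/-- the number of primitive characters modulo `q` with the property `S χ` -/
noncomputable def countq (q : ℕ) (S : DirichletCharacter ℂ q → Prop) : ℕ :=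
  {χ : DirichletCharacter ℂ q | χ.IsPrimitive ∧ S χ}.ncard

open Classical in
/-- the pairs `(q, χ)` -/
noncomputable def idq (q : ℕ) (S : DirichletCharacter ℂ q → Prop) :
    Finset (Σ q : ℕ, DirichletCharacter ℂ q) :=
  ((univ : Finset (DirichletCharacter ℂ q)).filter (fun χ => χ.IsPrimitive ∧ S χ)).map
    ⟨fun χ => ⟨q, χ⟩, sigma_mk_injective⟩

lemma mem_idq {q : ℕ} {S : DirichletCharacter ℂ q → Prop} {i : Σ q : ℕ, DirichletCharacter ℂ q}
    (hi : i ∈ idq q S) : ∃ χ : DirichletCharacter ℂ q, i = ⟨q, χ⟩ ∧ χ.IsPrimitive ∧ S χ := by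
  classical
  unfold idq at hi
  rw [Finset.mem_map] at hi
  obtain ⟨χ, h1, h2⟩ := hi
  rw [Finset.mem_filter] at h1
  exact ⟨χ, h2.symm, h1.2⟩

lemma card_idq (q : ℕ) (S : DirichletCharacter ℂ q → Prop) : (idq q S).card = countq q S := by
  classical
  unfold idq countq
  rw [Finset.card_map, Set.ncard_eq_toFinset_card']
  congr 1
  ext χ
  simp

lemma ls_idq {q : ℕ} (hq : 1 ≤ q) (S : DirichletCharacter ℂ q → Prop) :
    LSv (idq q S) (fun i => chs i.2) 6 ((q : ℝ) ^ 1) 0 where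
  H_nn := by norm_num
  P_ge := by
    rw [pow_one]
    exact_mod_cast hq
  η_nn := le_rfl
  norm_le := fun i _ n => chs_le i.2 n
  ls := by
    classical
    intro M b
    have : NeZero q := ⟨by omega⟩
    rw [Real.rpow_zero, mul_one, pow_one]
    unfold idq
    rw [Finset.sum_map]
    have h1 := ls_one (q := q) M b
    have h2 : 0 ≤ ((q : ℝ) + M) * ∑ n ∈ Icc 1 M, ‖b n‖ ^ 2 :=
      mul_nonneg (by positivity) (Finset.sum_nonneg fun _ _ => by positivity)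
    calc ∑ χ ∈ (univ : Finset (DirichletCharacter ℂ q)).filter (fun χ => χ.IsPrimitive ∧ S χ),
          ‖∑ n ∈ Icc 1 M, b n * chs χ n‖ ^ 2
        ≤ ∑ χ : DirichletCharacter ℂ q, ‖∑ n ∈ Icc 1 M, b n * chs χ n‖ ^ 2 :=
          Finset.sum_le_sum_of_subset_of_nonneg (Finset.filter_subset _ _)
            fun _ _ _ => by positivity
      _ ≤ ((q : ℝ) + M) * ∑ n ∈ Icc 1 M, ‖b n‖ ^ 2 := h1
      _ ≤ _ := by
        rw [mul_assoc]
        linarith

lemma countq_le {q : ℕ} (hq : 1 ≤ q) (S : DirichletCharacter ℂ q → Prop) :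
    (countq q S : ℝ) ≤ (q : ℝ) ^ 1 := by
  have : NeZero q := ⟨by omega⟩
  rw [pow_one]
  have h1 : countq q S ≤ q := by
    unfold countq
    refine (Set.ncard_le_card _).trans ?_
    rw [DirichletCharacter.card_eq_totient_of_hasEnoughRootsOfUnity]
    exact Nat.totient_le q
  exact_mod_cast h1

/-- density estimates for one modulus -/
theorem dens_one {m N : ℕ} {L : (q : ℕ) → DirichletCharacter ℂ q → ℂ → ℂ} (h : Fm m N L) {D : ℝ}
    (hD : 0 ≤ D) : ∃ C B : ℝ, 0 ≤ C ∧ 0 ≤ B ∧ ∀ (q : ℕ) (δ T x y n E : ℝ), 2 ≤ q →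
      Nat.Coprime q N → 0 ≤ δ → 0 ≤ T → Adm m 1 D δ x y n E →
      (countq q (fun χ => Far (L q χ) δ T) : ℝ) ≤
        C * (1 + T) ^ (2 * m + 1) * (1 + Real.log q) ^ B * (q : ℝ) ^ E := by
  classical
  obtain ⟨C, B, hC, hB, hd⟩ := dens h hD
  refine ⟨C, B, hC, hB, fun q δ T x y n E hq hqN hδ hT hAdm => ?_⟩
  have hle := countq_le (by omega : 1 ≤ q) (fun χ => Far (L q χ) δ T)
  rw [← card_idq] at hle ⊢
  refine hd 1 q δ T x y n E _ (by omega) hδ hT hAdm (ls_idq (by omega) _) hle fun i hi => ?_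
  obtain ⟨χ, rfl, h1, h2⟩ := mem_idq hi
  exact ⟨⟨hq, le_rfl, hqN, h1⟩, h2⟩

end Pool.Agent.R399.TW
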