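import Pool.Agent.R399.TW.InstE
import Pool.Agent.R399.TW.Grid
import Pool.Agent.Helper112.MultLS

/-!
# The family of all primitive characters
-/

set_option autoImplicit false

namespace Pool.Agent.R399.TW

open Finset Filter Topology Complex MeasureTheory

/-- the number of primitive characters `χ` of conductor `q`, `2 ≤ q ≤ Q`, `(q, N) = 1`, with the
property `S q χ` -/
noncomputable def count (N Q : ℕ) (S : (q : ℕ) → DirichletCharacter ℂ q → Prop) : ℕ :=
  ∑ q ∈ (Icc 2 Q).filter (fun q => Nat.Coprime q N),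
    {χ : DirichletCharacter ℂ q | χ.IsPrimitive ∧ S q χ}.ncard

open Classical in
/-- the pairs `(q, χ)` -/
noncomputable def idx (N Q : ℕ) : Finset (Σ q : ℕ, DirichletCharacter ℂ q) :=
  ((Icc 2 Q).filter (fun q => Nat.Coprime q N)).sigma
    (fun q => (univ : Finset (DirichletCharacter ℂ q)).filter (fun χ => χ.IsPrimitive))

lemma mem_idx {N Q : ℕ} {i : Σ q : ℕ, DirichletCharacter ℂ q} : i ∈ idx N Q ↔
    (2 ≤ i.1 ∧ i.1 ≤ Q) ∧ Nat.Coprime i.1 N ∧ i.2.IsPrimitive := by
  classical
  unfold idx
  rw [Finset.mem_sigma, Finset.mem_filter, Finset.mem_filter, mem_Icc]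
  simp only [Finset.mem_univ, true_and]
  tauto

open Classical in
lemma count_eq (N Q : ℕ) (S : (q : ℕ) → DirichletCharacter ℂ q → Prop) :
    count N Q S = ((idx N Q).filter (fun i => S i.1 i.2)).card := by
  have h1 : (idx N Q).filter (fun i => S i.1 i.2) =
      ((Icc 2 Q).filter (fun q => Nat.Coprime q N)).sigma
      (fun q => (univ : Finset (DirichletCharacter ℂ q)).filter
        (fun χ => χ.IsPrimitive ∧ S q χ)) := by
    ext i
    rw [Finset.mem_filter, mem_idx, Finset.mem_sigma, Finset.mem_filter, Finset.mem_filter, mem_Icc]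
    simp only [Finset.mem_univ, true_and]
    tauto
  rw [h1, Finset.card_sigma]
  unfold count
  refine Finset.sum_congr rfl fun q _ => ?_
  rw [Set.ncard_eq_toFinset_card']
  congr 1
  ext χ
  simp

/-- the large sieve -/
theorem ls_idx (N : ℕ) {Q : ℕ} (hQ : 1 ≤ Q) :
    LSv (idx N Q) (fun i => chs i.2) 6 ((Q : ℝ) ^ 2) 0 where
  H_nn := by norm_num
  P_ge := by
    have : (1 : ℝ) ≤ Q := by exact_mod_cast hQ
    nlinarith
  η_nn := le_rfl
  norm_le := fun i _ n => chs_le i.2 n
  ls := by
    classical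
    intro M b
    rw [Real.rpow_zero, mul_one]
    have h := Pool.Agent.Helper112.mult_large_sieve M Q b
    unfold idx
    rw [Finset.sum_sigma]
    refine le_trans ?_ (h.trans (le_of_eq (by ring)))
    calc ∑ q ∈ (Icc 2 Q).filter (fun q => Nat.Coprime q N),
          ∑ χ ∈ (univ : Finset (DirichletCharacter ℂ q)).filter (fun χ => χ.IsPrimitive),
            ‖∑ n ∈ Icc 1 M, b n * chs χ n‖ ^ 2
        ≤ ∑ q ∈ (Icc 2 Q).filter (fun q => Nat.Coprime q N), ((q : ℝ) / (Nat.totient q : ℝ)) *
          ∑ χ ∈ (univ : Finset (DirichletCharacter ℂ q)).filter (fun χ => χ.IsPrimitive),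
            ‖∑ n ∈ Icc 1 M, b n * χ (n : ZMod q)‖ ^ 2 := by
          refine Finset.sum_le_sum fun q hq => ?_
          rw [Finset.mem_filter, mem_Icc] at hq
          have h0 : (0 : ℝ) < Nat.totient q := by
            exact_mod_cast Nat.totient_pos.2 (by omega)
          have h1 : (Nat.totient q : ℝ) ≤ q := by exact_mod_cast Nat.totient_le q
          have h2 : 1 ≤ (q : ℝ) / (Nat.totient q : ℝ) := by rwa [le_div_iff₀ h0, one_mul]
          refine le_mul_of_one_le_left ?_ h2
          exact Finset.sum_nonneg fun _ _ => by positivity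
      _ ≤ _ := by
          refine Finset.sum_le_sum_of_subset_of_nonneg ?_ fun q _ _ => ?_
          · intro q hq
            rw [Finset.mem_filter, mem_Icc] at hq
            rw [mem_Icc]
            omega
          · exact mul_nonneg (by positivity) (Finset.sum_nonneg fun _ _ => by positivity)

/-- the trivial bound -/
lemma count_le (N Q : ℕ) (S : (q : ℕ) → DirichletCharacter ℂ q → Prop) :
    (count N Q S : ℝ) ≤ (Q : ℝ) ^ 2 := by
  classical
  have h1 : count N Q S ≤ ∑ q ∈ Icc 2 Q, Q := by
    unfold count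
    refine (Finset.sum_le_sum fun q hq => ?_).trans
      (Finset.sum_le_sum_of_subset (f := fun _ => Q) (Finset.filter_subset _ (Icc 2 Q)))
    rw [Finset.mem_filter, mem_Icc] at hq
    have : NeZero q := ⟨by omega⟩
    refine (Set.ncard_le_card _).trans ?_
    rw [DirichletCharacter.card_eq_totient_of_hasEnoughRootsOfUnity]
    exact (Nat.totient_le q).trans hq.1.2
  rw [Finset.sum_const, smul_eq_mul, Nat.card_Icc] at h1
  have h2 : count N Q S ≤ Q * Q := h1.trans (Nat.mul_le_mul_right _ (by omega))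
  have h3 : (count N Q S : ℝ) ≤ (Q : ℝ) * Q := by exact_mod_cast h2
  rwa [pow_two]

end Pool.Agent.R399.TW
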