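import Pool.Agent.R399.TW.Gauss

/-!
# Shifting a vertical line of integration
-/

set_option autoImplicit false

namespace Pool.Agent.R399.TW

open MeasureTheory Set Filter Topology Complex

lemma exp_abs_int {c : ℝ} (hc : 0 < c) : Integrable fun t : ℝ => Real.exp (-c * |t|) := by
  have h1 : IntegrableOn (fun t : ℝ => Real.exp (-c * |t|)) (Ioi 0) := by
    refine (exp_neg_integrableOn_Ioi 0 hc).congr_fun (fun t ht => ?_) measurableSet_Ioi
    have : (0 : ℝ) < t := ht
    simp only [abs_of_pos this]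
  have h2 : IntegrableOn (fun t : ℝ => Real.exp (-c * |t|)) (Iic 0) := by
    have h3 : IntegrableOn (fun t : ℝ => Real.exp (-c * |t|)) (Ici 0) :=
      (integrableOn_Ici_iff_integrableOn_Ioi (by simp)).2 h1
    have h4 := (Measure.measurePreserving_neg (volume : Measure ℝ)).integrableOn_comp_preimage
      (Homeomorph.neg ℝ).measurableEmbedding (f := fun t : ℝ => Real.exp (-c * |t|)) (s := Ici 0)
    have h5 := h4.2 h3
    have h6 : (fun x : ℝ => -x) ⁻¹' Ici 0 = Iic 0 := by ext x; simp
    rw [h6] at h5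
    refine h5.congr_fun (fun t _ => ?_) measurableSet_Iic
    simp
  have h7 := h2.union h1
  rw [Iic_union_Ioi] at h7
  exact integrableOn_univ.1 h7

/-- the strip `a ≤ Re z ≤ b` -/
def strip (a b : ℝ) : Set ℂ := {z | a ≤ z.re ∧ z.re ≤ b}

lemma vert_int {f : ℂ → ℂ} {a b x : ℝ} (hx : a ≤ x) (hx' : x ≤ b)
    (hc : ContinuousOn f (strip a b)) {C : ℝ}
    (hC : ∀ z ∈ strip a b, ‖f z‖ ≤ C * Real.exp (-|z.im|)) :
    Integrable fun t : ℝ => f (pt x t) := by
  have h1 : Continuous fun t : ℝ => f (pt x t) :=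
    hc.comp_continuous (pt_cont x) fun t => ⟨by simpa using hx, by simpa using hx'⟩
  have h2 := (exp_abs_int (c := 1) one_pos).const_mul C
  refine h2.mono' h1.aestronglyMeasurable (Eventually.of_forall fun t => ?_)
  have := hC (pt x t) ⟨by simpa using hx, by simpa using hx'⟩
  simpa using this

/-- **shift of the line of integration** -/
theorem vshift {f : ℂ → ℂ} {a b : ℝ} (hab : a ≤ b)
    (hc : ContinuousOn f (strip a b)) (hd : DifferentiableOn ℂ f {z | a < z.re ∧ z.re < b})
    {C : ℝ} (hC : ∀ z ∈ strip a b, ‖f z‖ ≤ C * Real.exp (-|z.im|)) :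
    ∫ t : ℝ, f (pt a t) = ∫ t : ℝ, f (pt b t) := by
  have hia := vert_int le_rfl hab hc hC
  have hib := vert_int hab le_rfl hc hC
  have hC0 : 0 ≤ C := by
    have := (norm_nonneg _).trans (hC (pt a 0) ⟨by simp, by simpa using hab⟩)
    simpa using this
  have ta := intervalIntegral_tendsto_integral hia tendsto_neg_atTop_atBot tendsto_id
  have tb := intervalIntegral_tendsto_integral hib tendsto_neg_atTop_atBot tendsto_id
  have key : ∀ T : ℝ, 0 ≤ T → ‖(∫ t in (-T)..T, f (pt b t)) - ∫ t in (-T)..T, f (pt a t)‖ ≤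
      2 * (C * Real.exp (-T) * (b - a)) := by
    intro T hT
    have h := integral_boundary_rect_eq_zero_of_continuousOn_of_differentiableOn f
      (pt a (-T)) (pt b T) ?_ ?_
    · simp only [pt_re, pt_im] at h
      have e1 : ∀ y : ℝ, ((b : ℂ) + (y : ℂ) * I) = pt b y := fun y => rfl
      have e2 : ∀ y : ℝ, ((a : ℂ) + (y : ℂ) * I) = pt a y := fun y => rfl
      simp only [e1, e2] at h
      have h1 : ‖∫ x in a..b, f ((x : ℂ) + ((-T : ℝ) : ℂ) * I)‖ ≤ C * Real.exp (-T) * (b - a) := by
        have := intervalIntegral.norm_integral_le_of_norm_le_const (a := a) (b := b)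
          (f := fun x : ℝ => f ((x : ℂ) + ((-T : ℝ) : ℂ) * I)) (C := C * Real.exp (-T)) ?_
        · rwa [abs_of_nonneg (by linarith)] at this
        · intro x hx
          rw [uIoc_of_le hab] at hx
          have h2 := hC ((x : ℂ) + ((-T : ℝ) : ℂ) * I)
            ⟨by simpa using hx.1.le, by simpa using hx.2⟩
          refine h2.trans (le_of_eq ?_)
          simp [abs_of_nonneg hT]
      have h3 : ‖∫ x in a..b, f ((x : ℂ) + (T : ℂ) * I)‖ ≤ C * Real.exp (-T) * (b - a) := by
        have := intervalIntegral.norm_integral_le_of_norm_le_const (a := a) (b := b)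
          (f := fun x : ℝ => f ((x : ℂ) + (T : ℂ) * I)) (C := C * Real.exp (-T)) ?_
        · rwa [abs_of_nonneg (by linarith)] at this
        · intro x hx
          rw [uIoc_of_le hab] at hx
          have h2 := hC ((x : ℂ) + (T : ℂ) * I)
            ⟨by simpa using hx.1.le, by simpa using hx.2⟩
          refine h2.trans (le_of_eq ?_)
          simp [abs_of_nonneg hT]
      set P := ∫ x in a..b, f ((x : ℂ) + ((-T : ℝ) : ℂ) * I)
      set Q := ∫ x in a..b, f ((x : ℂ) + (T : ℂ) * I)
      set U := ∫ t in (-T)..T, f (pt b t)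
      set W := ∫ t in (-T)..T, f (pt a t)
      have h4 : I • (U - W) = Q - P := by
        simp only [smul_eq_mul] at h ⊢
        linear_combination h
      have h5 : ‖U - W‖ = ‖Q - P‖ := by
        rw [← h4, norm_smul, norm_I, one_mul]
      rw [h5]
      refine (norm_sub_le _ _).trans ?_
      linarith
    · simp only [pt_re, pt_im]
      refine hc.mono ?_
      intro z hz
      rw [uIcc_of_le hab] at hz
      exact ⟨hz.1.1, hz.1.2⟩
    · simp only [pt_re, pt_im]
      refine hd.mono ?_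
      intro z hz
      rw [min_eq_left hab, max_eq_right hab] at hz
      exact ⟨hz.1.1, hz.1.2⟩
  have h6 : Tendsto (fun T : ℝ => (∫ t in (-T)..T, f (pt b t)) - ∫ t in (-T)..T, f (pt a t))
      atTop (𝓝 0) := by
    have h7 : Tendsto (fun T : ℝ => 2 * (C * Real.exp (-T) * (b - a))) atTop (𝓝 0) := by
      have h8 := ((Real.tendsto_exp_neg_atTop_nhds_zero.const_mul C).mul_const (b - a)).const_mul 2
      simpa using h8
    refine squeeze_zero_norm' ?_ h7
    filter_upwards [eventually_ge_atTop 0] with T hT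
    exact key T hT
  have h9 := tendsto_nhds_unique h6 (tb.sub ta)
  exact (sub_eq_zero.1 h9.symm).symm

/-- an eventual bound is a global bound -/
lemma bd_of_eventually {f : ℂ → ℂ} {a b : ℝ} (hc : ContinuousOn f (strip a b)) {C T₀ : ℝ}
    (hC : ∀ z ∈ strip a b, T₀ ≤ |z.im| → ‖f z‖ ≤ C * Real.exp (-|z.im|)) :
    ∃ C' : ℝ, ∀ z ∈ strip a b, ‖f z‖ ≤ C' * Real.exp (-|z.im|) := by
  have hK : IsCompact (Icc a b ×ℂ Icc (-|T₀|) |T₀|) := isCompact_Icc.reProdIm isCompact_Icc
  have hsub : (Icc a b ×ℂ Icc (-|T₀|) |T₀|) ⊆ strip a b := fun z hz => ⟨hz.1.1, hz.1.2⟩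
  obtain ⟨M, hM⟩ := hK.exists_bound_of_continuousOn (hc.mono hsub)
  refine ⟨|C| + |M| * Real.exp |T₀|, fun z hz => ?_⟩
  rcases le_total |z.im| |T₀| with h | h
  · have h1 := hM z ⟨⟨hz.1, hz.2⟩, abs_le.1 h⟩
    have h2 : 1 ≤ Real.exp |T₀| * Real.exp (-|z.im|) := by
      rw [← Real.exp_add]
      exact Real.one_le_exp (by linarith)
    have h3 : 0 ≤ |C| * Real.exp (-|z.im|) := by positivity
    have h4 : |M| * 1 ≤ |M| * (Real.exp |T₀| * Real.exp (-|z.im|)) :=
      mul_le_mul_of_nonneg_left h2 (abs_nonneg _)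
    have h5 := le_abs_self M
    rw [add_mul, mul_assoc]
    linarith
  · have h1 := hC z hz ((le_abs_self _).trans h)
    refine h1.trans (mul_le_mul_of_nonneg_right ?_ (Real.exp_pos _).le)
    have h5 := le_abs_self C
    have : 0 ≤ |M| * Real.exp |T₀| := by positivity
    linarith

end Pool.Agent.R399.TW
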