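import Pool.Agent.R399.TW.Dir
import Pool.Agent.R399.TW.Shift

/-!
# Truncated Dirichlet series
-/

set_option autoImplicit false

namespace Pool.Agent.R399.TW

open Finset Filter Topology Complex
open ArithmeticFunction (vonMangoldt)
open scoped ComplexConjugate

/-- the part `n ≤ X` -/
noncomputable def cut (X : ℕ) (f : ℕ → ℂ) (n : ℕ) : ℂ := if n ≤ X then f n else 0

/-- the part `n > X` -/
noncomputable def tl (X : ℕ) (f : ℕ → ℂ) (n : ℕ) : ℂ := if n ≤ X then 0 else f n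

/-- the twist -/
noncomputable def tw (ψ f : ℕ → ℂ) (n : ℕ) : ℂ := ψ n * f n

lemma cut_add_tl (X : ℕ) (f : ℕ → ℂ) (n : ℕ) : cut X f n + tl X f n = f n := by
  unfold cut tl; split_ifs <;> simp

lemma norm_cut_le (X : ℕ) (f : ℕ → ℂ) (n : ℕ) : ‖cut X f n‖ ≤ ‖f n‖ := by
  unfold cut; split_ifs <;> simp

lemma norm_tl_le (X : ℕ) (f : ℕ → ℂ) (n : ℕ) : ‖tl X f n‖ ≤ ‖f n‖ := by
  unfold tl; split_ifs <;> simp

lemma tw_cut (ψ : ℕ → ℂ) (X : ℕ) (f : ℕ → ℂ) : tw ψ (cut X f) = cut X (tw ψ f) := by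
  funext n; unfold tw cut; split_ifs <;> simp

lemma tw_tl (ψ : ℕ → ℂ) (X : ℕ) (f : ℕ → ℂ) : tw ψ (tl X f) = tl X (tw ψ f) := by
  funext n; unfold tw tl; split_ifs <;> simp

lemma norm_tw_le {ψ : ℕ → ℂ} (h : ∀ n, ‖ψ n‖ ≤ 1) (f : ℕ → ℂ) (n : ℕ) : ‖tw ψ f n‖ ≤ ‖f n‖ := by
  unfold tw
  rw [norm_mul]
  exact (mul_le_mul_of_nonneg_right (h n) (norm_nonneg _)).trans (by rw [one_mul])

lemma cv_tw {ψ : ℕ → ℂ} (hm : ∀ k n, ψ (k * n) = ψ k * ψ n) (f g : ℕ → ℂ) :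
    cv (tw ψ f) (tw ψ g) = tw ψ (cv f g) := by
  funext n
  unfold cv tw
  rw [Finset.mul_sum]
  refine Finset.sum_congr rfl fun p hp => ?_
  rw [Nat.mem_divisorsAntidiagonal] at hp
  rw [← hp.1, hm]
  ring

lemma cut_summable (X : ℕ) (f : ℕ → ℂ) (s : ℂ) : LSeriesSummable (cut X f) s := by
  refine summable_of_ne_finset_zero (s := Icc 1 X) fun n hn => ?_
  rw [mem_Icc, not_and_or, not_le, not_le] at hn
  rcases hn with hn | hn
  · have : n = 0 := by omega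
    rw [this]; simp
  · rcases eq_or_ne n 0 with rfl | h0
    · simp
    · rw [LSeries.term_of_ne_zero h0]
      unfold cut
      rw [if_neg (by omega), zero_div]

lemma LSeries_cut (X : ℕ) (f : ℕ → ℂ) (s : ℂ) :
    LSeries (cut X f) s = ∑ n ∈ Icc 1 X, f n * (n : ℂ) ^ (-s) := by
  unfold LSeries
  rw [tsum_eq_sum (s := Icc 1 X)]
  · refine Finset.sum_congr rfl fun n hn => ?_
    rw [mem_Icc] at hn
    rw [LSeries.term_of_ne_zero (by omega)]
    unfold cut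
    rw [if_pos hn.2, Complex.cpow_neg, div_eq_mul_inv]
  · intro n hn
    rw [mem_Icc, not_and_or, not_le, not_le] at hn
    rcases hn with hn | hn
    · have : n = 0 := by omega
      rw [this]; simp
    · rw [LSeries.term_of_ne_zero (by omega)]
      unfold cut
      rw [if_neg (by omega), zero_div]

lemma cut_diff (X : ℕ) (f : ℕ → ℂ) : Differentiable ℂ (LSeries (cut X f)) := by
  have : LSeries (cut X f) = fun s => ∑ n ∈ Icc 1 X, f n * (n : ℂ) ^ (-s) :=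
    funext fun s => LSeries_cut X f s
  rw [this]
  refine Differentiable.fun_sum fun n hn => ?_
  rw [mem_Icc] at hn
  have hn0 : (n : ℂ) ≠ 0 := by exact_mod_cast (show n ≠ 0 by omega)
  intro s
  refine (differentiableAt_const _).mul ?_
  exact DifferentiableAt.const_cpow (by fun_prop) (Or.inl hn0)

/-- a truncated series is bounded in right half planes -/
lemma cut_bd (X : ℕ) (f : ℕ → ℂ) (a : ℝ) :
    ∃ C : ℝ, 0 ≤ C ∧ ∀ s : ℂ, a ≤ s.re → ‖LSeries (cut X f) s‖ ≤ C := by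
  refine ⟨∑ n ∈ Icc 1 X, ‖f n‖ * (n : ℝ) ^ (-a), Finset.sum_nonneg fun n _ => by positivity,
    fun s hs => ?_⟩
  rw [LSeries_cut]
  refine norm_sum_le_of_le _ fun n hn => ?_
  rw [mem_Icc] at hn
  have hn1 : (1 : ℝ) ≤ n := by exact_mod_cast hn.1
  rw [norm_mul, Complex.norm_natCast_cpow_of_pos (by omega), neg_re]
  exact mul_le_mul_of_nonneg_left (Real.rpow_le_rpow_of_exponent_le hn1 (by linarith))
    (norm_nonneg _)

/-- the reflected function `conj (g (1 - conj z))` -/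
noncomputable def rfl1 (g : ℂ → ℂ) (z : ℂ) : ℂ := conj (g (1 - conj z))

lemma rfl1_diff {g : ℂ → ℂ} (hg : Differentiable ℂ g) : Differentiable ℂ (rfl1 g) := by
  intro z
  have h1 : DifferentiableAt ℂ (fun w => g (1 - w)) (conj z) :=
    (hg _).comp _ ((differentiableAt_const _).sub differentiableAt_id)
  have h2 := h1.conj_conj
  rw [Complex.conj_conj] at h2
  exact h2

/-- the exponent of absolute values -/
noncomputable def ab2 (c : ℕ → ℂ) : ℕ → ℝ := E (fun k => 2 * ‖c k‖)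

/-- its square -/
noncomputable def ab4 (c : ℕ → ℂ) : ℕ → ℝ := E (fun k => 4 * ‖c k‖ ^ 2)

lemma ab2_nn (c : ℕ → ℂ) (n : ℕ) : 0 ≤ ab2 c n := E_nonneg (fun k => by positivity) n

lemma ab4_nn (c : ℕ → ℂ) (n : ℕ) : 0 ≤ ab4 c n := E_nonneg (fun k => by positivity) n

lemma ab2_sq (c : ℕ → ℂ) (n : ℕ) : ab2 c n ^ 2 ≤ ab4 c n := by
  have h := norm_E_sq_le (fun k => 2 * ‖c k‖) n
  have e1 : ‖E (fun k => 2 * ‖c k‖) n‖ = ab2 c n := by
    rw [Real.norm_of_nonneg (E_nonneg (fun k => by positivity) n)]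
    rfl
  have e2 : (fun k => ‖2 * ‖c k‖‖ ^ 2) = fun k => 4 * ‖c k‖ ^ 2 := by
    funext k
    rw [Real.norm_of_nonneg (by positivity)]
    ring
  rw [e1, e2] at h
  exact h

lemma cv_le {c f g : ℕ → ℂ} (hf : ∀ n, ‖f n‖ ≤ E (fun k => ‖c k‖) n)
    (hg : ∀ n, ‖g n‖ ≤ E (fun k => ‖c k‖) n) (n : ℕ) : ‖cv f g n‖ ≤ ab2 c n := by
  have h1 : ‖cv f g n‖ ≤ cv (E (fun k => ‖c k‖)) (E (fun k => ‖c k‖)) n := by
    unfold cv
    refine norm_sum_le_of_le _ fun p _ => ?_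
    rw [norm_mul]
    have h1 := hf p.1
    have h2 := hg p.2
    have h3 := norm_nonneg (g p.2)
    have h4 := (norm_nonneg _).trans h1
    gcongr
  rw [E_add] at h1
  have : (fun k => ‖c k‖ + ‖c k‖) = fun k => 2 * ‖c k‖ := by funext k; ring
  rw [this] at h1
  exact h1

lemma cv_zero (f g : ℕ → ℂ) : cv f g 0 = 0 := by simp [cv]

/-- the coefficients of the mollified series -/
noncomputable def cX (c : ℕ → ℂ) (X : ℕ) : ℕ → ℂ := cv (E c) (cut X (E (fun k => -c k)))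

lemma cX_one (c : ℕ → ℂ) {X : ℕ} (hX : 1 ≤ X) : cX c X 1 = 1 := by
  unfold cX cv cut
  simp [E_one, hX]

lemma cX_mid (c : ℕ → ℂ) {X n : ℕ} (hn : n ≤ X) : cX c X n = if n = 1 then 1 else 0 := by
  rw [← E_inv c n]
  unfold cX cv
  refine Finset.sum_congr rfl fun p hp => ?_
  rw [Nat.mem_divisorsAntidiagonal] at hp
  unfold cut
  rw [if_pos]
  refine le_trans ?_ hn
  rw [← hp.1]
  exact Nat.le_mul_of_pos_left _ (Nat.pos_of_ne_zero fun h => by
    rw [h, zero_mul] at hp; exact hp.2 hp.1.symm)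

lemma norm_neg_E_le (c : ℕ → ℂ) (n : ℕ) : ‖E (fun k => -c k) n‖ ≤ E (fun k => ‖c k‖) n := by
  have := norm_E_le (fun k => -c k) n
  simpa using this

lemma cX_le (c : ℕ → ℂ) (X n : ℕ) : ‖cX c X n‖ ≤ ab2 c n :=
  cv_le (norm_E_le c) (fun n => (norm_cut_le _ _ _).trans (norm_neg_E_le c n)) n

lemma Lin.two {c : ℕ → ℂ} (h : Lin c) : Lin (fun n => 2 * c n) := fun σ hσ => by
  refine ((h σ hσ).mul_left 2).congr fun n => ?_
  rw [norm_mul, Complex.norm_ofNat]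
  ring

lemma Lin.ab2 {c : ℕ → ℂ} (h : Lin c) {σ : ℝ} (hσ : 1 < σ) :
    Summable fun n : ℕ => ab2 c n * (n : ℝ) ^ (-σ) := by
  have := h.two.summ hσ
  refine this.congr fun n => ?_
  unfold TW.ab2
  congr 2
  funext k
  rw [norm_mul, Complex.norm_ofNat]

/-- summability of a series with coefficients bounded by `ab2` -/
lemma ls_of_le {c f : ℕ → ℂ} (h : Lin c) {K : ℝ} (hf : ∀ n, ‖f n‖ ≤ K * ab2 c n) {s : ℂ}
    (hs : 1 < s.re) : LSeriesSummable f s := by
  refine Summable.of_norm_bounded ((h.ab2 hs).mul_left K) fun n => ?_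
  rcases eq_or_ne n 0 with rfl | hn
  · have := ab2_nn c 0
    simp only [LSeries.term_zero, norm_zero, Nat.cast_zero]
    have h2 : K * (TW.ab2 c 0 * (0 : ℝ) ^ (-s.re)) = 0 := by
      unfold TW.ab2
      rw [E_zero]
      ring
    rw [h2]
  · have hn0 : (0 : ℝ) < n := by exact_mod_cast Nat.pos_of_ne_zero hn
    rw [LSeries.norm_term_eq, if_neg hn, Real.rpow_neg hn0.le, ← mul_assoc, ← div_eq_mul_inv]
    exact div_le_div_of_nonneg_right (hf n) (by positivity)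

lemma ls_E {c : ℕ → ℂ} (h : Lin c) {s : ℂ} (hs : 1 < s.re) : LSeriesSummable (E c) s := h.ls hs

/-- twisting preserves summability -/
lemma ls_tw {ψ f : ℕ → ℂ} (hψ : ∀ n, ‖ψ n‖ ≤ 1) {s : ℂ} (h : LSeriesSummable f s) :
    LSeriesSummable (tw ψ f) s := by
  refine Summable.of_norm_bounded h.norm fun n => ?_
  rcases eq_or_ne n 0 with rfl | hn
  · simp
  · have hn0 : (0 : ℝ) < n := by exact_mod_cast Nat.pos_of_ne_zero hn
    rw [LSeries.norm_term_eq, LSeries.norm_term_eq, if_neg hn, if_neg hn]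
    exact div_le_div_of_nonneg_right (norm_tw_le hψ f n) (by positivity)

/-- products of twisted series -/
lemma LS_mul_tw {ψ f g : ℕ → ℂ} (hm : ∀ k n, ψ (k * n) = ψ k * ψ n) {s : ℂ}
    (hf : LSeriesSummable (tw ψ f) s) (hg : LSeriesSummable (tw ψ g) s) :
    LSeries (tw ψ f) s * LSeries (tw ψ g) s = LSeries (tw ψ (cv f g)) s := by
  rw [← LSeries_convolution' hf hg, ← cv_tw hm, LSeries.convolution_def]
  rfl

end Pool.Agent.R399.TW
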