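import Pool.Agent.R399.TW.Coef

/-!
# Sums of the coefficients `E κ`, and the Dirichlet series
-/

set_option autoImplicit false

namespace Pool.Agent.R399.TW

open Finset Filter Topology Complex
open ArithmeticFunction (vonMangoldt)

lemma hasDerivAt_rp {n : ℕ} (hn : n ≠ 0) (σ : ℝ) :
    HasDerivAt (fun σ : ℝ => (n : ℝ) ^ (-σ)) (-(Real.log n * (n : ℝ) ^ (-σ))) σ := by
  have hn0 : (0 : ℝ) < n := by exact_mod_cast Nat.pos_of_ne_zero hn
  have h := (hasDerivAt_neg σ).const_rpow hn0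
  convert h using 1
  ring

/-- the sum over the coefficients is at most the product of the sums -/
lemma sum_antidiag_le {N : ℕ} {f g : ℕ → ℝ} (hf : ∀ n, 0 ≤ f n) (hg : ∀ n, 0 ≤ g n) :
    ∑ n ∈ Icc 1 N, ∑ p ∈ n.divisorsAntidiagonal, f p.1 * g p.2 ≤
      (∑ n ∈ Icc 1 N, f n) * ∑ n ∈ Icc 1 N, g n := by
  rw [Finset.sum_mul_sum, ← Finset.sum_product', ← Finset.sum_biUnion]
  · refine Finset.sum_le_sum_of_subset_of_nonneg ?_ fun p _ _ => mul_nonneg (hf _) (hg _)
    intro p hp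
    rw [mem_biUnion] at hp
    obtain ⟨n, hn, hp⟩ := hp
    rw [Nat.mem_divisorsAntidiagonal] at hp
    rw [mem_Icc] at hn
    have h1 : p.1 ≠ 0 := fun h => by rw [h, zero_mul] at hp; exact hp.2 hp.1.symm
    have h2 : p.2 ≠ 0 := fun h => by rw [h, mul_zero] at hp; exact hp.2 hp.1.symm
    rw [mem_product, mem_Icc, mem_Icc]
    have h3 : p.1 ≤ n := Nat.le_of_dvd (by omega) ⟨p.2, hp.1.symm⟩
    have h4 : p.2 ≤ n := Nat.le_of_dvd (by omega) ⟨p.1, by rw [← hp.1, mul_comm]⟩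
    omega
  · intro a _ b _ hab
    rw [Function.onFun, Finset.disjoint_left]
    intro p hp hp'
    rw [Nat.mem_divisorsAntidiagonal] at hp hp'
    exact hab (hp.1.symm.trans hp'.1)

/-- `∑ E κ n n^(-σ) ≤ exp (∑ Λ(n) κ(n) / log n · n^(-σ))` for finite sums -/
lemma fin_exp {κ : ℕ → ℝ} (h : ∀ n, 0 ≤ κ n) (N : ℕ) (σ : ℝ) :
    ∑ n ∈ Icc 1 N, E κ n * (n : ℝ) ^ (-σ) ≤
      Real.exp (∑ n ∈ Icc 2 N, vonMangoldt n / Real.log n * κ n * (n : ℝ) ^ (-σ)) := by
  rcases Nat.eq_zero_or_pos N with rfl | hN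
  · simp
  set f : ℝ → ℝ := fun σ => ∑ n ∈ Icc 1 N, E κ n * (n : ℝ) ^ (-σ) with hf
  set G : ℝ → ℝ := fun σ => ∑ n ∈ Icc 2 N, vonMangoldt n / Real.log n * κ n * (n : ℝ) ^ (-σ)
    with hG
  set S : ℝ → ℝ := fun σ => ∑ n ∈ Icc 2 N, vonMangoldt n * κ n * (n : ℝ) ^ (-σ) with hS
  have hf' : ∀ σ, HasDerivAt f (-∑ n ∈ Icc 1 N, E κ n * (Real.log n * (n : ℝ) ^ (-σ))) σ := by
    intro σ
    rw [hf, ← Finset.sum_neg_distrib]
    refine HasDerivAt.fun_sum fun n hn => ?_
    rw [mem_Icc] at hn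
    exact ((hasDerivAt_rp (n := n) (by omega) σ).const_mul (E κ n)).congr_deriv (by ring)
  have hG' : ∀ σ, HasDerivAt G (-S σ) σ := by
    intro σ
    rw [hG, hS, ← Finset.sum_neg_distrib]
    refine HasDerivAt.fun_sum fun n hn => ?_
    rw [mem_Icc] at hn
    have hl : Real.log n ≠ 0 := (Real.log_pos (by exact_mod_cast (show 1 < n by omega))).ne'
    exact ((hasDerivAt_rp (n := n) (by omega) σ).const_mul
      (vonMangoldt n / Real.log n * κ n)).congr_deriv (by field_simp)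
  have hkey : ∀ σ, ∑ n ∈ Icc 1 N, E κ n * (Real.log n * (n : ℝ) ^ (-σ)) ≤ S σ * f σ := by
    intro σ
    have h1 : ∀ n ∈ Icc 1 N, E κ n * (Real.log n * (n : ℝ) ^ (-σ)) =
        ∑ p ∈ n.divisorsAntidiagonal, (vonMangoldt p.1 * κ p.1 * (p.1 : ℝ) ^ (-σ)) *
          (E κ p.2 * (p.2 : ℝ) ^ (-σ)) := by
      intro n hn
      have e := E_rec κ n
      simp only [RCLike.ofReal_real_eq_id, id] at e
      rw [← mul_assoc, e, Finset.sum_mul]
      refine Finset.sum_congr rfl fun p hp => ?_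
      rw [Nat.mem_divisorsAntidiagonal] at hp
      rw [← hp.1, Nat.cast_mul, Real.mul_rpow (Nat.cast_nonneg _) (Nat.cast_nonneg _)]
      ring
    rw [Finset.sum_congr rfl h1]
    refine (sum_antidiag_le (N := N) (f := fun n => vonMangoldt n * κ n * (n : ℝ) ^ (-σ))
      (g := fun n => E κ n * (n : ℝ) ^ (-σ)) (fun n => ?_) (fun n => ?_)).trans ?_
    · have := vm_nn n
      have := h n
      positivity
    · have := E_nonneg h n
      positivity
    · refine mul_le_mul_of_nonneg_right (le_of_eq ?_) ?_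
      · rw [hS]
        symm
        refine Finset.sum_subset (Finset.Icc_subset_Icc_left (by norm_num)) fun n hn hn' => ?_
        rw [mem_Icc] at hn hn'
        have : n = 1 := by omega
        rw [this]; simp
      · exact Finset.sum_nonneg fun n _ => mul_nonneg (E_nonneg h n) (by positivity)
  have hφ : ∀ σ, HasDerivAt (fun σ => f σ * Real.exp (-G σ))
      ((-∑ n ∈ Icc 1 N, E κ n * (Real.log n * (n : ℝ) ^ (-σ))) * Real.exp (-G σ) +
        f σ * (Real.exp (-G σ) * (- -S σ))) σ := fun σ =>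
    (hf' σ).mul ((hG' σ).neg.exp)
  have hmono : Monotone (fun σ => f σ * Real.exp (-G σ)) := by
    refine monotone_of_deriv_nonneg (fun σ => (hφ σ).differentiableAt) fun σ => ?_
    rw [(hφ σ).deriv]
    have h1 := hkey σ
    have h2 := Real.exp_pos (-G σ)
    nlinarith
  have hf1 : Tendsto f atTop (𝓝 1) := by
    have h1 : f = fun σ => 1 + ∑ n ∈ Icc 2 N, E κ n * (n : ℝ) ^ (-σ) := by
      funext σ
      rw [hf]
      simp only
      rw [← Finset.sum_erase_add _ _ (show 1 ∈ Icc 1 N by rw [mem_Icc]; omega), E_one]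
      have : (Icc 1 N).erase 1 = Icc 2 N := by
        ext n
        simp only [mem_erase, mem_Icc]
        omega
      rw [this]
      simp
      ring
    rw [h1]
    have h2 : Tendsto (fun σ : ℝ => ∑ n ∈ Icc 2 N, E κ n * (n : ℝ) ^ (-σ)) atTop
        (𝓝 (∑ n ∈ Icc 2 N, E κ n * 0)) := by
      refine tendsto_finsetSum _ fun n hn => ?_
      rw [mem_Icc] at hn
      refine Tendsto.const_mul _ ?_
      have hn1 : (1 : ℝ) < n := by exact_mod_cast (show 1 < n by omega)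
      exact (tendsto_rpow_atBot_of_base_gt_one _ hn1).comp tendsto_neg_atTop_atBot
    simpa using h2.const_add 1
  have hG0 : Tendsto G atTop (𝓝 0) := by
    have h2 : Tendsto G atTop (𝓝 (∑ n ∈ Icc 2 N, vonMangoldt n / Real.log n * κ n * 0)) := by
      refine tendsto_finsetSum _ fun n hn => ?_
      rw [mem_Icc] at hn
      refine Tendsto.const_mul _ ?_
      have hn1 : (1 : ℝ) < n := by exact_mod_cast (show 1 < n by omega)
      exact (tendsto_rpow_atBot_of_base_gt_one _ hn1).comp tendsto_neg_atTop_atBot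
    simpa using h2
  have hlim : Tendsto (fun σ => f σ * Real.exp (-G σ)) atTop (𝓝 1) := by
    have := hf1.mul ((Real.continuous_exp.tendsto _).comp hG0.neg)
    simpa using this
  have h1 := hmono.ge_of_tendsto hlim σ
  have h2 := Real.exp_pos (G σ)
  have h3 : Real.exp (-G σ) * Real.exp (G σ) = 1 := by rw [← Real.exp_add]; simp
  calc f σ = f σ * (Real.exp (-G σ) * Real.exp (G σ)) := by rw [h3, mul_one]
    _ = (f σ * Real.exp (-G σ)) * Real.exp (G σ) := by ring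
    _ ≤ 1 * Real.exp (G σ) := by gcongr
    _ = _ := one_mul _

/-- the bound near `σ = 1` -/
lemma fin_log {κ : ℕ → ℝ} (h : ∀ n, 0 ≤ κ n) {C : ℝ}
    (hS : ∀ σ : ℝ, 1 < σ → σ ≤ 2 → ∀ N : ℕ,
      ∑ n ∈ Icc 2 N, vonMangoldt n * κ n * (n : ℝ) ^ (-σ) ≤ C / (σ - 1))
    (N : ℕ) {θ : ℝ} (hθ : 0 < θ) (hθ1 : θ ≤ 1) :
    ∑ n ∈ Icc 2 N, vonMangoldt n / Real.log n * κ n * (n : ℝ) ^ (-(1 + θ)) ≤
      C * Real.log (1 / θ) + 2 * C := by
  set G : ℝ → ℝ := fun σ => ∑ n ∈ Icc 2 N, vonMangoldt n / Real.log n * κ n * (n : ℝ) ^ (-σ)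
    with hG
  set S : ℝ → ℝ := fun σ => ∑ n ∈ Icc 2 N, vonMangoldt n * κ n * (n : ℝ) ^ (-σ) with hSd
  have hG' : ∀ σ, HasDerivAt G (-S σ) σ := by
    intro σ
    rw [hG, hSd, ← Finset.sum_neg_distrib]
    refine HasDerivAt.fun_sum fun n hn => ?_
    rw [mem_Icc] at hn
    have hl : Real.log n ≠ 0 := (Real.log_pos (by exact_mod_cast (show 1 < n by omega))).ne'
    exact ((hasDerivAt_rp (n := n) (by omega) σ).const_mul
      (vonMangoldt n / Real.log n * κ n)).congr_deriv (by field_simp)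
  have hmono : MonotoneOn (fun σ => G σ + C * Real.log (σ - 1)) (Set.Icc (1 + θ) 2) := by
    have hd : ∀ σ : ℝ, 1 < σ → HasDerivAt (fun σ => G σ + C * Real.log (σ - 1))
        (-S σ + C * (1 / (σ - 1))) σ := by
      intro σ hσ
      refine (hG' σ).add (HasDerivAt.const_mul C ?_)
      exact ((hasDerivAt_id σ).sub_const 1).log (by simp only [id]; linarith)
    refine monotoneOn_of_deriv_nonneg (convex_Icc _ _) ?_ ?_ ?_
    · intro σ hσ
      exact (hd σ (by linarith [hσ.1])).continuousAt.continuousWithinAt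
    · intro σ hσ
      rw [interior_Icc] at hσ
      exact (hd σ (by linarith [hσ.1])).differentiableAt.differentiableWithinAt
    · intro σ hσ
      rw [interior_Icc] at hσ
      rw [(hd σ (by linarith [hσ.1])).deriv]
      have := hS σ (by linarith [hσ.1]) hσ.2.le N
      have e : C * (1 / (σ - 1)) = C / (σ - 1) := by ring
      rw [e]
      linarith
  have h1 := hmono (Set.left_mem_Icc.2 (by linarith)) (Set.right_mem_Icc.2 (by linarith))
    (by linarith)
  simp only [add_sub_cancel_left] at h1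
  have h2 : (2 : ℝ) - 1 = 1 := by norm_num
  rw [h2, Real.log_one, mul_zero, add_zero] at h1
  have hC0 : 0 ≤ C := by
    have := hS 2 (by norm_num) le_rfl 0
    simp at this
    linarith
  have h3 : G 2 ≤ 2 * C := by
    have h4 : G 2 ≤ 2 * S 2 := by
      rw [hG, hSd]
      simp only
      rw [Finset.mul_sum]
      refine Finset.sum_le_sum fun n hn => ?_
      rw [mem_Icc] at hn
      have hl : Real.log 2 ≤ Real.log n := Real.log_le_log (by norm_num) (by exact_mod_cast hn.1)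
      have hl2 := Real.log_two_gt_d9
      have e1 : vonMangoldt n / Real.log n ≤ 2 * vonMangoldt n := by
        rw [div_le_iff₀ (by linarith)]
        nlinarith [vm_nn n]
      have e2 : 0 ≤ κ n * (n : ℝ) ^ (-(2 : ℝ)) := mul_nonneg (h n) (by positivity)
      nlinarith
    have h5 := hS 2 (by norm_num) le_rfl N
    have e : C / (2 - 1) = C := by norm_num
    rw [e] at h5
    linarith
  have h6 : Real.log (1 / θ) = -Real.log θ := by rw [one_div, Real.log_inv]
  rw [h6]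
  linarith

lemma fin_bound {κ : ℕ → ℝ} (h : ∀ n, 0 ≤ κ n) {C : ℝ}
    (hS : ∀ σ : ℝ, 1 < σ → σ ≤ 2 → ∀ N : ℕ,
      ∑ n ∈ Icc 2 N, vonMangoldt n * κ n * (n : ℝ) ^ (-σ) ≤ C / (σ - 1))
    (N : ℕ) {θ : ℝ} (hθ : 0 < θ) (hθ1 : θ ≤ 1) :
    ∑ n ∈ Icc 1 N, E κ n * (n : ℝ) ^ (-(1 + θ)) ≤ Real.exp (2 * C) * θ ^ (-C) := by
  refine (fin_exp h N _).trans ?_
  refine (Real.exp_le_exp.2 (fin_log h hS N hθ hθ1)).trans (le_of_eq ?_)
  rw [Real.exp_add, mul_comm, Real.rpow_def_of_pos hθ, one_div, Real.log_inv]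
  congr 2
  ring

lemma sum_bound {κ : ℕ → ℝ} (h : ∀ n, 0 ≤ κ n) {C : ℝ}
    (hS : ∀ σ : ℝ, 1 < σ → σ ≤ 2 → ∀ N : ℕ,
      ∑ n ∈ Icc 2 N, vonMangoldt n * κ n * (n : ℝ) ^ (-σ) ≤ C / (σ - 1))
    {θ : ℝ} (hθ : 0 < θ) (hθ1 : θ ≤ 1) :
    Summable (fun n : ℕ => E κ n * (n : ℝ) ^ (-(1 + θ))) ∧
      ∑' n : ℕ, E κ n * (n : ℝ) ^ (-(1 + θ)) ≤ Real.exp (2 * C) * θ ^ (-C) := by
  have hnn : ∀ n : ℕ, 0 ≤ E κ n * (n : ℝ) ^ (-(1 + θ)) := fun n =>
    mul_nonneg (E_nonneg h n) (by positivity)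
  have hb : ∀ N : ℕ, ∑ n ∈ range N, E κ n * (n : ℝ) ^ (-(1 + θ)) ≤
      Real.exp (2 * C) * θ ^ (-C) := by
    intro N
    refine le_trans ?_ (fin_bound h hS N hθ hθ1)
    rcases Nat.eq_zero_or_pos N with rfl | hN
    · simp
    · rw [Finset.range_eq_Ico, Finset.sum_eq_sum_Ico_succ_bot hN]
      rw [E_zero, zero_mul, zero_add]
      refine Finset.sum_le_sum_of_subset_of_nonneg ?_ fun n _ _ => hnn n
      intro n hn
      rw [mem_Ico] at hn
      rw [mem_Icc]
      omega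
  exact ⟨summable_of_sum_range_le hnn hb, Real.tsum_le_of_sum_range_le hnn hb⟩

end Pool.Agent.R399.TW
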